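import Pool.Agent.PnMaynard.MainSeq

/-!
# The main statement for sequences compatible with congruences, asymptotics
-/

open Finset Filter

namespace Pool.Agent.PnMaynard

open Pool.Agent.PnPoly

lemma card_missed (g H : ℕ) (hg : 1 ≤ g) :
    ((Ioc 0 H).filter (fun a => ¬ (0 < a / g ∧ a / g ≤ H / g - 1))).card ≤ 2 * g := by
  classical
  have h1 : (Ioc 0 H).filter (fun a => ¬ (0 < a / g ∧ a / g ≤ H / g - 1)) ⊆
      range g ∪ Icc (g * (H / g)) H := by
    intro a ha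
    rw [mem_filter, mem_Ioc] at ha
    rw [mem_union, mem_range, mem_Icc]
    by_cases h : a < g
    · exact Or.inl h
    · right
      push Not at h
      refine ⟨?_, ha.1.2⟩
      have h2 : 0 < a / g := Nat.div_pos h (by omega)
      have h3 : ¬ a / g ≤ H / g - 1 := fun h4 => ha.2 ⟨h2, h4⟩
      have h4 : H / g ≤ a / g := by omega
      calc g * (H / g) ≤ g * (a / g) := Nat.mul_le_mul_left g h4
        _ ≤ a := Nat.mul_div_le a g
  refine (card_le_card h1).trans ((card_union_le _ _).trans ?_)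
  rw [card_range, Nat.card_Icc]
  have h2 := Nat.mod_lt H (show 0 < g by omega)
  have h3 := Nat.div_add_mod H g
  omega

/-- Summation over residue classes. -/
lemma count_classes (g H : ℕ) (hg : 1 ≤ g) (P : ℕ → ℕ → Prop) [∀ a b, Decidable (P a b)] :
    ((Ioc 0 H ×ˢ Ioc 0 H).filter (fun v => P v.1 v.2)).card ≤
      ∑ α ∈ range g, ∑ β ∈ range g, ((Ioc 0 (H / g - 1) ×ˢ Ioc 0 (H / g - 1)).filter
        (fun t => P (α + g * t.2) (β + g * t.1))).card + 4 * g * H := by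
  classical
  set K := H / g - 1 with hK
  set R := (Ioc 0 H).filter (fun a => ¬ (0 < a / g ∧ a / g ≤ K)) with hR
  have hRc : R.card ≤ 2 * g := card_missed g H hg
  set Z : ℕ → ℕ → Finset (ℕ × ℕ) := fun α β => ((Ioc 0 K ×ˢ Ioc 0 K).filter
        (fun t => P (α + g * t.2) (β + g * t.1))) with hZ
  have hsub : (Ioc 0 H ×ˢ Ioc 0 H).filter (fun v => P v.1 v.2) ⊆
      ((range g ×ˢ range g).biUnion fun c => (Z c.1 c.2).image
        (fun t => (c.1 + g * t.2, c.2 + g * t.1))) ∪ (R ×ˢ Ioc 0 H ∪ Ioc 0 H ×ˢ R) := by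
    rintro ⟨a, b⟩ hv
    rw [mem_filter, mem_product] at hv
    simp only at hv
    obtain ⟨⟨ha, hb⟩, hP⟩ := hv
    rw [mem_union, mem_union, mem_product, mem_product]
    by_cases h1 : a ∈ R
    · exact Or.inr (Or.inl ⟨h1, hb⟩)
    by_cases h2 : b ∈ R
    · exact Or.inr (Or.inr ⟨ha, h2⟩)
    left
    rw [hR, mem_filter, not_and, not_not] at h1 h2
    have h1' := h1 ha
    have h2' := h2 hb
    rw [mem_biUnion]
    refine ⟨(a % g, b % g), ?_, ?_⟩
    · rw [mem_product, mem_range, mem_range]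
      exact ⟨Nat.mod_lt _ (by omega), Nat.mod_lt _ (by omega)⟩
    · rw [mem_image]
      have ea := Nat.mod_add_div a g
      have eb := Nat.mod_add_div b g
      refine ⟨(b / g, a / g), ?_, ?_⟩
      · simp only [hZ]
        rw [mem_filter, mem_product, mem_Ioc, mem_Ioc]
        refine ⟨⟨h2', h1'⟩, ?_⟩
        simp only
        rw [ea, eb]
        exact hP
      · simp only
        rw [ea, eb]
  refine (card_le_card hsub).trans ((card_union_le _ _).trans (add_le_add ?_ ?_))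
  · refine card_biUnion_le.trans ?_
    rw [sum_product]
    exact sum_le_sum fun α _ => sum_le_sum fun β _ => card_image_le
  · refine (card_union_le _ _).trans ?_
    rw [card_product, card_product, Nat.card_Ioc]
    simp only [Nat.sub_zero]
    nlinarith

/-- The error terms. -/
lemma err_le {g N K : ℕ} {A' B : ℕ} (hA' : A' = 4 * (B + 2)) {L H M lX : ℝ} (hL : 1 ≤ L)
    (hH : 0 < H) (hM : 0 ≤ M) (hlX0 : 0 ≤ lX) (hlX : lX ≤ 2 * L) (hN1 : L ^ A' ≤ N)
    (hN2 : (N:ℝ) ≤ 2 * L ^ A') (hK : (K:ℝ) ≤ H) (hHL : L ^ (2 * A' + 2) ≤ H) :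
    M * (N:ℝ) ^ (-(1/4) : ℝ) * lX * (K * (2 * g * K + 2 * (H / L ^ (2 * A' + 3)))) +
        (2 * g * (3 * N) ^ 2 * K * (2 * (H / L ^ (2 * A' + 3)) + lX) +
          2 * (H / L ^ (2 * A' + 3)) * (K * (1 + 3 * N)) * lX) +
        4 * (2 * g) * (H / L ^ (2 * A' + 3)) * K ≤
      (4 * M * (g + 1) + 296 * g + 28) * (H ^ 2 / L) := by
  have hL0 : 0 < L := by linarith
  have hN0 : (0:ℝ) < N := lt_of_lt_of_le (by positivity) hN1
  have hK0 : (0:ℝ) ≤ K := Nat.cast_nonneg K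
  have hg0 : (0:ℝ) ≤ g := Nat.cast_nonneg g
  have hη : (N:ℝ) ^ (-(1/4) : ℝ) ≤ 1 / L ^ 2 := by
    have h1 : (N:ℝ) ^ (-(1/4) : ℝ) ≤ (L ^ A') ^ (-(1/4) : ℝ) :=
      Real.rpow_le_rpow_of_nonpos (by positivity) hN1 (by norm_num)
    have h2 : (L ^ A') ^ (-(1/4) : ℝ) = 1 / L ^ (B + 2) := by
      have h3 : 1 / L ^ (B + 2) = L ^ (-((B + 2 : ℕ) : ℝ)) := by
        rw [Real.rpow_neg hL0.le, one_div, Real.rpow_natCast]
      rw [h3, ← Real.rpow_natCast, ← Real.rpow_mul hL0.le, hA']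
      congr 1
      push_cast
      ring
    rw [h2] at h1
    refine h1.trans (one_div_le_one_div_of_le (by positivity) ?_)
    exact pow_le_pow_right₀ hL (by omega)
  have hE1 : H / L ^ (2 * A' + 3) ≤ H := div_le_self hH.le (one_le_pow₀ hL)
  have hE0 : 0 ≤ H / L ^ (2 * A' + 3) := by positivity
  set E := H / L ^ (2 * A' + 3) with hE
  have hEL : E * L ^ (2 * A' + 3) = H := by rw [hE]; field_simp
  have hp1 : L ^ A' ≤ L ^ (A' + 1) := pow_le_pow_right₀ hL (by omega)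
  have hLA : 1 ≤ L ^ A' := one_le_pow₀ hL
  have hH2L : 0 ≤ H ^ 2 / L := by positivity
  -- term 1
  have t1 : M * (N:ℝ) ^ (-(1/4) : ℝ) * lX * (K * (2 * g * K + 2 * E)) ≤
      4 * M * (g + 1) * (H ^ 2 / L) := by
    calc M * (N:ℝ) ^ (-(1/4) : ℝ) * lX * (K * (2 * g * K + 2 * E)) ≤
          M * (1 / L ^ 2) * (2 * L) * (H * (2 * g * H + 2 * H)) := by gcongr
      _ = 4 * M * (g + 1) * (H ^ 2 / L) := by field_simp; ring
  have hE3 : L ^ (2 * A') * E ≤ H / L := by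
    rw [hE, le_div_iff₀ hL0]
    have h1 : L ^ (2 * A') * (H / L ^ (2 * A' + 3)) * L = H / L ^ 2 := by
      rw [show 2 * A' + 3 = 2 * A' + 1 + 2 by ring, pow_add L (2 * A' + 1) 2, pow_succ L (2 * A')]
      field_simp
    rw [h1]
    exact div_le_self hH.le (one_le_pow₀ hL)
  have hNsq : (N:ℝ) ^ 2 ≤ 4 * L ^ (2 * A') := by
    calc (N:ℝ) ^ 2 ≤ (2 * L ^ A') ^ 2 := pow_le_pow_left₀ hN0.le hN2 2
      _ = 4 * L ^ (2 * A') := by rw [mul_pow, ← pow_mul, mul_comm A' 2]; norm_num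
  -- term 2
  have t2 : 2 * g * (3 * (N:ℝ)) ^ 2 * K * (2 * E) ≤ 144 * g * (H ^ 2 / L) := by
    calc 2 * g * (3 * (N:ℝ)) ^ 2 * K * (2 * E) = 36 * g * ((N:ℝ) ^ 2 * E) * K := by ring
      _ ≤ 36 * g * ((4 * L ^ (2 * A')) * E) * H := by gcongr
      _ = 144 * g * (L ^ (2 * A') * E) * H := by ring
      _ ≤ 144 * g * (H / L) * H := by gcongr
      _ = _ := by ring
  have t3 : 2 * g * (3 * (N:ℝ)) ^ 2 * K * lX ≤ 144 * g * (H ^ 2 / L) := by
    calc 2 * g * (3 * (N:ℝ)) ^ 2 * K * lX = 18 * g * ((N:ℝ) ^ 2 * lX) * K := by ring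
      _ ≤ 18 * g * ((4 * L ^ (2 * A')) * (2 * L)) * H := by gcongr
      _ = 144 * g * (L ^ (2 * A' + 2) / L) * H := by
          rw [pow_succ, pow_succ]; field_simp; ring
      _ ≤ 144 * g * (H / L) * H := by gcongr
      _ = _ := by ring
  have t4 : 2 * E * (K * (1 + 3 * (N:ℝ))) * lX ≤ 28 * (H ^ 2 / L) := by
    have h1 : 1 + 3 * (N:ℝ) ≤ 7 * L ^ A' := by linarith
    have h2 : L ^ A' * L ≤ L ^ (2 * A' + 2) := by
      rw [← pow_succ]
      exact pow_le_pow_right₀ hL (by omega)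
    have h3 : L ^ (2 * A' + 2) * E = H / L := by
      rw [hE, show 2 * A' + 3 = (2 * A' + 2) + 1 by ring, pow_succ L (2 * A' + 2)]
      field_simp
    calc 2 * E * (K * (1 + 3 * (N:ℝ))) * lX ≤ 2 * E * (H * (7 * L ^ A')) * (2 * L) := by gcongr
      _ = 28 * (L ^ A' * L * E) * H := by ring
      _ ≤ 28 * (L ^ (2 * A' + 2) * E) * H := by gcongr
      _ = _ := by rw [h3]; ring
  have t5 : 4 * (2 * g) * E * K ≤ 8 * g * (H ^ 2 / L) := by
    have h1 : E ≤ H / L := by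
      rw [hE]
      refine div_le_div_of_nonneg_left hH.le hL0 ?_
      calc L = L ^ 1 := (pow_one L).symm
        _ ≤ L ^ (2 * A' + 3) := pow_le_pow_right₀ hL (by omega)
    calc 4 * (2 * g) * E * K ≤ 4 * (2 * g) * (H / L) * H := by gcongr
      _ = _ := by ring
  have hsum : 2 * g * (3 * (N:ℝ)) ^ 2 * K * (2 * E + lX) = 2 * g * (3 * (N:ℝ)) ^ 2 * K * (2 * E) +
      2 * g * (3 * (N:ℝ)) ^ 2 * K * lX := by ring
  rw [hsum]
  linarith only [t1, t2, t3, t4, t5]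

lemma rpow_quarter_le {N : ℕ} {A' B : ℕ} (hA' : A' = 4 * (B + 2)) {L : ℝ} (hL : 1 ≤ L)
    (hN1 : L ^ A' ≤ N) : (N:ℝ) ^ (-(1/4) : ℝ) ≤ 1 / L ^ (B + 2) := by
  have hL0 : 0 < L := by linarith
  have h1 : (N:ℝ) ^ (-(1/4) : ℝ) ≤ (L ^ A') ^ (-(1/4) : ℝ) :=
    Real.rpow_le_rpow_of_nonpos (by positivity) hN1 (by norm_num)
  have h2 : (L ^ A') ^ (-(1/4) : ℝ) = 1 / L ^ (B + 2) := by
    have h3 : 1 / L ^ (B + 2) = L ^ (-((B + 2 : ℕ) : ℝ)) := by
      rw [Real.rpow_neg hL0.le, one_div, Real.rpow_natCast]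
    rw [h3, ← Real.rpow_natCast, ← Real.rpow_mul hL0.le, hA']
    congr 1
    push_cast
    ring
  rw [h2] at h1
  exact h1

/-- Almost all linear perturbations. -/
theorem main_seq {Δ : ℕ} (hΔ : 1 ≤ Δ) (n0 B : ℕ) {ε : ℝ} (hε : 0 < ε) :
    ∃ A : ℕ, ∀ D0 : ℕ, ∀ᶠ H : ℕ in atTop, ∀ Q : ℕ → ℕ, IV Δ n0 Q →
      (∀ n : ℕ, (n:ℝ) ≤ Real.log H ^ A → (Q n : ℝ) ≤ H * Real.log H ^ D0) →
      (((Ioc 0 H ×ˢ Ioc 0 H).filter (fun v => (((Icc 1 ⌊Real.log H ^ A⌋₊).filter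
        (fun n => n0 ≤ n ∧ (pr n + 2 * (Q n + v.1 * n + v.2)).Prime)).card : ℝ) <
          Real.log H ^ B)).card : ℝ) ≤ ε * (H:ℝ) ^ 2 := by
  classical
  obtain ⟨g, hg0, hg2, hgΔ, M, hM, hclu⟩ := cluster_measure hΔ (ε := ε / 8) (by positivity)
  set A' := 4 * (B + 2) with hA'
  choose a0 ha0 ha0' using fun c : ℕ => exists_a0 g c hg0
  refine ⟨A' + 1, fun D0 => ?_⟩
  set D1 := D0 + A' + 4 with hD1
  set C1 := 4 * M * (g + 1) + 296 * g + 28 with hC1
  have hC10 : 0 < C1 := by positivity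
  have hall : ∀ᶠ N : ℕ in atTop, ∀ c ∈ range g, ∃ ν : ℕ → ℝ, (∀ n, 0 ≤ ν n) ∧
        (∀ n, ν n ≠ 0 → ((1 ≤ n ∧ n ≤ 3 * N) ∧ pr n ≤ 3 * N) ∧ n0 ≤ n ∧ n ≡ n0 [MOD g * Δ] ∧
          pr n ≡ a0 c [MOD g]) ∧
        ∑ n ∈ Icc 1 (3 * N), ν n = 1 ∧ (∀ n, ν n ≤ M * (N:ℝ) ^ (-(1/4) : ℝ)) ∧
        ∑ m ∈ Icc 1 (3 * N), ∑ n ∈ Icc 1 (3 * N), ν m * ν n * (if m = n then 0 else
          ∏ l ∈ (dd (pr m) (pr n)).primeFactors.filter (fun l => ¬ l ∣ g),
            ((l:ℝ) / ((l:ℝ) - 1))) ≤ 1 + ε / 8 := by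
    rw [Filter.eventually_all_finset]
    intro c _
    exact hclu n0 (a0 c) n0 (ha0 c)
  have hNt : Tendsto (fun H : ℕ => ⌈Real.log H ^ A'⌉₊) atTop atTop := by
    refine tendsto_nat_ceil_atTop.comp ?_
    exact (tendsto_pow_atTop (by omega)).comp tendsto_log_nat
  have e1 : ∀ᶠ H : ℕ in atTop, Real.log H ^ (2 * A' + 2) / Real.sqrt H ≤ 1 :=
    (log_pow_div_tendsto (2 * A' + 2)).eventually_le_const (by norm_num)
  have e2 : ∀ᶠ H : ℕ in atTop, Real.log (Real.log H) / Real.log H ≤ 1 / (D1 + 1) :=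
    log_log_div_tendsto.eventually_le_const (by positivity)
  filter_upwards [hNt.eventually hall, e1, e2, sw_uniform D1 (2 * A' + 3),
    tendsto_log_nat.eventually_ge_atTop (4 * M + 1 + (22 + 14 * g) + 16 * (g:ℝ) ^ 2 * C1 / ε),
    eventually_ge_atTop 2, tendsto_natCast_atTop_atTop.eventually_ge_atTop (16 * (g:ℝ) / ε)]
    with H hN h1 h2 hsw hLbig hH2 hHbig Q hIV hQ
  set L := Real.log H with hLdef
  set N := ⌈L ^ A'⌉₊ with hNdef
  have hgr : (1:ℝ) ≤ g := by exact_mod_cast hg0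
  have hpos1 : 0 ≤ 16 * (g:ℝ) ^ 2 * C1 / ε := by positivity
  have hL22 : 22 + 14 * (g:ℝ) ≤ L := by linarith
  have hL1 : 1 ≤ L := by linarith
  have hL0 : 0 < L := by linarith
  have hH0 : (0:ℝ) < H := by exact_mod_cast (by omega : 0 < H)
  have hH1 : (1:ℝ) ≤ H := by exact_mod_cast (by omega : 1 ≤ H)
  have hsq1 : 1 ≤ Real.sqrt H := by
    rw [show (1:ℝ) = Real.sqrt 1 by simp]; exact Real.sqrt_le_sqrt hH1
  have hLA1 : 1 ≤ L ^ A' := one_le_pow₀ hL1
  have hN1 : L ^ A' ≤ N := Nat.le_ceil _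
  have hN2 : (N:ℝ) ≤ 2 * L ^ A' := by
    have := (Nat.ceil_lt_add_one (show 0 ≤ L ^ A' by positivity)).le
    linarith
  have hNpos : 1 ≤ N := by
    have : (0:ℝ) < N := by linarith
    exact_mod_cast this
  have hHL : L ^ (2 * A' + 2) ≤ H := by
    rw [div_le_one (by linarith)] at h1
    refine h1.trans ?_
    have h3 : Real.sqrt H * Real.sqrt H = H := Real.mul_self_sqrt hH0.le
    have h4 := mul_le_mul_of_nonneg_right hsq1 (Real.sqrt_nonneg H)
    linarith only [h3, h4]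
  set X := XB D1 H with hX
  have hXH : H ≤ X := le_XB hL1
  have hXle : (X:ℝ) ≤ H * L ^ D1 := XB_le D1 H
  have hX0 : (0:ℝ) < X := lt_of_lt_of_le hH0 (by exact_mod_cast hXH)
  have hlX : Real.log X ≤ 2 * L := by
    have h3 : Real.log X ≤ Real.log (H * L ^ D1) := Real.log_le_log hX0 hXle
    rw [Real.log_mul hH0.ne' (by positivity), Real.log_pow] at h3
    have h4 : (D1:ℝ) * Real.log L ≤ L := by
      rw [div_le_div_iff₀ hL0 (by positivity)] at h2
      rcases le_total 0 (Real.log L) with h5 | h5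
      · linarith only [h2, h5]
      · have : (D1:ℝ) * Real.log L ≤ 0 := mul_nonpos_of_nonneg_of_nonpos (Nat.cast_nonneg _) h5
        linarith
    linarith
  have hlX0 : 0 ≤ Real.log X := Real.log_natCast_nonneg X
  set K := H / g - 1 with hK
  have hgK : g * K ≤ H := (Nat.mul_le_mul_left g (Nat.sub_le _ _)).trans (Nat.mul_div_le H g)
  have hgKr : (g:ℝ) * K ≤ H := by exact_mod_cast hgK
  have hKH : (K:ℝ) ≤ H := (le_mul_of_one_le_left (Nat.cast_nonneg K) hgr).trans hgKr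
  set E := (H:ℝ) / L ^ (2 * A' + 3) with hE
  have hE0 : 0 ≤ E := by positivity
  have h3N : 3 * N ≤ ⌊L ^ (A' + 1)⌋₊ := by
    refine Nat.le_floor ?_
    push_cast
    calc 3 * (N:ℝ) ≤ 6 * L ^ A' := by linarith
      _ ≤ L * L ^ A' := by gcongr; linarith
      _ = L ^ (A' + 1) := by ring
  have hSW : SWH X (2 * g * (3 * N)) E := by
    intro x hx q hq hqY a ha
    refine hsw x ?_ q hq ?_ a ha
    · exact le_trans (by exact_mod_cast hx) hXle
    · have h3 : (q:ℝ) ≤ 2 * g * (3 * N) := by exact_mod_cast hqY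
      refine h3.trans ?_
      calc 2 * (g:ℝ) * (3 * N) ≤ 2 * g * (3 * (2 * L ^ A')) := by gcongr
        _ = (12 * g) * L ^ A' := by ring
        _ ≤ L * L ^ A' := by gcongr; linarith
        _ = L ^ (A' + 1) := by ring
        _ ≤ L ^ D1 := pow_le_pow_right₀ hL1 (by omega)
  -- each class
  have hclass : ∀ α ∈ range g, ∀ β ∈ range g, (((Ioc 0 K ×ˢ Ioc 0 K).filter
      (fun t => (((Icc 1 ⌊L ^ (A' + 1)⌋₊).filter
        (fun n => n0 ≤ n ∧ (pr n + 2 * (Q n + (α + g * t.2) * n + (β + g * t.1))).Prime)).card : ℝ) <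
          L ^ B)).card : ℝ) ≤ 4 * (K:ℝ) ^ 2 * (ε / 8) + 4 * (C1 * ((H:ℝ) ^ 2 / L)) := by
    intro α hα β hβ
    rw [mem_range] at hα hβ
    set c := (Q n0 + β + α * n0) % g with hc
    obtain ⟨ν, hν0, hνs, hν1, hνM, hνc⟩ := hN c (mem_range.2 (Nat.mod_lt _ hg0))
    have hcop : (a0 c + 2 * (Q n0 + β + α * n0)).Coprime g := by
      have h3 : a0 c + 2 * (Q n0 + β + α * n0) ≡ a0 c + 2 * c [MOD g] :=
        Nat.ModEq.add_left _ ((Nat.mod_modEq _ _).symm.mul_left 2)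
      exact (Nat.ModEq.gcd_eq h3).trans (ha0' c)
    have hXX : ∀ n, n ≤ 3 * N → pr n ≤ 3 * N →
        pr n + 2 * (Q n + β + α * n) + 2 * g * (K + K * n) ≤ X := by
      intro n hn hpn
      rw [hX]
      unfold XB
      refine Nat.le_floor ?_
      have hnr : (n:ℝ) ≤ 6 * L ^ A' := by
        have : (n:ℝ) ≤ 3 * N := by exact_mod_cast hn
        linarith
      have hpr : (pr n:ℝ) ≤ 6 * L ^ A' := by
        have : (pr n:ℝ) ≤ 3 * N := by exact_mod_cast hpn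
        linarith
      have hQn : (Q n : ℝ) ≤ H * L ^ D0 := by
        refine hQ n ?_
        have h3 : (n:ℝ) ≤ (⌊L ^ (A' + 1)⌋₊ : ℝ) := by exact_mod_cast hn.trans h3N
        exact h3.trans (Nat.floor_le (by positivity))
      have hαr : (α:ℝ) ≤ g := by exact_mod_cast hα.le
      have hβr : (β:ℝ) ≤ g := by exact_mod_cast hβ.le
      set m := L ^ (D0 + A') with hm
      have hm1 : 1 ≤ m := one_le_pow₀ hL1
      have hm2 : L ^ A' ≤ m := pow_le_pow_right₀ hL1 (by omega)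
      have hm3 : L ^ D0 ≤ m := pow_le_pow_right₀ hL1 (by omega)
      have hHm : m ≤ H * m := le_mul_of_one_le_left (by linarith) hH1
      push_cast
      calc (pr n:ℝ) + 2 * (Q n + β + α * n) + 2 * g * (K + K * n) =
            pr n + 2 * Q n + 2 * β + 2 * α * n + 2 * (g * K) * (1 + n) := by ring
        _ ≤ 6 * m + 2 * (H * m) + 2 * g * m + 2 * g * (6 * m) + 2 * H * (m + 6 * m) := by
            have h4 : (1:ℝ) + n ≤ m + 6 * m := by linarith
            have h5 : (n:ℝ) ≤ 6 * m := by linarith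
            have h6 : (Q n : ℝ) ≤ H * m := hQn.trans (by gcongr)
            have h7 : (β:ℝ) ≤ g * m := hβr.trans (le_mul_of_one_le_right (Nat.cast_nonneg g) hm1)
            have h8 : (pr n:ℝ) ≤ 6 * m := by linarith
            have h9 : 2 * (α:ℝ) * n ≤ 2 * g * (6 * m) := by gcongr
            have h10 : 2 * ((g:ℝ) * K) * (1 + n) ≤ 2 * H * (m + 6 * m) := by gcongr
            linarith only [h6, h7, h8, h9, h10]
        _ ≤ (22 + 14 * g) * (H * m) := by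
            have h4 := mul_le_mul_of_nonneg_left hHm (Nat.cast_nonneg (α := ℝ) g)
            linarith only [h4, hHm]
        _ ≤ L * (H * m) := by gcongr
        _ = H * L ^ (D0 + A' + 1) := by rw [hm]; ring
        _ ≤ H * L ^ D1 := by
            refine mul_le_mul_of_nonneg_left ?_ hH0.le
            exact pow_le_pow_right₀ hL1 (by omega)
    have hBd : L ^ B * (M * (N:ℝ) ^ (-(1/4) : ℝ) * Real.log X) < 1 / 2 := by
      have h3 := rpow_quarter_le hA' hL1 hN1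
      have h4 : L ^ B * (M * (N:ℝ) ^ (-(1/4) : ℝ) * Real.log X) ≤
          L ^ B * (M * (1 / L ^ (B + 2)) * (2 * L)) := by gcongr
      refine lt_of_le_of_lt h4 ?_
      have h5 : L ^ B * (M * (1 / L ^ (B + 2)) * (2 * L)) = 2 * M / L := by
        rw [pow_add]; field_simp
      rw [h5, div_lt_iff₀ hL0]
      linarith
    have h3 := class_bad (α := α) (β := β) hIV hΔ hg0 hg2 hgΔ hcop hNpos hE0 (by linarith) hSW hν0
      hνs hν1 hνM (ε := ε / 8) (by positivity) hνc hXX hBd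
    have h4 := err_le (g := g) (N := N) (K := K) (A' := A') (B := B) hA' hL1 hH0
      (show 0 ≤ M by linarith) hlX0 hlX hN1 hN2 hKH hHL
    have h5 : (Ioc 0 K ×ˢ Ioc 0 K).filter
      (fun t => (((Icc 1 ⌊L ^ (A' + 1)⌋₊).filter
        (fun n => n0 ≤ n ∧ (pr n + 2 * (Q n + (α + g * t.2) * n + (β + g * t.1))).Prime)).card : ℝ) <
          L ^ B) ⊆ (Ioc 0 K ×ˢ Ioc 0 K).filter (fun t => (((Icc 1 (3 * N)).filter (fun n => n0 ≤ n ∧
      (vv (fun n => pr n + 2 * (Q n + β + α * n)) (2 * g) t.1 t.2 n).Prime)).card : ℝ) < L ^ B) := by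
      intro t ht
      rw [mem_filter] at ht ⊢
      refine ⟨ht.1, lt_of_le_of_lt ?_ ht.2⟩
      have : (Icc 1 (3 * N)).filter (fun n => n0 ≤ n ∧
          (vv (fun n => pr n + 2 * (Q n + β + α * n)) (2 * g) t.1 t.2 n).Prime) ⊆
          (Icc 1 ⌊L ^ (A' + 1)⌋₊).filter
        (fun n => n0 ≤ n ∧ (pr n + 2 * (Q n + (α + g * t.2) * n + (β + g * t.1))).Prime) := by
        intro n hn
        rw [mem_filter, mem_Icc] at hn ⊢
        refine ⟨⟨hn.1.1, hn.1.2.trans h3N⟩, hn.2.1, ?_⟩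
        have h6 : pr n + 2 * (Q n + (α + g * t.2) * n + (β + g * t.1)) =
            vv (fun n => pr n + 2 * (Q n + β + α * n)) (2 * g) t.1 t.2 n := by
          unfold vv
          ring
        rw [h6]
        exact hn.2.2
      exact_mod_cast card_le_card this
    have h6 : ((((Ioc 0 K ×ˢ Ioc 0 K).filter
      (fun t => (((Icc 1 ⌊L ^ (A' + 1)⌋₊).filter
        (fun n => n0 ≤ n ∧ (pr n + 2 * (Q n + (α + g * t.2) * n + (β + g * t.1))).Prime)).card : ℝ) <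
          L ^ B)).card : ℕ) : ℝ) ≤ (((Ioc 0 K ×ˢ Ioc 0 K).filter (fun t => (((Icc 1 (3 * N)).filter (fun n => n0 ≤ n ∧
      (vv (fun n => pr n + 2 * (Q n + β + α * n)) (2 * g) t.1 t.2 n).Prime)).card : ℝ) < L ^ B)).card : ℝ) := by
      exact_mod_cast card_le_card h5
    refine h6.trans (h3.trans ?_)
    linarith
  have hcc := count_classes g H hg0 (fun a b => (((Icc 1 ⌊L ^ (A' + 1)⌋₊).filter
        (fun n => n0 ≤ n ∧ (pr n + 2 * (Q n + a * n + b)).Prime)).card : ℝ) < L ^ B)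
  have hcc' : (((Ioc 0 H ×ˢ Ioc 0 H).filter (fun v => (((Icc 1 ⌊L ^ (A' + 1)⌋₊).filter
        (fun n => n0 ≤ n ∧ (pr n + 2 * (Q n + v.1 * n + v.2)).Prime)).card : ℝ) <
          L ^ B)).card : ℝ) ≤ ∑ α ∈ range g, ∑ β ∈ range g, (((Ioc 0 K ×ˢ Ioc 0 K).filter
      (fun t => (((Icc 1 ⌊L ^ (A' + 1)⌋₊).filter
        (fun n => n0 ≤ n ∧ (pr n + 2 * (Q n + (α + g * t.2) * n + (β + g * t.1))).Prime)).card : ℝ) <
          L ^ B)).card : ℝ) + 4 * g * H := by
    exact_mod_cast hcc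
  refine hcc'.trans ?_
  calc _ ≤ ∑ _α ∈ range g, ∑ _β ∈ range g,
        (4 * (K:ℝ) ^ 2 * (ε / 8) + 4 * (C1 * ((H:ℝ) ^ 2 / L))) + 4 * (g:ℝ) * H := by
        refine add_le_add (sum_le_sum fun α hα => sum_le_sum fun β hβ => hclass α hα β hβ) le_rfl
    _ = ((g:ℝ) * K) ^ 2 * (ε / 2) + 4 * (g:ℝ) ^ 2 * C1 / L * (H:ℝ) ^ 2 + 4 * (g:ℝ) * H := by
        rw [sum_const, sum_const, card_range]
        simp only [nsmul_eq_mul]
        ring
    _ ≤ (H:ℝ) ^ 2 * (ε / 2) + ε / 4 * (H:ℝ) ^ 2 + ε / 4 * (H:ℝ) ^ 2 := by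
        refine add_le_add (add_le_add ?_ ?_) ?_
        · have : ((g:ℝ) * K) ^ 2 ≤ (H:ℝ) ^ 2 := pow_le_pow_left₀ (by positivity) hgKr 2
          gcongr
        · refine mul_le_mul_of_nonneg_right ?_ (by positivity)
          rw [div_le_iff₀ hL0]
          have h3 : 16 * (g:ℝ) ^ 2 * C1 / ε ≤ L := by linarith
          rw [div_le_iff₀ hε] at h3
          linarith
        · rw [div_le_iff₀ hε] at hHbig
          have h3 := mul_le_mul_of_nonneg_right hHbig hH0.le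
          linarith only [h3]
    _ = ε * (H:ℝ) ^ 2 := by ring

end Pool.Agent.PnMaynard
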