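import Pool.Agent.PnMaynard.Euler
import Pool.Agent.Lib.Maynard.BVInst

/-!
# Clusters of consecutive primes in a residue class; the index
-/

open Finset Filter

namespace Pool.Agent.PnMaynard

open Pool.Agent.PnPoly Pool.Agent.Maynard

/-- The distance of natural numbers. -/
def dd (a b : ℕ) : ℕ := (a - b) + (b - a)

lemma dvd_dd {q a b : ℕ} : q ∣ dd a b ↔ a ≡ b [MOD q] := by
  unfold dd
  rcases le_total a b with h | h
  · rw [Nat.sub_eq_zero_of_le h, zero_add, Nat.modEq_iff_dvd' h]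
  · rw [Nat.sub_eq_zero_of_le h, add_zero, Nat.ModEq.comm, Nat.modEq_iff_dvd' h]

lemma dd_pos {a b : ℕ} (h : a ≠ b) : 1 ≤ dd a b := by
  unfold dd; omega

lemma dd_le {a b M : ℕ} (ha : a ≤ M) (hb : b ≤ M) : dd a b ≤ M := by
  unfold dd; omega

lemma exists_modEq_in_window (m r j : ℕ) (hm : 1 ≤ m) : ∃ n, j + 1 ≤ n ∧ n < j + 1 + m ∧ n ≡ r [MOD m] := by
  refine ⟨j + 1 + (r + (m - 1) * (j + 1)) % m, by omega, ?_, ?_⟩
  · have := Nat.mod_lt (r + (m - 1) * (j + 1)) (show 0 < m by omega)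
    omega
  · have h1 : j + 1 + (r + (m - 1) * (j + 1)) % m ≡ j + 1 + (r + (m - 1) * (j + 1)) [MOD m] :=
      Nat.ModEq.add_left _ (Nat.mod_modEq _ _)
    refine h1.trans ?_
    have h2 : j + 1 + (r + (m - 1) * (j + 1)) = r + m * (j + 1) := by
      obtain ⟨m', rfl⟩ : ∃ m', m = m' + 1 := ⟨m - 1, by omega⟩
      simp only [Nat.add_sub_cancel]
      ring
    rw [h2]
    exact (Nat.modEq_iff_dvd' (by omega)).2 ⟨j + 1, by omega⟩ |>.symm

/-- Among consecutive primes in a short window one index lies in a given class. -/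
lemma exists_index {k D x m r : ℕ} (hm : 1 ≤ m) (hD : 1 ≤ D)
    (hx : ∀ s, s ≤ (k - 1) * D → ¬ D ∣ s → ¬ (x + s).Prime)
    (hcount : m ≤ npr (fun i : Fin k => (i:ℕ) * D) x) :
    ∃ n, 1 ≤ n ∧ n ≡ r [MOD m] ∧ ∃ i, i < k ∧ pr n = x + i * D := by
  classical
  set j0 := Nat.count Nat.Prime x with hj0
  set j1 := Nat.count Nat.Prime (x + (k - 1) * D + 1) with hj1
  have hcnt : m ≤ j1 - j0 := by
    refine hcount.trans ?_
    have h1 : j1 = j0 + Nat.count (fun s => (x + s).Prime) ((k - 1) * D + 1) := by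
      rw [hj1, hj0, add_assoc]
      exact Nat.count_add _ _ _
    rw [h1, Nat.add_sub_cancel_left, Nat.count_eq_card_filter_range]
    unfold npr
    refine card_le_card_of_injOn (fun i : Fin k => (i:ℕ) * D) ?_ ?_
    · intro i hi
      rw [mem_coe, mem_filter] at hi
      rw [mem_coe, mem_filter, mem_range]
      refine ⟨?_, hi.2⟩
      have h2 : (i:ℕ) ≤ k - 1 := by have := i.2; omega
      have := Nat.mul_le_mul_right D h2
      change (i:ℕ) * D < (k - 1) * D + 1
      omega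
    · intro i _ j _ hij
      simp only at hij
      exact Fin.ext (Nat.eq_of_mul_eq_mul_right (by omega) hij)
  obtain ⟨n, hn1, hn2, hn3⟩ := exists_modEq_in_window m r j0 hm
  refine ⟨n, by omega, hn3, ?_⟩
  have h1 : x ≤ pr n := by
    unfold pr
    rw [hj0] at hn1
    have h2 : Nat.count Nat.Prime x ≤ n - 1 := by omega
    by_contra hlt
    push Not at hlt
    have h3 := Nat.count_strict_mono (p := Nat.Prime) (Nat.prime_nth_prime (n - 1)) hlt
    rw [Nat.count_nth_of_infinite Nat.infinite_setOfPred_prime] at h3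
    omega
  have h2 : pr n < x + (k - 1) * D + 1 := by
    unfold pr
    exact Nat.nth_lt_of_lt_count (by omega)
  have hp : (pr n).Prime := pr_prime n
  obtain ⟨s, hs⟩ : ∃ s, pr n = x + s := ⟨pr n - x, by omega⟩
  have hDs : D ∣ s := by
    by_contra hcon
    exact hx s (by omega) hcon (hs ▸ hp)
  obtain ⟨i, rfl⟩ := hDs
  have hk : i * D ≤ (k - 1) * D := by rw [mul_comm i D]; omega
  have hk2 : i ≤ k - 1 := Nat.le_of_mul_le_mul_right hk (by omega)
  have hkpos : 0 < k := by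
    rcases Nat.eq_zero_or_pos k with h | h
    · exfalso
      subst h
      unfold npr at hcount
      simp at hcount
      omega
    · exact h
  exact ⟨i, by omega, by rw [hs, mul_comm]⟩

/-- Killing primes. -/
lemma exists_v {D c1 : ℕ} (T : Finset ℕ) (ℓ : ℕ → ℕ) (hℓ : ∀ t ∈ T, (ℓ t).Prime)
    (hinj : Set.InjOn ℓ T) (hD : ∀ t ∈ T, ¬ ℓ t ∣ D) :
    ∃ v, v ≡ c1 [MOD D] ∧ ∀ t ∈ T, ℓ t ∣ v + t := by
  classical
  induction T using Finset.induction_on with
  | empty => exact ⟨c1, rfl, by simp⟩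
  | insert t T ht ih =>
    obtain ⟨v0, h1, h2⟩ := ih (fun s hs => hℓ s (mem_insert_of_mem hs))
      (hinj.mono (by simp)) (fun s hs => hD s (mem_insert_of_mem hs))
    have hpt := hℓ t (mem_insert_self _ _)
    have hco : (D * ∏ s ∈ T, ℓ s).Coprime (ℓ t) := by
      refine Nat.Coprime.mul_left ?_ ?_
      · rw [Nat.coprime_comm, hpt.coprime_iff_not_dvd]
        exact hD t (mem_insert_self _ _)
      · refine Nat.Coprime.prod_left fun s hs => ?_
        rw [Nat.coprime_primes (hℓ s (mem_insert_of_mem hs)) hpt]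
        intro h
        have := hinj (by simp [hs]) (by simp) h
        rw [this] at hs
        exact ht hs
    obtain ⟨v, hv1, hv2⟩ := Nat.chineseRemainder hco v0 ((ℓ t - 1) * t)
    refine ⟨v, ?_, ?_⟩
    · exact (hv1.of_dvd (dvd_mul_right _ _)).trans h1
    · intro s hs
      rw [mem_insert] at hs
      rcases hs with rfl | hs
      · have h3 : v + s ≡ (ℓ s - 1) * s + s [MOD ℓ s] := hv2.add_right _
        have h4 : (ℓ s - 1) * s + s = ℓ s * s := by
          obtain ⟨a, ha⟩ : ∃ a, ℓ s = a + 1 := ⟨ℓ s - 1, by have := hpt.pos; omega⟩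
          rw [ha]; simp only [Nat.add_sub_cancel]; ring
        rw [h4] at h3
        exact (Nat.ModEq.dvd_iff h3 dvd_rfl).2 (dvd_mul_right _ _)
      · have h3 : v + s ≡ v0 + s [MOD ℓ s] := by
          refine (hv1.of_dvd ?_).add_right _
          exact (dvd_prod_of_mem _ hs).mul_left _
        exact (Nat.ModEq.dvd_iff h3 dvd_rfl).2 (h2 s hs)

/-- Push-forward of a double sum. -/
lemma push_double {X I : Finset ℕ} {μ : ℕ → ℝ} (hμ : ∀ x, 0 ≤ μ x) (idx : ℕ → ℕ)
    {F : ℕ → ℕ → ℝ} (hF : ∀ m n, 0 ≤ F m n) :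
    ∑ m ∈ I, ∑ n ∈ I, (∑ x ∈ X, if idx x = m then μ x else 0) *
      (∑ x ∈ X, if idx x = n then μ x else 0) * F m n ≤
      ∑ x ∈ X, ∑ x' ∈ X, μ x * μ x' * F (idx x) (idx x') := by
  classical
  have h1 : ∀ m ∈ I, ∀ n ∈ I, (∑ x ∈ X, if idx x = m then μ x else 0) *
      (∑ x ∈ X, if idx x = n then μ x else 0) * F m n =
      ∑ x ∈ X, ∑ x' ∈ X, (if idx x = m then (if idx x' = n then
        μ x * μ x' * F (idx x) (idx x') else 0) else 0) := by
    intro m _ n _
    rw [sum_mul_sum, sum_mul]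
    refine sum_congr rfl fun x _ => ?_
    rw [sum_mul]
    refine sum_congr rfl fun x' _ => ?_
    split_ifs with h1 h2 h2
    · rw [h1, h2]
    · ring
    · ring
    · ring
  rw [sum_congr rfl fun m hm => sum_congr rfl fun n hn => h1 m hm n hn]
  have h2 : ∑ m ∈ I, ∑ n ∈ I, ∑ x ∈ X, ∑ x' ∈ X, (if idx x = m then (if idx x' = n then
        μ x * μ x' * F (idx x) (idx x') else 0) else 0) =
      ∑ x ∈ X, ∑ x' ∈ X, ∑ m ∈ I, ∑ n ∈ I, (if idx x = m then (if idx x' = n then
        μ x * μ x' * F (idx x) (idx x') else 0) else 0) := by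
    calc _ = ∑ m ∈ I, ∑ x ∈ X, ∑ n ∈ I, ∑ x' ∈ X, (if idx x = m then (if idx x' = n then
        μ x * μ x' * F (idx x) (idx x') else 0) else 0) :=
          sum_congr rfl fun m _ => sum_comm
      _ = ∑ x ∈ X, ∑ m ∈ I, ∑ n ∈ I, ∑ x' ∈ X, (if idx x = m then (if idx x' = n then
        μ x * μ x' * F (idx x) (idx x') else 0) else 0) := sum_comm
      _ = ∑ x ∈ X, ∑ m ∈ I, ∑ x' ∈ X, ∑ n ∈ I, (if idx x = m then (if idx x' = n then
        μ x * μ x' * F (idx x) (idx x') else 0) else 0) :=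
          sum_congr rfl fun x _ => sum_congr rfl fun m _ => sum_comm
      _ = _ := sum_congr rfl fun x _ => sum_comm
  rw [h2]
  refine sum_le_sum fun x _ => sum_le_sum fun x' _ => ?_
  have h0 : 0 ≤ μ x * μ x' * F (idx x) (idx x') :=
    mul_nonneg (mul_nonneg (hμ x) (hμ x')) (hF _ _)
  have h3 : ∀ m ∈ I, ∑ n ∈ I, (if idx x = m then (if idx x' = n then
        μ x * μ x' * F (idx x) (idx x') else 0) else 0) =
      if idx x = m then (if idx x' ∈ I then μ x * μ x' * F (idx x) (idx x') else 0) else 0 := by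
    intro m _
    split_ifs with h4 h5
    · rw [sum_ite_eq I (idx x'), if_pos h5]
    · rw [sum_ite_eq I (idx x'), if_neg h5]
    · simp
  rw [sum_congr rfl h3, sum_ite_eq I (idx x)]
  split_ifs
  · exact le_rfl
  · exact h0
  · exact h0

/-- The average of the factor at large primes. -/
lemma pair_bound {X : Finset ℕ} {u u' : ℕ → ℝ} (hu : ∀ x, 0 ≤ u x) (hu' : ∀ x, 0 ≤ u' x)
    (hu1 : ∑ x ∈ X, u x = 1) (hu1' : ∑ x ∈ X, u' x = 1) {idx : ℕ → ℕ} {W K1 k N D : ℕ}
    (hW2 : 2 ∣ W) (hidx : ∀ x ∈ X, u x ≠ 0 → (1 ≤ idx x ∧ pr (idx x) ≤ 3 * N) ∧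
      ∃ i, i < k ∧ pr (idx x) = x + i * D)
    (hidx' : ∀ x ∈ X, u' x ≠ 0 → 1 ≤ idx x ∧ pr (idx x) ≤ 3 * N)
    {Y δ : ℝ} (hY : 1 ≤ Y)
    (happ : ∀ q : ℕ, 0 < q → (q:ℝ) ≤ Y → W.Coprime q → ∀ c : ℕ,
      ∑ x ∈ X.filter (fun x => x ≡ c [MOD q]), u x ≤
        ((k:ℝ) + 1) ^ (2 * q.primeFactors.card + 1) / q)
    (hK1 : ∀ l, l.Prime → l ≤ K1 → l ∣ W) (hk : (k + 1) ^ 2 ≤ K1)
    (hδ : 2 * k * ((k:ℝ) + 1) ^ 3 / K1 ≤ δ)
    (htail : ∀ d : ℕ, 1 ≤ d → d ≤ 3 * N → 2 ^ d.primeFactors.card / Real.sqrt Y ≤ δ) :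
    ∑ x ∈ X, ∑ x' ∈ X, u x * u' x' * (if idx x = idx x' then 0 else
      ∏ l ∈ (dd (pr (idx x)) (pr (idx x'))).primeFactors.filter (fun l => ¬ l ∣ W),
        ((l:ℝ) / ((l:ℝ) - 1))) ≤ 1 + 2 * δ := by
  classical
  set Bq := (Icc 1 ⌊Y⌋₊).filter (fun q => Squarefree q ∧ W.Coprime q) with hBq
  have hδ0 : 0 ≤ δ := le_trans (by positivity) hδ
  -- pointwise
  have hpt : ∀ x ∈ X, ∀ x' ∈ X, u x * u' x' * (if idx x = idx x' then 0 else
      ∏ l ∈ (dd (pr (idx x)) (pr (idx x'))).primeFactors.filter (fun l => ¬ l ∣ W),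
        ((l:ℝ) / ((l:ℝ) - 1))) ≤ u x * u' x' * δ + ∑ q ∈ Bq, (1 / (q.totient : ℝ)) *
        (u' x' * (if pr (idx x) ≡ pr (idx x') [MOD q] then u x else 0)) := by
    intro x hx x' hx'
    have hrhs : 0 ≤ ∑ q ∈ Bq, (1 / (q.totient : ℝ)) *
        (u' x' * (if pr (idx x) ≡ pr (idx x') [MOD q] then u x else 0)) := by
      refine sum_nonneg fun q _ => mul_nonneg (by positivity) (mul_nonneg (hu' x') ?_)
      split_ifs
      · exact hu x
      · exact le_rfl
    have huu := mul_nonneg (hu x) (hu' x')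
    by_cases h0 : u x = 0
    · rw [h0, zero_mul, zero_mul, zero_mul, zero_add]
      rw [h0] at hrhs
      exact hrhs
    by_cases h0' : u' x' = 0
    · rw [h0', mul_zero, zero_mul, zero_mul, zero_add]
      rw [h0'] at hrhs
      exact hrhs
    split_ifs with heq
    · rw [mul_zero]
      have := mul_nonneg huu hδ0
      linarith
    · obtain ⟨⟨h1, h2⟩, -⟩ := hidx x hx h0
      obtain ⟨h1', h2'⟩ := hidx' x' hx' h0'
      have hne : pr (idx x) ≠ pr (idx x') := by
        rcases lt_or_gt_of_ne heq with h | h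
        · exact (pr_lt h1 h).ne
        · exact (pr_lt h1' h).ne'
      have hd1 := dd_pos hne
      have hd2 := dd_le h2 h2'
      have h3 := large_factor_le (d := dd (pr (idx x)) (pr (idx x'))) hW2 (lt_of_lt_of_le one_pos hY)
      have h4 := htail _ hd1 hd2
      have h5 : ∑ q ∈ (Icc 1 ⌊Y⌋₊).filter (fun q => (Squarefree q ∧ W.Coprime q) ∧
          q ∣ dd (pr (idx x)) (pr (idx x'))), 1 / (q.totient : ℝ) =
          ∑ q ∈ Bq, (1 / (q.totient : ℝ)) * (if pr (idx x) ≡ pr (idx x') [MOD q] then 1 else 0) := by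
        rw [hBq, ← filter_filter, sum_filter]
        refine sum_congr rfl fun q _ => ?_
        by_cases h : pr (idx x) ≡ pr (idx x') [MOD q]
        · rw [if_pos h, if_pos (dvd_dd.2 h), mul_one]
        · rw [if_neg h, if_neg (fun h' => h (dvd_dd.1 h')), mul_zero]
      rw [h5] at h3
      have h6 := mul_le_mul_of_nonneg_left (h3.trans (add_le_add le_rfl h4)) huu
      refine h6.trans (le_of_eq ?_)
      rw [mul_add, add_comm, mul_sum]
      congr 1
      refine sum_congr rfl fun q _ => ?_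
      split_ifs <;> ring
  refine (sum_le_sum fun x hx => sum_le_sum fun x' hx' => hpt x hx x' hx').trans ?_
  have hsplit : ∑ x ∈ X, ∑ x' ∈ X, (u x * u' x' * δ + ∑ q ∈ Bq, (1 / (q.totient : ℝ)) *
        (u' x' * (if pr (idx x) ≡ pr (idx x') [MOD q] then u x else 0))) =
      δ + ∑ q ∈ Bq, (1 / (q.totient : ℝ)) * ∑ x' ∈ X, u' x' * ∑ x ∈ X,
        (if pr (idx x) ≡ pr (idx x') [MOD q] then u x else 0) := by
    simp_rw [sum_add_distrib]
    congr 1
    · have : ∑ x ∈ X, ∑ x' ∈ X, u x * u' x' * δ = (∑ x ∈ X, u x) * (∑ x' ∈ X, u' x') * δ := by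
        rw [sum_mul_sum, sum_mul]
        exact sum_congr rfl fun x _ => by rw [sum_mul]
      rw [this, hu1, hu1']; ring
    · calc ∑ x ∈ X, ∑ x' ∈ X, ∑ q ∈ Bq, (1 / (q.totient : ℝ)) *
          (u' x' * (if pr (idx x) ≡ pr (idx x') [MOD q] then u x else 0)) =
          ∑ x ∈ X, ∑ q ∈ Bq, ∑ x' ∈ X, (1 / (q.totient : ℝ)) *
          (u' x' * (if pr (idx x) ≡ pr (idx x') [MOD q] then u x else 0)) :=
            sum_congr rfl fun x _ => sum_comm
        _ = ∑ q ∈ Bq, ∑ x ∈ X, ∑ x' ∈ X, (1 / (q.totient : ℝ)) *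
          (u' x' * (if pr (idx x) ≡ pr (idx x') [MOD q] then u x else 0)) := sum_comm
        _ = ∑ q ∈ Bq, ∑ x' ∈ X, ∑ x ∈ X, (1 / (q.totient : ℝ)) *
          (u' x' * (if pr (idx x) ≡ pr (idx x') [MOD q] then u x else 0)) :=
            sum_congr rfl fun q _ => sum_comm
        _ = _ := by
            refine sum_congr rfl fun q _ => ?_
            rw [mul_sum]
            refine sum_congr rfl fun x' _ => ?_
            rw [mul_sum, mul_sum]
  rw [hsplit]
  -- the inner sums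
  have hone : ∀ q, ∀ x', ∑ x ∈ X, (if pr (idx x) ≡ pr (idx x') [MOD q] then u x else 0) ≤ 1 := by
    intro q x'
    rw [← hu1]
    refine sum_le_sum fun x _ => ?_
    split_ifs
    · exact le_rfl
    · exact hu x
  have hin : ∀ q ∈ Bq, 2 ≤ q → ∀ x' ∈ X,
      ∑ x ∈ X, (if pr (idx x) ≡ pr (idx x') [MOD q] then u x else 0) ≤
      k * (((k:ℝ) + 1) ^ (2 * q.primeFactors.card + 1) / q) := by
    intro q hq hq2 x' _
    rw [hBq, mem_filter, mem_Icc] at hq
    have hqY : (q:ℝ) ≤ Y := le_trans (by exact_mod_cast hq.1.2) (Nat.floor_le (by linarith))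
    have h1 : ∀ x ∈ X, (if pr (idx x) ≡ pr (idx x') [MOD q] then u x else 0) ≤
        ∑ i ∈ range k, (if x ≡ pr (idx x') + (q - 1) * (i * D) [MOD q] then u x else 0) := by
      intro x hx
      have hnn : ∀ i ∈ range k, 0 ≤
          (if x ≡ pr (idx x') + (q - 1) * (i * D) [MOD q] then u x else 0) := by
        intro i _
        split_ifs
        · exact hu x
        · exact le_rfl
      by_cases h0 : u x = 0
      · rw [h0]
        simp
      · split_ifs with hmod
        · obtain ⟨-, i, hi, hpi⟩ := hidx x hx h0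
          have h2 : x ≡ pr (idx x') + (q - 1) * (i * D) [MOD q] := by
            have h3 : x + i * D + (q - 1) * (i * D) ≡ pr (idx x') + (q - 1) * (i * D) [MOD q] := by
              rw [← hpi]
              exact hmod.add_right _
            have h4 : x + i * D + (q - 1) * (i * D) = x + q * (i * D) := by
              obtain ⟨q', rfl⟩ : ∃ q', q = q' + 1 := ⟨q - 1, by omega⟩
              simp only [Nat.add_sub_cancel]
              ring
            rw [h4] at h3
            refine Nat.ModEq.trans ?_ h3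
            exact (Nat.modEq_iff_dvd' (by omega)).2 ⟨i * D, by omega⟩
          calc u x = (if x ≡ pr (idx x') + (q - 1) * (i * D) [MOD q] then u x else 0) := by
                rw [if_pos h2]
            _ ≤ _ := single_le_sum hnn (mem_range.2 hi)
        · exact sum_nonneg hnn
    refine (sum_le_sum h1).trans ?_
    rw [sum_comm]
    calc ∑ i ∈ range k, ∑ x ∈ X, (if x ≡ pr (idx x') + (q - 1) * (i * D) [MOD q] then u x else 0) ≤
          ∑ _i ∈ range k, (((k:ℝ) + 1) ^ (2 * q.primeFactors.card + 1) / q) := by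
          refine sum_le_sum fun i _ => ?_
          rw [← sum_filter]
          exact happ q (by omega) hqY hq.2.2 _
      _ = _ := by rw [sum_const, card_range, nsmul_eq_mul]
  have hBsplit : ∑ q ∈ Bq, (1 / (q.totient : ℝ)) * ∑ x' ∈ X, u' x' * ∑ x ∈ X,
        (if pr (idx x) ≡ pr (idx x') [MOD q] then u x else 0) ≤
      1 + ∑ q ∈ (Icc 2 ⌊Y⌋₊).filter (fun q => Squarefree q ∧ W.Coprime q),
        (1 / (q.totient : ℝ)) * (k * (((k:ℝ) + 1) ^ (2 * q.primeFactors.card + 1) / q)) := by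
    have hB2 : Bq ⊆ insert 1 ((Icc 2 ⌊Y⌋₊).filter (fun q => Squarefree q ∧ W.Coprime q)) := by
      intro q hq
      rw [hBq, mem_filter, mem_Icc] at hq
      rw [mem_insert, mem_filter, mem_Icc]
      by_cases h : q = 1
      · exact Or.inl h
      · exact Or.inr ⟨⟨by omega, hq.1.2⟩, hq.2⟩
    have hnn : ∀ q, 0 ≤ (1 / (q.totient : ℝ)) * ∑ x' ∈ X, u' x' * ∑ x ∈ X,
        (if pr (idx x) ≡ pr (idx x') [MOD q] then u x else 0) := by
      intro q
      refine mul_nonneg (by positivity) (sum_nonneg fun x' _ => mul_nonneg (hu' x')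
        (sum_nonneg fun x _ => ?_))
      split_ifs
      · exact hu x
      · exact le_rfl
    refine (sum_le_sum_of_subset_of_nonneg hB2 fun q _ _ => hnn q).trans ?_
    rw [sum_insert (by simp)]
    refine add_le_add ?_ ?_
    · rw [Nat.totient_one, Nat.cast_one, div_one, one_mul, ← hu1']
      refine sum_le_sum fun x' _ => ?_
      have := mul_le_mul_of_nonneg_left (hone 1 x') (hu' x')
      linarith
    · refine sum_le_sum fun q hq => ?_
      rw [mem_filter, mem_Icc] at hq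
      refine mul_le_mul_of_nonneg_left ?_ (by positivity)
      have hqB : q ∈ Bq := by
        rw [hBq, mem_filter, mem_Icc]
        exact ⟨⟨by omega, hq.1.2⟩, hq.2⟩
      calc ∑ x' ∈ X, u' x' * ∑ x ∈ X, (if pr (idx x) ≡ pr (idx x') [MOD q] then u x else 0) ≤
            ∑ x' ∈ X, u' x' * (k * (((k:ℝ) + 1) ^ (2 * q.primeFactors.card + 1) / q)) :=
            sum_le_sum fun x' hx' => mul_le_mul_of_nonneg_left (hin q hqB hq.1.1 x' hx') (hu' x')
        _ = _ := by rw [← sum_mul, hu1', one_mul]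
  have hls := large_sum_le hK1 hk ⌊Y⌋₊
  linarith

end Pool.Agent.PnMaynard
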