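import Pool.Agent.PnMaynard.Second
import Pool.Agent.Lib.ANT.DivBound

/-!
# Euler factor expansions: correlation of residues, large prime factors
-/

open Finset

namespace Pool.Agent.PnMaynard

lemma ratio_eq {l : ℕ} (hl : l.Prime) : (l:ℝ) / ((l:ℝ) - 1) = 1 + 1 / ((l:ℝ) - 1) := by
  have h2 : (2:ℝ) ≤ l := by exact_mod_cast hl.two_le
  have : (l:ℝ) - 1 ≠ 0 := by linarith
  field_simp
  ring

lemma prod_mono_set {s t : Finset ℕ} (h : s ⊆ t) {f : ℕ → ℝ} (hf : ∀ i ∈ t, 1 ≤ f i) :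
    ∏ i ∈ s, f i ≤ ∏ i ∈ t, f i := by
  classical
  rw [← prod_sdiff h]
  have h1 : 1 ≤ ∏ i ∈ t \ s, f i := by
    calc (1:ℝ) = ∏ _i ∈ t \ s, (1:ℝ) := by simp
      _ ≤ _ := prod_le_prod (fun _ _ => zero_le_one) fun i hi => hf i (mem_sdiff.1 hi).1
  have h2 : 0 ≤ ∏ i ∈ s, f i := prod_nonneg fun i hi => by linarith [hf i (h hi)]
  nlinarith

lemma one_le_prod_ratio {s : Finset ℕ} (hs : ∀ l ∈ s, l.Prime) :
    1 ≤ ∏ l ∈ s, ((l:ℝ) / ((l:ℝ) - 1)) := by
  calc (1:ℝ) = ∏ _i ∈ s, (1:ℝ) := by simp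
    _ ≤ _ := prod_le_prod (fun _ _ => zero_le_one) fun i hi => ratio_ge_one (hs i hi)

/-- expansion over subsets -/
lemma prod_ratio_eq_sum (s : Finset ℕ) (hs : ∀ l ∈ s, l.Prime) :
    ∏ l ∈ s, ((l:ℝ) / ((l:ℝ) - 1)) = ∑ A ∈ s.powerset, ∏ l ∈ A, (1 / ((l:ℝ) - 1)) := by
  rw [prod_congr rfl fun l hl => ratio_eq (hs l hl)]
  rw [prod_one_add]

lemma totient_prod {s : Finset ℕ} (hs : ∀ l ∈ s, l.Prime) :
    (∏ l ∈ s, l).totient = ∏ l ∈ s, (l - 1) := by
  classical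
  induction s using Finset.induction_on with
  | empty => simp
  | insert p s hp ih =>
    rw [prod_insert hp, prod_insert hp, Nat.totient_mul, ih fun l hl => hs l (mem_insert_of_mem hl),
      Nat.totient_prime (hs p (mem_insert_self _ _))]
    rw [Nat.coprime_comm]
    refine Nat.Coprime.prod_left fun l hl => ?_
    rw [Nat.coprime_primes (hs l (mem_insert_of_mem hl)) (hs p (mem_insert_self _ _))]
    rintro rfl
    exact hp hl

lemma totient_prod_real {s : Finset ℕ} (hs : ∀ l ∈ s, l.Prime) :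
    ((∏ l ∈ s, l).totient : ℝ) = ∏ l ∈ s, ((l:ℝ) - 1) := by
  rw [totient_prod hs]
  push_cast
  refine prod_congr rfl fun l hl => ?_
  rw [Nat.cast_sub (hs l hl).one_lt.le]
  simp

/-- number of units with prescribed residues -/
lemma card_unit_class {S A : Finset ℕ} (hS : ∀ l ∈ S, l.Prime) (hA : A ⊆ S) (c : ℕ) :
    ((((range (∏ l ∈ S, l)).filter (fun c' => c'.Coprime (∏ l ∈ S, l))).filter
      (fun c' => ∀ l ∈ A, c ≡ c' [MOD l])).card) ≤ (∏ l ∈ S \ A, l).totient := by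
  classical
  set R := ∏ l ∈ S \ A, l with hR
  have hR0 : 0 < R := prod_pos fun l hl => (hS l (mem_sdiff.1 hl).1).pos
  have htot : R.totient = ((range R).filter (fun c' => R.Coprime c')).card := by
    rw [Nat.totient_eq_card_coprime]
  rw [htot]
  refine card_le_card_of_injOn (fun c' => c' % R) ?_ ?_
  · intro x hx
    rw [mem_coe, mem_filter, mem_filter, mem_range] at hx
    rw [mem_coe, mem_filter, mem_range]
    refine ⟨Nat.mod_lt _ hR0, ?_⟩
    rw [Nat.coprime_comm]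
    have h1 : x.Coprime R := by
      refine Nat.Coprime.coprime_dvd_right ?_ hx.1.2
      rw [hR]
      exact prod_dvd_prod_of_subset _ _ _ sdiff_subset
    exact (Nat.ModEq.gcd_eq (Nat.mod_modEq x R)).trans h1
  · intro x hx y hy hxy
    rw [mem_coe, mem_filter, mem_filter, mem_range] at hx hy
    simp only at hxy
    have h1 : ∀ l ∈ S, x ≡ y [MOD l] := by
      intro l hl
      by_cases hlA : l ∈ A
      · exact (hx.2 l hlA).symm.trans (hy.2 l hlA)
      · have h2 : l ∣ R := dvd_prod_of_mem _ (mem_sdiff.2 ⟨hl, hlA⟩)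
        exact Nat.ModEq.of_dvd h2 hxy
    have h2 : ∀ x y : ℕ, x < ∏ l ∈ S, l → y < ∏ l ∈ S, l → (∀ l ∈ S, x ≡ y [MOD l]) → x ≤ y →
        x = y := by
      intro x y hx hy h hle
      have h3 : (∏ l ∈ S, l) ∣ y - x := by
        refine Finset.prod_primes_dvd _ (fun l hl => (hS l hl).prime) fun l hl => ?_
        exact (Nat.modEq_iff_dvd' hle).1 (h l hl)
      have h4 := Nat.eq_zero_of_dvd_of_lt h3 (by omega)
      omega
    rcases le_total x y with h | h
    · exact h2 x y hx.1.1 hy.1.1 h1 h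
    · exact (h2 y x hy.1.1 hx.1.1 (fun l hl => (h1 l hl).symm) h).symm

/-- Correlation of two uniformly distributed units. -/
lemma unit_correlation {S : Finset ℕ} (hS : ∀ l ∈ S, l.Prime) :
    ∑ c ∈ (range (∏ l ∈ S, l)).filter (fun c' => c'.Coprime (∏ l ∈ S, l)),
      ∑ c' ∈ (range (∏ l ∈ S, l)).filter (fun c' => c'.Coprime (∏ l ∈ S, l)),
        ∏ l ∈ S.filter (fun l => c ≡ c' [MOD l]), ((l:ℝ) / ((l:ℝ) - 1)) ≤
      ((∏ l ∈ S, l).totient : ℝ) ^ 2 * ∏ l ∈ S, (1 + (1 / ((l:ℝ) - 1)) ^ 2) := by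
  classical
  set Dp := ∏ l ∈ S, l with hDp
  set U := (range Dp).filter (fun c' => c'.Coprime Dp) with hU
  have hcardU : U.card = Dp.totient := by
    rw [Nat.totient_eq_card_coprime, hU]
    congr 1
    refine filter_congr fun x _ => ?_
    rw [Nat.coprime_comm]
  have hf0 : ∀ A ⊆ S, 0 ≤ ∏ l ∈ A, (1 / ((l:ℝ) - 1)) := fun A hA => prod_nonneg fun l hl => by
    have h2 : (2:ℝ) ≤ l := by exact_mod_cast (hS l (hA hl)).two_le
    have : 0 < (l:ℝ) - 1 := by linarith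
    positivity
  have h1 : ∀ c ∈ U, ∑ c' ∈ U, ∏ l ∈ S.filter (fun l => c ≡ c' [MOD l]), ((l:ℝ) / ((l:ℝ) - 1)) ≤
      (Dp.totient : ℝ) * ∏ l ∈ S, (1 + (1 / ((l:ℝ) - 1)) ^ 2) := by
    intro c hc
    have h2 : ∀ c' ∈ U, ∏ l ∈ S.filter (fun l => c ≡ c' [MOD l]), ((l:ℝ) / ((l:ℝ) - 1)) =
        ∑ A ∈ S.powerset, if ∀ l ∈ A, c ≡ c' [MOD l] then ∏ l ∈ A, (1 / ((l:ℝ) - 1)) else 0 := by
      intro c' _
      rw [prod_ratio_eq_sum _ fun l hl => hS l (mem_filter.1 hl).1, ← sum_filter]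
      refine sum_congr ?_ fun _ _ => rfl
      ext A
      simp only [mem_powerset, mem_filter, subset_iff]
      constructor
      · intro h
        exact ⟨fun l hl => (h hl).1, fun l hl => (h hl).2⟩
      · rintro ⟨h1, h2⟩ l hl
        exact ⟨h1 hl, h2 l hl⟩
    rw [sum_congr rfl h2, sum_comm]
    have h3 : ∀ A ∈ S.powerset,
        ∑ c' ∈ U, (if ∀ l ∈ A, c ≡ c' [MOD l] then ∏ l ∈ A, (1 / ((l:ℝ) - 1)) else 0) ≤
        (Dp.totient : ℝ) * ∏ l ∈ A, (1 / ((l:ℝ) - 1)) ^ 2 := by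
      intro A hA
      rw [mem_powerset] at hA
      rw [← sum_filter, sum_const, nsmul_eq_mul]
      have h4 := card_unit_class hS hA c
      have h5 : ((U.filter (fun c' => ∀ l ∈ A, c ≡ c' [MOD l])).card : ℝ) ≤
          ((∏ l ∈ S \ A, l).totient : ℝ) := by exact_mod_cast h4
      have h6 : (Dp.totient : ℝ) = (∏ l ∈ A, ((l:ℝ) - 1)) * ((∏ l ∈ S \ A, l).totient : ℝ) := by
        rw [hDp, totient_prod_real hS, totient_prod_real fun l hl => hS l (mem_sdiff.1 hl).1,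
          mul_comm, prod_sdiff hA]
      refine (mul_le_mul_of_nonneg_right h5 (hf0 A hA)).trans (le_of_eq ?_)
      rw [h6, prod_pow]
      have h7 : (∏ l ∈ A, ((l:ℝ) - 1)) * ∏ l ∈ A, (1 / ((l:ℝ) - 1)) = 1 := by
        rw [← prod_mul_distrib]
        refine prod_eq_one fun l hl => ?_
        have h2 : (2:ℝ) ≤ l := by exact_mod_cast (hS l (hA hl)).two_le
        have : (l:ℝ) - 1 ≠ 0 := by linarith
        field_simp
      calc ((∏ l ∈ S \ A, l).totient : ℝ) * ∏ l ∈ A, (1 / ((l:ℝ) - 1)) =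
            ((∏ l ∈ A, ((l:ℝ) - 1)) * ∏ l ∈ A, (1 / ((l:ℝ) - 1))) *
            (((∏ l ∈ S \ A, l).totient : ℝ) * ∏ l ∈ A, (1 / ((l:ℝ) - 1))) := by rw [h7, one_mul]
        _ = _ := by ring
    refine (sum_le_sum h3).trans (le_of_eq ?_)
    rw [← mul_sum, prod_one_add]
  calc _ ≤ ∑ _c ∈ U, (Dp.totient : ℝ) * ∏ l ∈ S, (1 + (1 / ((l:ℝ) - 1)) ^ 2) := sum_le_sum h1
    _ = _ := by rw [sum_const, nsmul_eq_mul, hcardU]; ring

/-- The product over large primes. -/
lemma prod_sq_le_exp {S : Finset ℕ} {z : ℕ} (hz : 2 ≤ z) (hS : ∀ l ∈ S, z < l) :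
    ∏ l ∈ S, (1 + (1 / ((l:ℝ) - 1)) ^ 2) ≤ Real.exp (1 / ((z:ℝ) - 1)) := by
  classical
  have hz' : (2:ℝ) ≤ z := by exact_mod_cast hz
  have h1 : ∏ l ∈ S, (1 + (1 / ((l:ℝ) - 1)) ^ 2) ≤ Real.exp (∑ l ∈ S, (1 / ((l:ℝ) - 1)) ^ 2) := by
    rw [Real.exp_sum]
    refine prod_le_prod (fun l _ => by positivity) fun l _ => ?_
    rw [add_comm]
    exact Real.add_one_le_exp _
  refine h1.trans (Real.exp_le_exp.2 ?_)
  set M := S.sup id + z + 1 with hM
  have hsub : S ⊆ Ioc z M := by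
    intro l hl
    rw [mem_Ioc]
    have : l ≤ S.sup id := le_sup (f := id) hl
    exact ⟨hS l hl, by omega⟩
  have h2 : ∀ n : ℕ, z ≤ n → ∑ l ∈ Ioc z n, (1 / ((l:ℝ) - 1)) ^ 2 ≤
      1 / ((z:ℝ) - 1) - 1 / ((n:ℝ) - 1) := by
    intro n hn
    induction n, hn using Nat.le_induction with
    | base => simp
    | succ n hn ih =>
      rw [sum_Ioc_succ_top (by omega)]
      have hn' : (z:ℝ) ≤ n := by exact_mod_cast hn
      have h3 : (1 / (((n + 1 : ℕ) : ℝ) - 1)) ^ 2 ≤ 1 / ((n:ℝ) - 1) - 1 / (((n + 1 : ℕ) : ℝ) - 1) := by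
        push_cast
        have e1 : (0:ℝ) < (n:ℝ) - 1 := by linarith
        have e2 : (0:ℝ) < n := by linarith
        rw [add_sub_cancel_right, div_sub_div _ _ e1.ne' e2.ne', div_pow, div_le_div_iff₀ (by positivity)
          (by positivity)]
        nlinarith
      linarith
  have h3 : z ≤ M := by omega
  have h4 := h2 M h3
  have h5 : 0 ≤ 1 / ((M:ℝ) - 1) := by
    have : (z:ℝ) ≤ M := by exact_mod_cast h3
    exact div_nonneg zero_le_one (by linarith)
  have h6 : ∑ l ∈ S, (1 / ((l:ℝ) - 1)) ^ 2 ≤ ∑ l ∈ Ioc z M, (1 / ((l:ℝ) - 1)) ^ 2 :=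
    sum_le_sum_of_subset_of_nonneg hsub fun _ _ _ => sq_nonneg _
  linarith

lemma sqrt_le_prod_sub_one {A : Finset ℕ} (hA : ∀ l ∈ A, 3 ≤ l) :
    Real.sqrt ((∏ l ∈ A, l : ℕ) : ℝ) ≤ ∏ l ∈ A, ((l:ℝ) - 1) := by
  have h1 : ((∏ l ∈ A, l : ℕ) : ℝ) ≤ (∏ l ∈ A, ((l:ℝ) - 1)) ^ 2 := by
    rw [← prod_pow]
    push_cast
    refine prod_le_prod (fun l _ => Nat.cast_nonneg l) fun l hl => ?_
    have : (3:ℝ) ≤ l := by exact_mod_cast hA l hl
    nlinarith
  have h2 : 0 ≤ ∏ l ∈ A, ((l:ℝ) - 1) := prod_nonneg fun l hl => by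
    have : (3:ℝ) ≤ l := by exact_mod_cast hA l hl
    linarith
  calc Real.sqrt ((∏ l ∈ A, l : ℕ) : ℝ) ≤ Real.sqrt ((∏ l ∈ A, ((l:ℝ) - 1)) ^ 2) :=
        Real.sqrt_le_sqrt h1
    _ = _ := Real.sqrt_sq h2

/-- Truncated expansion of the factor at the primes not dividing `W`. -/
lemma large_factor_le {W d : ℕ} (hW2 : 2 ∣ W) {Y : ℝ} (hY : 0 < Y) :
    ∏ l ∈ d.primeFactors.filter (fun l => ¬ l ∣ W), ((l:ℝ) / ((l:ℝ) - 1)) ≤
      ∑ q ∈ (Icc 1 ⌊Y⌋₊).filter (fun q => (Squarefree q ∧ W.Coprime q) ∧ q ∣ d),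
        1 / (q.totient : ℝ) + 2 ^ d.primeFactors.card / Real.sqrt Y := by
  classical
  set s := d.primeFactors.filter (fun l => ¬ l ∣ W) with hs
  have hsp : ∀ l ∈ s, l.Prime := fun l hl => Nat.prime_of_mem_primeFactors (mem_filter.1 hl).1
  have hs3 : ∀ l ∈ s, 3 ≤ l := by
    intro l hl
    have h1 := (hsp l hl).two_le
    rcases Nat.lt_or_ge l 3 with h | h
    · exfalso
      have : l = 2 := by omega
      rw [this] at hl
      exact (mem_filter.1 hl).2 hW2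
    · exact h
  rw [prod_ratio_eq_sum s hsp, ← sum_filter_add_sum_filter_not s.powerset
    (fun A => ((∏ l ∈ A, l : ℕ) : ℝ) ≤ Y)]
  refine add_le_add ?_ ?_
  · have h1 : ∀ A ∈ s.powerset.filter (fun A => ((∏ l ∈ A, l : ℕ) : ℝ) ≤ Y),
        ∏ l ∈ A, (1 / ((l:ℝ) - 1)) = 1 / ((∏ l ∈ A, l).totient : ℝ) := by
      intro A hA
      rw [mem_filter, mem_powerset] at hA
      rw [totient_prod_real fun l hl => hsp l (hA.1 hl), one_div, ← prod_inv_distrib]
      exact prod_congr rfl fun l _ => by rw [one_div]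
    rw [sum_congr rfl h1]
    rw [← sum_image (s := s.powerset.filter (fun A => ((∏ l ∈ A, l : ℕ) : ℝ) ≤ Y))
      (g := fun A => ∏ l ∈ A, l) (f := fun q : ℕ => 1 / (q.totient : ℝ))]
    · refine sum_le_sum_of_subset_of_nonneg ?_ fun _ _ _ => by positivity
      intro q hq
      rw [mem_image] at hq
      obtain ⟨A, hA, rfl⟩ := hq
      rw [mem_filter, mem_powerset] at hA
      rw [mem_filter, mem_Icc]
      refine ⟨⟨Nat.one_le_iff_ne_zero.2 (prod_pos fun l hl => (hsp l (hA.1 hl)).pos).ne',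
        Nat.le_floor hA.2⟩, ⟨?_, ?_⟩, ?_⟩
      · rw [Nat.squarefree_iff_prime_squarefree]
        intro l hl hdvd
        have h2 : l ∣ ∏ l ∈ A, l := (Dvd.intro _ rfl).trans hdvd
        have hlA : l ∈ A := by
          obtain ⟨l', hl', h3⟩ := (hl.prime.dvd_finset_prod_iff _).1 h2
          rwa [(Nat.prime_dvd_prime_iff_eq hl (hsp l' (hA.1 hl'))).1 h3]
        rw [← mul_prod_erase A _ hlA] at hdvd
        have h4 : l ∣ ∏ x ∈ A.erase l, x := Nat.dvd_of_mul_dvd_mul_left hl.pos hdvd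
        obtain ⟨l', hl', h3⟩ := (hl.prime.dvd_finset_prod_iff _).1 h4
        rw [mem_erase] at hl'
        exact hl'.1 ((Nat.prime_dvd_prime_iff_eq hl (hsp l' (hA.1 hl'.2))).1 h3).symm
      · refine Nat.Coprime.prod_right fun l hl => ?_
        rw [Nat.coprime_comm, (hsp l (hA.1 hl)).coprime_iff_not_dvd]
        exact (mem_filter.1 (hA.1 hl)).2
      · refine (prod_dvd_prod_of_subset _ _ _ hA.1).trans ?_
        refine (prod_dvd_prod_of_subset _ _ _ (filter_subset _ _)).trans ?_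
        exact Nat.prod_primeFactors_dvd d
    · intro A hA B hB hAB
      rw [mem_coe, mem_filter, mem_powerset] at hA hB
      simp only at hAB
      have h2 := Nat.primeFactors_prod (s := A) fun l hl => hsp l (hA.1 hl)
      have h3 := Nat.primeFactors_prod (s := B) fun l hl => hsp l (hB.1 hl)
      rw [← h2, ← h3, hAB]
  · have h1 : ∀ A ∈ s.powerset.filter (fun A => ¬ ((∏ l ∈ A, l : ℕ) : ℝ) ≤ Y),
        ∏ l ∈ A, (1 / ((l:ℝ) - 1)) ≤ 1 / Real.sqrt Y := by
      intro A hA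
      rw [mem_filter, mem_powerset, not_le] at hA
      have h2 := sqrt_le_prod_sub_one fun l hl => hs3 l (hA.1 hl)
      have h3 : Real.sqrt Y ≤ ∏ l ∈ A, ((l:ℝ) - 1) := (Real.sqrt_le_sqrt hA.2.le).trans h2
      have h4 : ∏ l ∈ A, (1 / ((l:ℝ) - 1)) = 1 / ∏ l ∈ A, ((l:ℝ) - 1) := by
        rw [one_div, ← prod_inv_distrib]
        exact prod_congr rfl fun l _ => by rw [one_div]
      rw [h4]
      exact one_div_le_one_div_of_le (Real.sqrt_pos.2 hY) h3
    refine (sum_le_sum h1).trans ?_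
    rw [sum_const, nsmul_eq_mul, mul_one_div]
    refine div_le_div_of_nonneg_right ?_ (Real.sqrt_nonneg _)
    have h2 : (s.powerset.filter (fun A => ¬ ((∏ l ∈ A, l : ℕ) : ℝ) ≤ Y)).card ≤
        2 ^ d.primeFactors.card := by
      refine (card_filter_le _ _).trans ?_
      rw [card_powerset]
      exact Nat.pow_le_pow_right (by norm_num) (card_filter_le _ _)
    exact_mod_cast h2

/-- The sum over the large squarefree moduli. -/
lemma large_sum_le {W K1 : ℕ} (hK1 : ∀ l, l.Prime → l ≤ K1 → l ∣ W) {k : ℕ}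
    (hk : (k + 1) ^ 2 ≤ K1) (Q : ℕ) :
    ∑ q ∈ (Icc 2 Q).filter (fun q => Squarefree q ∧ W.Coprime q),
      (1 / (q.totient : ℝ)) * (k * (((k:ℝ) + 1) ^ (2 * q.primeFactors.card + 1) / q)) ≤
      2 * k * ((k:ℝ) + 1) ^ 3 / K1 := by
  classical
  have hK10 : 1 ≤ K1 := le_trans (Nat.one_le_pow _ _ (by omega)) hk
  have hK1r : (0:ℝ) < K1 := by exact_mod_cast hK10
  have hkr : ((k:ℝ) + 1) ^ 2 ≤ K1 := by exact_mod_cast hk
  set P := (Ioc K1 (K1 + Q)).filter Nat.Prime with hP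
  have hPp : ∀ l ∈ P, l.Prime := fun l hl => (mem_filter.1 hl).2
  set f : ℕ → ℝ := fun l => ((k:ℝ) + 1) ^ 2 / (l * ((l:ℝ) - 1)) with hf
  have hf0 : ∀ l ∈ P, 0 ≤ f l := by
    intro l hl
    have h2 : (2:ℝ) ≤ l := by exact_mod_cast (hPp l hl).two_le
    have : (0:ℝ) < (l:ℝ) - 1 := by linarith
    simp only [hf]
    positivity
  set B := (Icc 2 Q).filter (fun q => Squarefree q ∧ W.Coprime q) with hB
  have hterm : ∀ q ∈ B, (1 / (q.totient : ℝ)) *
      (k * (((k:ℝ) + 1) ^ (2 * q.primeFactors.card + 1) / q)) =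
      k * ((k:ℝ) + 1) * ∏ l ∈ q.primeFactors, f l := by
    intro q hq
    rw [hB, mem_filter, mem_Icc] at hq
    have h1 := Nat.prod_primeFactors_of_squarefree hq.2.1
    have h2 : (q.totient : ℝ) = ∏ l ∈ q.primeFactors, ((l:ℝ) - 1) := by
      conv_lhs => rw [← h1]
      exact totient_prod_real fun l hl => Nat.prime_of_mem_primeFactors hl
    have h3 : (q : ℝ) = ∏ l ∈ q.primeFactors, (l:ℝ) := by
      conv_lhs => rw [← h1]
      push_cast; rfl
    have h4 : ∏ l ∈ q.primeFactors, f l = (((k:ℝ) + 1) ^ 2) ^ q.primeFactors.card /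
        (q * (q.totient : ℝ)) := by
      simp only [hf]
      rw [prod_div_distrib, prod_const, prod_mul_distrib, ← h2, ← h3]
    have h5 : (0:ℝ) < q := by exact_mod_cast (by omega : 0 < q)
    have h6 : (0:ℝ) < q.totient := by exact_mod_cast Nat.totient_pos.2 (by omega)
    rw [h4, pow_succ, pow_mul]
    field_simp
  rw [sum_congr rfl hterm, ← mul_sum]
  have hsum : ∑ q ∈ B, ∏ l ∈ q.primeFactors, f l ≤ ∑ A ∈ P.powerset.erase ∅, ∏ l ∈ A, f l := by
    rw [← sum_image (s := B) (g := fun q => q.primeFactors) (f := fun A : Finset ℕ => ∏ l ∈ A, f l)]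
    · refine sum_le_sum_of_subset_of_nonneg ?_ fun A hA _ => ?_
      · intro A hA
        rw [mem_image] at hA
        obtain ⟨q, hq, rfl⟩ := hA
        rw [hB, mem_filter, mem_Icc] at hq
        rw [mem_erase, mem_powerset]
        constructor
        · rw [Ne, Nat.primeFactors_eq_empty]
          omega
        · intro l hl
          have hlp := Nat.prime_of_mem_primeFactors hl
          have hld := Nat.dvd_of_mem_primeFactors hl
          rw [hP, mem_filter, mem_Ioc]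
          refine ⟨⟨?_, ?_⟩, hlp⟩
          · by_contra hle
            push Not at hle
            exact Nat.not_coprime_of_dvd_of_dvd hlp.one_lt (hK1 l hlp hle) hld hq.2.2
          · have := Nat.le_of_dvd (by omega) hld
            omega
      · rw [mem_erase, mem_powerset] at hA
        exact prod_nonneg fun l hl => hf0 l (hA.2 hl)
    · intro q hq q' hq' h
      rw [mem_coe, hB, mem_filter] at hq hq'
      simp only at h
      rw [← Nat.prod_primeFactors_of_squarefree hq.2.1,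
        ← Nat.prod_primeFactors_of_squarefree hq'.2.1, h]
  have hexp : ∑ A ∈ P.powerset.erase ∅, ∏ l ∈ A, f l = ∏ l ∈ P, (1 + f l) - 1 := by
    rw [prod_one_add, ← add_sum_erase P.powerset _ (empty_mem_powerset P)]
    simp
  have hsumf : ∑ l ∈ P, f l ≤ ((k:ℝ) + 1) ^ 2 / K1 := by
    have h1 : ∑ l ∈ P, f l ≤ ∑ l ∈ Ioc K1 (K1 + Q), f l := by
      refine sum_le_sum_of_subset_of_nonneg (filter_subset _ _) fun l hl _ => ?_
      rw [mem_Ioc] at hl
      have h2 : (1:ℝ) < l := by exact_mod_cast (by omega : 1 < l)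
      have : (0:ℝ) < (l:ℝ) - 1 := by linarith
      simp only [hf]
      positivity
    have h2 : ∀ n : ℕ, ∑ l ∈ Ioc K1 (K1 + n), f l ≤
        ((k:ℝ) + 1) ^ 2 * (1 / K1 - 1 / ((K1:ℝ) + n)) := by
      intro n
      induction n with
      | zero => simp
      | succ n ih =>
        rw [← add_assoc, sum_Ioc_succ_top (by omega)]
        have h3 : f (K1 + n + 1) = ((k:ℝ) + 1) ^ 2 * (1 / ((K1:ℝ) + n) - 1 / ((K1:ℝ) + (n + 1 : ℕ))) := by
          simp only [hf]
          push_cast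
          have e1 : (0:ℝ) < (K1:ℝ) + n := by positivity
          have e2 : (0:ℝ) < (K1:ℝ) + (n + 1) := by positivity
          have e3 : (K1:ℝ) + n + 1 - 1 = (K1:ℝ) + n := by ring
          rw [e3]
          field_simp
          ring
        rw [h3]
        linarith
    have h3 := h2 Q
    have h4 : 0 ≤ ((k:ℝ) + 1) ^ 2 * (1 / ((K1:ℝ) + Q)) := by positivity
    have h5 : ((k:ℝ) + 1) ^ 2 / K1 = ((k:ℝ) + 1) ^ 2 * (1 / K1) := by ring
    rw [h5]
    linarith
  have hy1 : ((k:ℝ) + 1) ^ 2 / K1 ≤ 1 := (div_le_one hK1r).2 hkr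
  have hy0 : 0 ≤ ((k:ℝ) + 1) ^ 2 / K1 := by positivity
  have hprod : ∏ l ∈ P, (1 + f l) ≤ Real.exp (((k:ℝ) + 1) ^ 2 / K1) := by
    refine le_trans ?_ (Real.exp_le_exp.2 hsumf)
    rw [Real.exp_sum]
    refine prod_le_prod (fun l hl => by linarith [hf0 l hl]) fun l _ => ?_
    rw [add_comm]
    exact Real.add_one_le_exp _
  have hexp2 : Real.exp (((k:ℝ) + 1) ^ 2 / K1) - 1 ≤ 2 * (((k:ℝ) + 1) ^ 2 / K1) := by
    have h1 := Real.abs_exp_sub_one_le (x := ((k:ℝ) + 1) ^ 2 / K1) (by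
      rw [abs_of_nonneg hy0]; exact hy1)
    rw [abs_of_nonneg hy0] at h1
    exact (le_abs_self _).trans h1
  calc k * ((k:ℝ) + 1) * ∑ q ∈ B, ∏ l ∈ q.primeFactors, f l ≤
        k * ((k:ℝ) + 1) * (2 * (((k:ℝ) + 1) ^ 2 / K1)) := by
        refine mul_le_mul_of_nonneg_left ?_ (by positivity)
        linarith
    _ = 2 * k * ((k:ℝ) + 1) ^ 3 / K1 := by ring

end Pool.Agent.PnMaynard
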