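import Pool.Agent.PnMaynard.MainSeq2
import Pool.Agent.PnPoly.Final

/-!
# Passage to polynomials: almost all integer-valued polynomials
-/

open Finset Filter Topology Polynomial

namespace Pool.Agent.PnMaynard

open Pool.Agent.PnPoly

lemma int_poly_modEq (P : Polynomial ℤ) {T n m : ℕ} (h : n ≡ m [MOD T]) :
    P.eval (n : ℤ) ≡ P.eval (m : ℤ) [ZMOD T] := by
  have h1 : (n : ℤ) ≡ m [ZMOD T] := (Int.natCast_modEq_iff).2 h
  rw [Int.modEq_iff_dvd] at h1 ⊢
  exact h1.trans (Polynomial.sub_dvd_eval_sub _ _ _)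

lemma descFactorial_modEq (j : ℕ) {T n m : ℕ} (h : n ≡ m [MOD T]) :
    n.descFactorial j ≡ m.descFactorial j [MOD T] := by
  rw [← Int.natCast_modEq_iff]
  have h1 := int_poly_modEq (descPochhammer ℤ j) h
  rwa [descPochhammer_eval_eq_descFactorial, descPochhammer_eval_eq_descFactorial] at h1

lemma choose_modEq {d j : ℕ} (hj : j ≤ d) {T n m : ℕ} (h : n ≡ m [MOD T]) :
    d.factorial * n.choose j ≡ d.factorial * m.choose j [MOD T] := by
  obtain ⟨c, hc⟩ := Nat.factorial_dvd_factorial hj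
  have h1 : ∀ n : ℕ, d.factorial * n.choose j = c * n.descFactorial j := by
    intro n
    rw [hc, Nat.descFactorial_eq_factorial_mul_choose]
    ring
  rw [h1, h1]
  exact (descFactorial_modEq j h).mul_left c

lemma IV_Qv {e : ℕ} (q : Fin e → ℕ) : IV (e + 1).factorial 0 (Qv q) := by
  intro T n m _ _ h
  unfold Qv
  rw [mul_sum, mul_sum]
  have h1 : ∀ i : Fin e, (e + 1).factorial * (q i * n.choose (i + 2)) ≡
      (e + 1).factorial * (q i * m.choose (i + 2)) [MOD T] := by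
    intro i
    have h2 := (choose_modEq (d := e + 1) (j := i + 2) (by have := i.2; omega) h).mul_left (q i)
    have h3 : ∀ n : ℕ, q i * ((e + 1).factorial * n.choose (i + 2)) =
        (e + 1).factorial * (q i * n.choose (i + 2)) := fun n => by ring
    rwa [h3, h3] at h2
  classical
  have h2 : ∀ s : Finset (Fin e), ∑ i ∈ s, (e + 1).factorial * (q i * n.choose (i + 2)) ≡
      ∑ i ∈ s, (e + 1).factorial * (q i * m.choose (i + 2)) [MOD T] := by
    intro s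
    induction s using Finset.induction_on with
    | empty => rfl
    | insert i s hi ih =>
      rw [sum_insert hi, sum_insert hi]
      exact (h1 i).add ih
  exact h2 univ

/-- A denominator for an integer-valued polynomial. -/
lemma exists_IV (Q : Polynomial ℚ) (Z : ℤ → ℤ) (hZ : ∀ m : ℤ, Q.eval (m : ℚ) = (Z m : ℚ))
    {n0 : ℕ} (hn0 : ∀ n : ℕ, n0 ≤ n → 0 ≤ Z n) :
    ∃ Δ : ℕ, 1 ≤ Δ ∧ IV Δ n0 (fun n => (Z n).toNat) := by
  obtain ⟨b, hbm, hb⟩ := IsLocalization.integerNormalization_spec (nonZeroDivisors ℤ) Q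
  set P := IsLocalization.integerNormalization (nonZeroDivisors ℤ) Q with hP
  have hb0 : (b : ℤ) ≠ 0 := nonZeroDivisors.ne_zero hbm
  have heval : ∀ n : ℕ, P.eval (n : ℤ) = (b : ℤ) * Z n := by
    intro n
    have h1 := congrArg (fun R : Polynomial ℚ => R.eval (n : ℚ)) hb
    have h2 : (P.map (algebraMap ℤ ℚ)).eval (n : ℚ) = ((P.eval (n : ℤ) : ℤ) : ℚ) := by
      have := Polynomial.eval_intCast_map (algebraMap ℤ ℚ) P (n : ℤ)
      simpa using this
    rw [h2] at h1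
    have h3 : ((b : ℤ) • Q).eval (n : ℚ) = (b : ℤ) * (Z n : ℚ) := by
      rw [Polynomial.eval_smul]
      have := hZ (n : ℤ)
      push_cast at this
      rw [this]
      simp
    have h4 : ((P.eval (n : ℤ) : ℤ) : ℚ) = (((b : ℤ) * Z n : ℤ) : ℚ) := by
      rw [h1]
      push_cast
      exact h3
    exact_mod_cast h4
  refine ⟨(b : ℤ).natAbs, Int.natAbs_pos.2 hb0, ?_⟩
  intro T n m hn hm hmod
  have h1 := int_poly_modEq P hmod
  rw [heval, heval] at h1
  simp only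
  rw [← Int.natCast_modEq_iff]
  have h2 : ∀ n : ℕ, n0 ≤ n → (((b : ℤ).natAbs * (Z n).toNat : ℕ) : ℤ) = |(b : ℤ)| * Z n := by
    intro n hn
    rw [Nat.cast_mul, Int.natCast_natAbs, Int.toNat_of_nonneg (hn0 n hn)]
  rw [h2 n hn, h2 m hm]
  rcases abs_choice (b : ℤ) with h | h
  · rw [h]; exact h1
  · rw [h, neg_mul, neg_mul]
    exact h1.neg

/-- Polynomial growth. -/
lemma poly_log_eventually (Q : Polynomial ℚ) (A : ℕ) : ∀ᶠ H : ℕ in atTop,
    ∀ n : ℕ, (n:ℝ) ≤ Real.log H ^ A → ((Q.eval (n : ℚ) : ℚ) : ℝ) ≤ H := by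
  set k := Q.natDegree with hk
  set M : ℝ := ∑ i ∈ range (k + 1), |((Q.coeff i : ℚ) : ℝ)| with hM
  have hM0 : 0 ≤ M := sum_nonneg fun _ _ => abs_nonneg _
  have hbound : ∀ n : ℕ, ∀ y : ℝ, (n:ℝ) ≤ y → 1 ≤ y → ((Q.eval (n : ℚ) : ℚ) : ℝ) ≤ M * y ^ k := by
    intro n y hny hy
    rw [eval_eq_sum_range]
    push_cast
    rw [hM, sum_mul]
    refine sum_le_sum fun i hi => ?_
    rw [mem_range] at hi
    have h1 : (n:ℝ) ^ i ≤ y ^ k := (pow_le_pow_left₀ (Nat.cast_nonneg n) hny i).trans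
      (pow_le_pow_right₀ hy (by omega))
    have h2 : (0:ℝ) ≤ (n:ℝ) ^ i := by positivity
    calc ((Q.coeff i : ℚ) : ℝ) * (n:ℝ) ^ i ≤ |((Q.coeff i : ℚ) : ℝ)| * (n:ℝ) ^ i :=
          mul_le_mul_of_nonneg_right (le_abs_self _) h2
      _ ≤ |((Q.coeff i : ℚ) : ℝ)| * y ^ k := mul_le_mul_of_nonneg_left h1 (abs_nonneg _)
  have e1 : ∀ᶠ H : ℕ in atTop, M * (Real.log H ^ (A * k) / Real.sqrt H) ≤ 1 := by
    have := (log_pow_div_tendsto (A * k)).const_mul M
    rw [mul_zero] at this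
    exact this.eventually_le_const (by norm_num)
  filter_upwards [e1, tendsto_log_nat.eventually_ge_atTop 1, eventually_ge_atTop 1]
    with H h1 hL hH n hn
  have hH1 : (1:ℝ) ≤ H := by exact_mod_cast hH
  have hH0 : (0:ℝ) < H := by linarith
  have hsq : 0 < Real.sqrt H := Real.sqrt_pos.mpr hH0
  have h4 := hbound n _ hn (one_le_pow₀ hL)
  refine h4.trans ?_
  rw [← pow_mul]
  rw [← mul_div_assoc, div_le_one hsq] at h1
  refine h1.trans ?_
  have : Real.sqrt H ≤ Real.sqrt H * Real.sqrt H := by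
    have : 1 ≤ Real.sqrt H := by
      rw [show (1:ℝ) = Real.sqrt 1 by simp]; exact Real.sqrt_le_sqrt hH1
    nlinarith
  rwa [Real.mul_self_sqrt hH0.le] at this

/-- `manyPrimes_of` for indices from `1`. -/
lemma manyPrimes_of' {P : Polynomial ℚ} {y : ℝ} {K : ℕ} (hy : 0 ≤ y) {S : Finset ℕ}
    (hK : K ≤ S.card) (hS : ∀ n ∈ S, 1 ≤ n ∧ n ≤ ⌊y⌋₊ ∧ ∃ q : ℕ, q.Prime ∧
      (q : ℚ) = ((Nat.nth Nat.Prime (n - 1) : ℕ) : ℚ) + 2 * P.eval (n : ℚ)) :
    ManyPrimes P y K := by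
  unfold ManyPrimes
  refine hK.trans ?_
  rw [← Set.ncard_coe_finset]
  refine Set.ncard_le_ncard ?_ ?_
  · intro n hn
    obtain ⟨h1, h2, h3⟩ := hS n hn
    refine ⟨by omega, ?_, h3⟩
    exact (Nat.le_floor_iff hy).mp h2
  · refine (Set.finite_le_nat ⌊y⌋₊).subset fun n hn => ?_
    exact Nat.le_floor hn.2.1

/-- Almost all linear perturbations of a fixed integer-valued polynomial. -/
theorem almost_all_linear (Q : Polynomial ℚ) (hQ : ∀ m : ℤ, ∃ k : ℤ, Q.eval (m : ℚ) = (k : ℚ))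
    (hlc : 0 ≤ Q.leadingCoeff) (B : ℕ) {ε : ℝ} (hε : 0 < ε) :
    ∃ A : ℕ, ∃ H0 : ℕ, ∀ H : ℕ, H0 ≤ H →
      (1 - ε) * (H:ℝ) ^ 2 ≤ (({v : ℕ × ℕ | (1 ≤ v.1 ∧ v.1 ≤ H) ∧ (1 ≤ v.2 ∧ v.2 ≤ H) ∧
        Admissible (Q + (Polynomial.C (v.1 : ℚ) * Polynomial.X + Polynomial.C (v.2 : ℚ))) ∧
        ManyPrimes (Q + (Polynomial.C (v.1 : ℚ) * Polynomial.X + Polynomial.C (v.2 : ℚ)))
          (Real.log H ^ A) ⌈Real.log H ^ B⌉₊}.ncard : ℕ) : ℝ) := by
  classical
  choose Z hZ using hQ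
  have hfin := finite_neg hlc
  obtain ⟨n0, hn0⟩ := hfin.bddAbove
  have hZn : ∀ n : ℕ, Q.eval (n : ℚ) = ((Z (n : ℤ) : ℤ) : ℚ) := by
    intro n
    have := hZ (n : ℤ)
    simpa using this
  have hpos : ∀ n : ℕ, n0 + 1 ≤ n → 0 ≤ Z n := by
    intro n hn
    by_contra hneg
    push Not at hneg
    have h1 : n ∈ {n : ℕ | Q.eval (n : ℚ) < 0} := by
      change Q.eval (n : ℚ) < 0
      rw [hZn]
      exact_mod_cast hneg
    have := hn0 h1
    omega
  obtain ⟨Δ, hΔ, hIV⟩ := exists_IV Q Z hZ hpos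
  obtain ⟨A, hA⟩ := main_seq hΔ (n0 + 1) B hε
  refine ⟨A, ?_⟩
  rw [← eventually_atTop]
  filter_upwards [hA 0, poly_log_eventually Q A] with H hH hpoly
  have hmain := hH (fun n => (Z n).toNat) hIV (by
    intro n hn
    rw [pow_zero, mul_one]
    have h1 := hpoly n hn
    rw [hZn] at h1
    have h2 : (((Z n).toNat : ℕ) : ℝ) = max ((Z n : ℤ) : ℝ) 0 := by
      have : (((Z n).toNat : ℕ) : ℤ) = max (Z n) 0 := Int.toNat_eq_max (Z n)
      exact_mod_cast congrArg (fun z : ℤ => (z : ℝ)) this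
    rw [h2]
    refine max_le ?_ (Nat.cast_nonneg H)
    simpa using h1)
  set L := Real.log H with hL
  have hL0 : 0 ≤ L := Real.log_natCast_nonneg H
  set bad := (Ioc 0 H ×ˢ Ioc 0 H).filter (fun v => (((Icc 1 ⌊L ^ A⌋₊).filter
        (fun n => n0 + 1 ≤ n ∧ (pr n + 2 * ((Z n).toNat + v.1 * n + v.2)).Prime)).card : ℝ) <
          L ^ B) with hbad
  set good := (Ioc 0 H ×ˢ Ioc 0 H) \ bad with hgood
  have hcard : (good.card : ℝ) ≥ (1 - ε) * (H:ℝ) ^ 2 := by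
    have h1 : good.card + bad.card = (Ioc 0 H ×ˢ Ioc 0 H).card :=
      card_sdiff_add_card_eq_card (filter_subset _ _)
    have h2 : ((Ioc 0 H ×ˢ Ioc 0 H).card : ℝ) = (H:ℝ) ^ 2 := by
      rw [card_product, Nat.card_Ioc]; simp only [Nat.sub_zero]; push_cast; ring
    have h3 : (good.card : ℝ) + bad.card = (H:ℝ) ^ 2 := by rw [← h2]; exact_mod_cast h1
    linarith
  refine hcard.trans ?_
  rw [← Set.ncard_coe_finset]
  have hle := Set.ncard_le_ncard (s := ((good : Finset _) : Set (ℕ × ℕ)))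
    (t := {v : ℕ × ℕ | (1 ≤ v.1 ∧ v.1 ≤ H) ∧ (1 ≤ v.2 ∧ v.2 ≤ H) ∧
        Admissible (Q + (Polynomial.C (v.1 : ℚ) * Polynomial.X + Polynomial.C (v.2 : ℚ))) ∧
        ManyPrimes (Q + (Polynomial.C (v.1 : ℚ) * Polynomial.X + Polynomial.C (v.2 : ℚ)))
          (L ^ A) ⌈L ^ B⌉₊}) ?_ ?_
  · exact_mod_cast hle
  · intro v hv
    rw [mem_coe, hgood, Finset.mem_sdiff, mem_product, mem_Ioc, mem_Ioc] at hv
    obtain ⟨⟨ha, hb⟩, hnb⟩ := hv
    refine ⟨⟨ha.1, ha.2⟩, ⟨hb.1, hb.2⟩, linear_admissible (fun m => ⟨Z m, hZ m⟩) hlc ha.1, ?_⟩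
    have hnb' : L ^ B ≤ (((Icc 1 ⌊L ^ A⌋₊).filter
        (fun n => n0 + 1 ≤ n ∧ (pr n + 2 * ((Z n).toNat + v.1 * n + v.2)).Prime)).card : ℝ) := by
      by_contra hlt
      push Not at hlt
      apply hnb
      rw [hbad, mem_filter, mem_product, mem_Ioc, mem_Ioc]
      exact ⟨⟨ha, hb⟩, hlt⟩
    refine manyPrimes_of' (by positivity) (Nat.ceil_le.2 hnb') ?_
    intro n hn
    rw [mem_filter, mem_Icc] at hn
    refine ⟨hn.1.1, hn.1.2, _, hn.2.2, ?_⟩
    have h1 : (((Z n).toNat : ℕ) : ℚ) = Q.eval (n : ℚ) := by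
      rw [hZn n]
      have : (((Z n).toNat : ℕ) : ℤ) = Z n := Int.toNat_of_nonneg (hpos n hn.2.1)
      exact_mod_cast congrArg (fun z : ℤ => (z : ℚ)) this
    push_cast
    rw [h1]
    simp only [eval_add, eval_mul, eval_C, eval_X]
    unfold pr
    ring
  · refine Set.Finite.subset (Finset.finite_toSet (Icc 1 H ×ˢ Icc 1 H)) fun v hv => ?_
    rw [mem_coe, mem_product, mem_Icc, mem_Icc]
    exact ⟨hv.1, hv.2.1⟩

/-- Almost all coefficient vectors. -/
theorem almost_all_box (e B : ℕ) {ε : ℝ} (hε : 0 < ε) :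
    ∃ A : ℕ, ∃ H0 : ℕ, ∀ H : ℕ, H0 ≤ H →
      (1 - ε) * (H:ℝ) ^ (e + 1 + 1) ≤ (({c : Fin (e + 1 + 1) → ℕ | (∀ k, 1 ≤ c k ∧ c k ≤ H) ∧
        Admissible (polyOf c) ∧ (polyOf c).natDegree = e + 1 ∧
        ManyPrimes (polyOf c) (Real.log H ^ A) ⌈Real.log H ^ B⌉₊}.ncard : ℕ) : ℝ) := by
  classical
  obtain ⟨A, hA⟩ := main_seq (Δ := (e + 1).factorial) (Nat.factorial_pos _) 0 B hε
  refine ⟨A, ?_⟩
  rw [← eventually_atTop]
  filter_upwards [hA (A * (e + 1) + 1), tendsto_log_nat.eventually_ge_atTop ((e:ℝ) + 1)]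
    with H hH hLe
  set L := Real.log H with hL
  have hL1 : 1 ≤ L := by
    have : (0:ℝ) ≤ e := Nat.cast_nonneg e
    linarith
  have hL0 : 0 < L := by linarith
  -- the bad set
  set P : ((Fin e → ℕ) × ℕ × ℕ) → Prop := fun t => (((Icc 1 ⌊L ^ A⌋₊).filter
        (fun n => 0 ≤ n ∧ (pr n + 2 * (Qv t.1 n + t.2.1 * n + t.2.2)).Prime)).card : ℝ) < L ^ B with hP
  have hbadq : ∀ q ∈ PnPoly.box e H, (((Ioc 0 H ×ˢ Ioc 0 H).filter (fun v => P (q, v))).card : ℝ) ≤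
      ε * (H:ℝ) ^ 2 := by
    intro q hq
    refine hH (Qv q) (IV_Qv q) ?_
    intro n hn
    have hQ : (Qv q n : ℝ) ≤ e * (H * (L ^ A) ^ (e + 1)) := by
      unfold Qv
      push_cast
      calc ∑ i : Fin e, (q i : ℝ) * (n.choose (i + 2) : ℝ) ≤
            ∑ _i : Fin e, (H:ℝ) * (L ^ A) ^ (e + 1) := by
            refine sum_le_sum fun i _ => ?_
            unfold PnPoly.box at hq
            rw [Fintype.mem_piFinset] at hq
            have h2 := mem_Icc.mp (hq i)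
            have h3 : (q i : ℝ) ≤ H := by exact_mod_cast h2.2
            have h4 : (n.choose (i + 2) : ℝ) ≤ (n:ℝ) ^ ((i:ℕ) + 2) := by
              exact_mod_cast Nat.choose_le_pow n (i + 2)
            have h5 : (n:ℝ) ^ ((i:ℕ) + 2) ≤ (L ^ A) ^ ((i:ℕ) + 2) :=
              pow_le_pow_left₀ (Nat.cast_nonneg n) hn _
            have h6 : (L ^ A) ^ ((i:ℕ) + 2) ≤ (L ^ A) ^ (e + 1) :=
              pow_le_pow_right₀ (one_le_pow₀ hL1) (by have := i.2; omega)
            exact mul_le_mul h3 (h4.trans (h5.trans h6)) (Nat.cast_nonneg _) (Nat.cast_nonneg _)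
        _ = e * (H * (L ^ A) ^ (e + 1)) := by
            rw [sum_const, card_univ, Fintype.card_fin, nsmul_eq_mul]
    refine hQ.trans ?_
    rw [← pow_mul, pow_succ]
    have h7 : 0 ≤ (H:ℝ) * L ^ (A * (e + 1)) := by positivity
    nlinarith
  set Tt := PnPoly.box e H ×ˢ (Ioc 0 H ×ˢ Ioc 0 H) with hTt
  have hTcard : (Tt.card : ℝ) = (H:ℝ) ^ (e + 1 + 1) := by
    rw [hTt, card_product, card_product, card_box, Nat.card_Ioc]
    simp only [Nat.sub_zero]
    push_cast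
    ring
  set bad := Tt.filter P with hbad
  have hbadcard : (bad.card : ℝ) ≤ ε * (H:ℝ) ^ (e + 1 + 1) := by
    have h1 : bad.card = ∑ q ∈ PnPoly.box e H, ((Ioc 0 H ×ˢ Ioc 0 H).filter (fun v => P (q, v))).card := by
      rw [hbad, hTt, card_filter, sum_product]
      refine sum_congr rfl fun q _ => ?_
      rw [card_filter]
    rw [h1]
    push_cast
    calc ∑ q ∈ PnPoly.box e H, (((Ioc 0 H ×ˢ Ioc 0 H).filter (fun v => P (q, v))).card : ℝ) ≤
          ∑ _q ∈ PnPoly.box e H, ε * (H:ℝ) ^ 2 := sum_le_sum hbadq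
      _ = ε * (H:ℝ) ^ (e + 1 + 1) := by
          rw [sum_const, card_box, nsmul_eq_mul]
          push_cast
          ring
  set good := Tt \ bad with hgood
  have hcard : (good.card : ℝ) ≥ (1 - ε) * (H:ℝ) ^ (e + 1 + 1) := by
    have h1 : good.card + bad.card = Tt.card :=
      card_sdiff_add_card_eq_card (filter_subset _ _)
    have h3 : (good.card : ℝ) + bad.card = (H:ℝ) ^ (e + 1 + 1) := by
      rw [← hTcard]; exact_mod_cast h1
    linarith
  refine hcard.trans ?_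
  have hcard2 : good.card = (good.image vec).card := (card_image_of_injective _ vec_injective).symm
  rw [hcard2, ← Set.ncard_coe_finset]
  have hle := Set.ncard_le_ncard (s := (((good.image vec : Finset _)) :
      Set (Fin (e + 1 + 1) → ℕ))) (t := {c : Fin (e + 1 + 1) → ℕ | (∀ k, 1 ≤ c k ∧ c k ≤ H) ∧
        Admissible (polyOf c) ∧ (polyOf c).natDegree = e + 1 ∧
        ManyPrimes (polyOf c) (L ^ A) ⌈L ^ B⌉₊}) ?_ ?_
  · exact_mod_cast hle
  · intro c hc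
    rw [mem_coe, mem_image] at hc
    obtain ⟨t, ht, rfl⟩ := hc
    rw [hgood, Finset.mem_sdiff, hTt, mem_product, mem_product, mem_Ioc, mem_Ioc] at ht
    obtain ⟨⟨hq, h1, h0⟩, hnb⟩ := ht
    have hnb' : L ^ B ≤ (((Icc 1 ⌊L ^ A⌋₊).filter
        (fun n => 0 ≤ n ∧ (pr n + 2 * (Qv t.1 n + t.2.1 * n + t.2.2)).Prime)).card : ℝ) := by
      by_contra hlt
      push Not at hlt
      apply hnb
      rw [hbad, mem_filter, hTt, mem_product, mem_product, mem_Ioc, mem_Ioc]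
      exact ⟨⟨hq, h1, h0⟩, hlt⟩
    unfold PnPoly.box at hq
    rw [Fintype.mem_piFinset] at hq
    have hrange : ∀ k, 1 ≤ vec t k ∧ vec t k ≤ H := by
      intro k
      unfold vec
      refine Fin.cases ?_ (fun k => ?_) k
      · simp only [Fin.cons_zero]; exact ⟨h0.1, h0.2⟩
      · simp only [Fin.cons_succ]
        refine Fin.cases ?_ (fun k => ?_) k
        · simp only [Fin.cons_zero]; exact ⟨h1.1, h1.2⟩
        · simp only [Fin.cons_succ]
          have := mem_Icc.mp (hq k)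
          exact this
    have hadm := polyOf_admissible (vec t) (fun k => (hrange k).1)
    refine ⟨hrange, hadm.1, hadm.2, manyPrimes_of' (by positivity) (Nat.ceil_le.2 hnb') ?_⟩
    intro n hn
    rw [mem_filter, mem_Icc] at hn
    refine ⟨hn.1.1, hn.1.2, _, hn.2.2, ?_⟩
    have h2 : pr n + 2 * (Qv t.1 n + t.2.1 * n + t.2.2) =
        pr n + 2 * (∑ k : Fin (e + 1 + 1), vec t k * n.choose k) := by
      rw [vec_sum]
      unfold uu al
      ring
    rw [h2, polyOf_eval_nat]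
    push_cast
    rfl
  · refine Set.Finite.subset (Finset.finite_toSet (Fintype.piFinset fun _ => Icc 1 H))
      fun c hc => ?_
    rw [mem_coe, Fintype.mem_piFinset]
    intro k
    exact mem_Icc.mpr (hc.1 k)

end Pool.Agent.PnMaynard
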