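import Pool.Agent.PnMaynard.Measure

/-!
# The main statement for sequences compatible with congruences
-/

open Finset Filter

namespace Pool.Agent.PnMaynard

open Pool.Agent.PnPoly Pool.Agent.Maynard

lemma exists_a0 (g c : ℕ) (hg : 1 ≤ g) : ∃ a0 : ℕ, a0.Coprime g ∧ (a0 + 2 * c).Coprime g := by
  obtain ⟨a0, h0⟩ := crt_iff g.primeFactors (fun p hp => Nat.prime_of_mem_primeFactors hp) (Q := 1)
    (fun p hp h => (Nat.prime_of_mem_primeFactors hp).one_lt.ne' (Nat.dvd_one.1 h)) 0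
    (fun l => if l = 2 ∨ l ∣ c then 1 else (l - 1) * c)
  have h1 := ((h0 a0).2 rfl).2
  have key : ∀ l, l.Prime → l ∣ g → ¬ l ∣ a0 ∧ ¬ l ∣ a0 + 2 * c := by
    intro l hl hlg
    have h2 := h1 l (Nat.mem_primeFactors.2 ⟨hl, hlg, by omega⟩)
    by_cases hc : l = 2 ∨ l ∣ c
    · rw [if_pos hc] at h2
      have hl2c : l ∣ 2 * c := by
        rcases hc with h | h
        · rw [h]; exact dvd_mul_right _ _
        · exact h.mul_left 2
      have h3 : a0 + 2 * c ≡ 1 [MOD l] := by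
        have h4 : 2 * c ≡ 0 [MOD l] := Nat.modEq_zero_iff_dvd.2 hl2c
        simpa using h2.add h4
      have h5 : ¬ l ∣ 1 := fun h => hl.one_lt.ne' (Nat.dvd_one.1 h)
      exact ⟨fun h => h5 ((Nat.ModEq.dvd_iff h2 dvd_rfl).1 h),
        fun h => h5 ((Nat.ModEq.dvd_iff h3 dvd_rfl).1 h)⟩
    · rw [if_neg hc] at h2
      push Not at hc
      obtain ⟨l', rfl⟩ : ∃ l', l = l' + 1 := ⟨l - 1, by have := hl.pos; omega⟩
      simp only [Nat.add_sub_cancel] at h2
      have hl3 : 2 ≤ l' := by have := hl.two_le; omega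
      constructor
      · intro h
        have h3 := (Nat.ModEq.dvd_iff h2 dvd_rfl).1 h
        rcases (hl.dvd_mul).1 h3 with h4 | h4
        · have := Nat.le_of_dvd (by omega) h4
          omega
        · exact hc.2 h4
      · intro h
        have h3 : a0 + 2 * c ≡ l' * c + 2 * c [MOD (l' + 1)] := h2.add_right _
        have h4 := (Nat.ModEq.dvd_iff h3 dvd_rfl).1 h
        have h5 : l' * c + 2 * c = (l' + 1) * c + c := by ring
        rw [h5] at h4
        exact hc.2 ((Nat.dvd_add_right (dvd_mul_right _ _)).1 h4)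
  refine ⟨a0, ?_, ?_⟩
  · refine Nat.Coprime.symm (Nat.coprime_of_dvd fun l hl h2 h3 => (key l hl h2).1 h3)
  · refine Nat.Coprime.symm (Nat.coprime_of_dvd fun l hl h2 h3 => (key l hl h2).2 h3)

/-- Compatibility with congruences, up to the factor `Δ`. -/
def IV (Δ n0 : ℕ) (Q : ℕ → ℕ) : Prop :=
  ∀ T n m, n0 ≤ n → n0 ≤ m → n ≡ m [MOD T] → Δ * Q n ≡ Δ * Q m [MOD T]

/-- The exceptional set in a class modulo `g`. -/
lemma class_bad {Δ n0 g N K X : ℕ} {E M : ℝ} {Q : ℕ → ℕ} (hIV : IV Δ n0 Q) (hΔ : 1 ≤ Δ)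
    (hg0 : 1 ≤ g) (hg2 : 2 ∣ g) (hgΔ : ∀ l, l.Prime → l ∣ Δ → l ∣ g) {α β a0 : ℕ}
    (ha0' : (a0 + 2 * (Q n0 + β + α * n0)).Coprime g) (hN : 1 ≤ N) (hE : 0 ≤ E) (hM : 0 ≤ M)
    (hSW : SWH X (2 * g * (3 * N)) E) {ν : ℕ → ℝ} (hν0 : ∀ n, 0 ≤ ν n)
    (hν : ∀ n, ν n ≠ 0 → ((1 ≤ n ∧ n ≤ 3 * N) ∧ pr n ≤ 3 * N) ∧ n0 ≤ n ∧ n ≡ n0 [MOD g * Δ] ∧
      pr n ≡ a0 [MOD g])
    (hν1 : ∑ n ∈ Icc 1 (3 * N), ν n = 1) (hνM : ∀ n, ν n ≤ M * (N:ℝ) ^ (-(1/4) : ℝ))
    {ε : ℝ} (hε : 0 ≤ ε)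
    (hcorr : ∑ m ∈ Icc 1 (3 * N), ∑ n ∈ Icc 1 (3 * N), ν m * ν n * (if m = n then 0 else
          ∏ l ∈ (dd (pr m) (pr n)).primeFactors.filter (fun l => ¬ l ∣ g),
            ((l:ℝ) / ((l:ℝ) - 1))) ≤ 1 + ε)
    (hX : ∀ n, n ≤ 3 * N → pr n ≤ 3 * N →
      pr n + 2 * (Q n + β + α * n) + 2 * g * (K + K * n) ≤ X)
    {Bd : ℝ} (hBd : Bd * (M * (N:ℝ) ^ (-(1/4) : ℝ) * Real.log X) < 1 / 2) :
    (((Ioc 0 K ×ˢ Ioc 0 K).filter (fun t => (((Icc 1 (3 * N)).filter (fun n => n0 ≤ n ∧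
      (vv (fun n => pr n + 2 * (Q n + β + α * n)) (2 * g) t.1 t.2 n).Prime)).card : ℝ) < Bd)).card : ℝ)
      ≤ 4 * (K:ℝ) ^ 2 * ε + 4 *
      (M * (N:ℝ) ^ (-(1/4) : ℝ) * Real.log X * (K * (2 * g * K + 2 * E)) +
        (2 * g * (3 * N) ^ 2 * K * (2 * E + Real.log X) + 2 * E * (K * (1 + 3 * N)) * Real.log X) +
        4 * (2 * g) * E * K) := by
  classical
  set B : ℕ → ℕ := fun n => pr n + 2 * (Q n + β + α * n) with hB
  set G := 2 * g with hG
  set I := (Icc 1 (3 * N)).filter (fun n => ν n ≠ 0) with hI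
  have hG1 : 1 ≤ G := by omega
  have hGr : (G:ℝ) = 2 * g := by rw [hG]; push_cast; ring
  set κ := (G:ℝ) / G.totient with hκ
  have htot : (1:ℝ) ≤ G.totient := by exact_mod_cast Nat.totient_pos.2 hG1
  have hG0 : (0:ℝ) < G := by exact_mod_cast hG1
  have hκ1 : 1 ≤ κ := by
    rw [hκ, le_div_iff₀ (by linarith), one_mul]
    exact_mod_cast Nat.totient_le G
  have hκG : κ ≤ G := by
    rw [hκ, div_le_iff₀ (by linarith)]
    nlinarith
  have hlogX : 0 ≤ Real.log X := Real.log_natCast_nonneg X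
  set η := M * (N:ℝ) ^ (-(1/4) : ℝ) with hη
  have hη0 : 0 ≤ η := by positivity
  have hXI : ∀ n ∈ I, B n + G * (K + K * n) ≤ X := by
    intro n hn
    rw [hI, mem_filter] at hn
    have h1 := hν n hn.2
    exact hX n h1.1.1.2 h1.1.2
  have hBI : ∀ n ∈ I, (B n).Coprime G := by
    intro n hn
    rw [hI, mem_filter] at hn
    obtain ⟨-, h1, h2, h3⟩ := hν n hn.2
    have h4 : Q n ≡ Q n0 [MOD g] := by
      have h5 := hIV (g * Δ) n n0 h1 le_rfl h2
      rw [mul_comm g Δ] at h5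
      exact Nat.ModEq.mul_left_cancel' (by omega) h5
    have h5 : n ≡ n0 [MOD g] := h2.of_dvd (dvd_mul_right _ _)
    have h6 : B n ≡ a0 + 2 * (Q n0 + β + α * n0) [MOD g] := by
      simp only [hB]
      exact h3.add (((h4.add_right β).add (h5.mul_left α)).mul_left 2)
    have h7 : (B n).Coprime g := (Nat.ModEq.gcd_eq h6).trans ha0'
    have h8 : (B n).Coprime 2 := h7.coprime_dvd_right hg2
    exact Nat.Coprime.mul_right h8 h7
  have hIsub : I ⊆ Icc 1 (3 * N) := filter_subset _ _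
  have hI1 : ∑ n ∈ I, ν n = 1 := by
    rw [hI, sum_filter_ne_zero]
    exact hν1
  have hΓ : ∑ m ∈ I, ∑ n ∈ I, (if m = n then 0 else ν m * ν n * gs G B m n) ≤ 1 + ε := by
    refine le_trans ?_ hcorr
    have hnn : ∀ m n : ℕ, 0 ≤ ν m * ν n * (if m = n then 0 else
          ∏ l ∈ (dd (pr m) (pr n)).primeFactors.filter (fun l => ¬ l ∣ g),
            ((l:ℝ) / ((l:ℝ) - 1))) := by
      intro m n
      refine mul_nonneg (mul_nonneg (hν0 m) (hν0 n)) ?_
      split_ifs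
      · exact le_rfl
      · exact zero_le_one.trans (one_le_prod_ratio fun l hl =>
          Nat.prime_of_mem_primeFactors (mem_filter.1 hl).1)
    have h1 : ∀ m ∈ I, ∀ n ∈ I, (if m = n then 0 else ν m * ν n * gs G B m n) ≤
        ν m * ν n * (if m = n then 0 else
          ∏ l ∈ (dd (pr m) (pr n)).primeFactors.filter (fun l => ¬ l ∣ g),
            ((l:ℝ) / ((l:ℝ) - 1))) := by
      intro m hm n hn
      rw [hI, mem_filter] at hm hn
      split_ifs with hmn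
      · simp
      · refine mul_le_mul_of_nonneg_left ?_ (mul_nonneg (hν0 m) (hν0 n))
        unfold gs
        refine prod_mono_set ?_ fun l hl =>
          ratio_ge_one (Nat.prime_of_mem_primeFactors (mem_filter.1 hl).1)
        intro l hl
        rw [mem_filter] at hl ⊢
        have hlp := Nat.prime_of_mem_primeFactors hl.1
        have hlg : ¬ l ∣ g := fun h => hl.2.1 (h.mul_left 2)
        have hnm : n ≡ m [MOD l] := (dvd_dd (a := n) (b := m)).1 (Nat.dvd_of_mem_primeFactors hl.1)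
        have hm' := hν m hm.2
        have hn' := hν n hn.2
        have hQ : Q n ≡ Q m [MOD l] := by
          have h2 := hIV l n m hn'.2.1 hm'.2.1 hnm
          refine Nat.ModEq.cancel_left_of_coprime ?_ h2
          rw [← Nat.Coprime]
          exact hlp.coprime_iff_not_dvd.2 fun h => hlg (hgΔ l hlp h)
        have h3 : 2 * (Q n + β + α * n) ≡ 2 * (Q m + β + α * m) [MOD l] :=
          ((hQ.add_right β).add (hnm.mul_left α)).mul_left 2
        have h4 : pr n ≡ pr m [MOD l] := Nat.ModEq.add_right_cancel h3 hl.2.2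
        have hne : pr m ≠ pr n := by
          rcases lt_or_gt_of_ne hmn with h | h
          · exact (pr_lt hm'.1.1.1 h).ne
          · exact (pr_lt hn'.1.1.1 h).ne'
        have hd := dd_pos hne
        exact ⟨Nat.mem_primeFactors.2 ⟨hlp, dvd_dd.2 h4.symm, by omega⟩, hlg⟩
    calc ∑ m ∈ I, ∑ n ∈ I, (if m = n then 0 else ν m * ν n * gs G B m n) ≤
          ∑ m ∈ I, ∑ n ∈ I, ν m * ν n * (if m = n then 0 else
          ∏ l ∈ (dd (pr m) (pr n)).primeFactors.filter (fun l => ¬ l ∣ g),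
            ((l:ℝ) / ((l:ℝ) - 1))) := sum_le_sum fun m hm => sum_le_sum fun n hn => h1 m hm n hn
      _ ≤ ∑ m ∈ I, ∑ n ∈ Icc 1 (3 * N), ν m * ν n * (if m = n then 0 else
          ∏ l ∈ (dd (pr m) (pr n)).primeFactors.filter (fun l => ¬ l ∣ g),
            ((l:ℝ) / ((l:ℝ) - 1))) := sum_le_sum fun m _ =>
            sum_le_sum_of_subset_of_nonneg hIsub fun n _ _ => hnn m n
      _ ≤ _ := sum_le_sum_of_subset_of_nonneg hIsub fun m _ _ => sum_nonneg fun n _ => hnn m n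
  have hbad := bad_le (K := K) (N := 3 * N) (X := X) (G := G) (E := E) (B := B) hE hSW hG1
    (by omega) (I := I) (fun n hn => mem_Icc.1 (hIsub hn)) (ν := ν) (fun n _ => hν0 n) hI1
    (η := η) (fun n _ => hνM n) hXI hBI hΓ
  rw [← hκ] at hbad
  set bad1 := (Ioc 0 K ×ˢ Ioc 0 K).filter (fun t => FF B G I ν t < κ / 2) with hbad1
  set bad2 := (Ioc 0 K ×ˢ Ioc 0 K).filter (fun t => (((Icc 1 (3 * N)).filter (fun n => n0 ≤ n ∧
      (vv B G t.1 t.2 n).Prime)).card : ℝ) < Bd) with hbad2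
  have hsub : bad2 ⊆ bad1 := by
    intro t ht
    rw [hbad2, mem_filter] at ht
    rw [hbad1, mem_filter]
    refine ⟨ht.1, ?_⟩
    rw [mem_product, mem_Ioc, mem_Ioc] at ht
    have h1 := card_of_FF (K := K) (X := X) (G := G) (B := B) (I := I) (ν := ν) (fun n _ => hν0 n)
      (η := η) (fun n _ => hνM n) hXI (t := t) ⟨ht.1.1.2, ht.1.2.2⟩
    have h2 : ((I.filter (fun n => (vv B G t.1 t.2 n).Prime)).card : ℝ) ≤
        (((Icc 1 (3 * N)).filter (fun n => n0 ≤ n ∧ (vv B G t.1 t.2 n).Prime)).card : ℝ) := by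
      have : I.filter (fun n => (vv B G t.1 t.2 n).Prime) ⊆
          (Icc 1 (3 * N)).filter (fun n => n0 ≤ n ∧ (vv B G t.1 t.2 n).Prime) := by
        intro n hn
        rw [mem_filter] at hn ⊢
        exact ⟨hIsub hn.1, (hν n (mem_filter.1 hn.1).2).2.1, hn.2⟩
      exact_mod_cast card_le_card this
    have h3 : ((I.filter (fun n => (vv B G t.1 t.2 n).Prime)).card : ℝ) ≤ Bd := h2.trans ht.2.le
    have h4 : FF B G I ν t ≤ Bd * (η * Real.log X) :=
      h1.trans (mul_le_mul_of_nonneg_right h3 (by positivity))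
    linarith
  have hcard : (bad2.card : ℝ) ≤ bad1.card := by exact_mod_cast card_le_card hsub
  refine hcard.trans ?_
  have hκ2 : 1 ≤ κ ^ 2 := one_le_pow₀ hκ1
  have hK0 : (0:ℝ) ≤ K := Nat.cast_nonneg K
  -- bound of the error
  have herr : η * Real.log X * (K * (κ * K + 2 * E)) +
      (G * ((3 * N : ℕ) : ℝ) ^ 2 * K * (2 * E + Real.log X) +
        2 * E * (K * (1 + ((3 * N : ℕ) : ℝ))) * Real.log X) + 4 * κ * E * K ≤
      η * Real.log X * (K * (2 * g * K + 2 * E)) +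
        (2 * g * (3 * N) ^ 2 * K * (2 * E + Real.log X) + 2 * E * (K * (1 + 3 * N)) * Real.log X) +
        4 * (2 * g) * E * K := by
    rw [← hGr]
    push_cast
    gcongr
  set Err := η * Real.log X * (K * (2 * g * K + 2 * E)) +
        (2 * g * (3 * N) ^ 2 * K * (2 * E + Real.log X) + 2 * E * (K * (1 + 3 * N)) * Real.log X) +
        4 * (2 * g) * E * K with hErr
  have hErr0 : 0 ≤ Err := by positivity
  have h1 : κ ^ 2 / 4 * (bad1.card : ℝ) ≤ κ ^ 2 * ((K:ℝ) ^ 2 * ε + Err) := by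
    have h2 : Err ≤ κ ^ 2 * Err := le_mul_of_one_le_left hErr0 hκ2
    have h3 : κ ^ 2 * (K:ℝ) ^ 2 * (1 + ε - 1) = κ ^ 2 * ((K:ℝ) ^ 2 * ε) := by ring
    rw [h3] at hbad
    calc _ ≤ _ := hbad
      _ ≤ κ ^ 2 * ((K:ℝ) ^ 2 * ε) + Err := add_le_add le_rfl herr
      _ ≤ _ := by rw [mul_add]; linarith
  have h2 : (bad1.card : ℝ) / 4 ≤ (K:ℝ) ^ 2 * ε + Err := by
    refine le_of_mul_le_mul_left ?_ (show 0 < κ ^ 2 by linarith)
    linarith
  linarith

end Pool.Agent.PnMaynard
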