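import Pool.Agent.PnMaynard.Cluster

/-!
# A measure on indices `n` with controlled correlations of `p_n`
-/

open Finset Filter

namespace Pool.Agent.PnMaynard

open Pool.Agent.PnPoly Pool.Agent.Maynard

/-- The product of the primes up to `z`. -/
def PP (z : ℕ) : ℕ := ∏ l ∈ (Icc 1 z).filter Nat.Prime, l

lemma PP_pos (z : ℕ) : 0 < PP z := prod_pos fun _ hl => (mem_filter.1 hl).2.pos

lemma dvd_PP {z l : ℕ} (hl : l.Prime) : l ∣ PP z ↔ l ≤ z := by
  unfold PP
  constructor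
  · intro h
    obtain ⟨l', hl', h3⟩ := (hl.prime.dvd_finsetProd_iff _).1 h
    rw [mem_filter, mem_Icc] at hl'
    rw [(Nat.prime_dvd_prime_iff_eq hl hl'.2).1 h3]
    exact hl'.1.2
  · intro h
    exact dvd_prod_of_mem _ (mem_filter.2 ⟨mem_Icc.2 ⟨hl.one_lt.le, h⟩, hl⟩)

lemma prod_union_le {s t : Finset ℕ} {f : ℕ → ℝ} (hs : ∀ i ∈ s, 1 ≤ f i) (ht : ∀ i ∈ t, 1 ≤ f i) :
    ∏ i ∈ s ∪ t, f i ≤ (∏ i ∈ s, f i) * ∏ i ∈ t, f i := by
  classical
  rw [← prod_union_inter]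
  have h1 : 1 ≤ ∏ i ∈ s ∩ t, f i := by
    calc (1:ℝ) = ∏ _i ∈ s ∩ t, (1:ℝ) := by simp
      _ ≤ _ := prod_le_prod (fun _ _ => zero_le_one) fun i hi => hs i (mem_inter.1 hi).1
  have h2 : 0 ≤ ∏ i ∈ s ∪ t, f i := prod_nonneg fun i hi => by
    rcases mem_union.1 hi with h | h
    · linarith [hs i h]
    · linarith [ht i h]
  nlinarith

lemma tail_eventually {δ : ℝ} (hδ : 0 < δ) : ∀ᶠ N : ℕ in atTop, ∀ d : ℕ, 1 ≤ d → d ≤ 3 * N →
    2 ^ d.primeFactors.card / Real.sqrt ((N:ℝ) ^ (1/4 : ℝ)) ≤ δ := by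
  obtain ⟨C, hC, hCb⟩ := Pool.Agent.ANT.pow_omega_le (ε := 1/16) (by norm_num) (c := 2) (by norm_num)
  have h1 : Tendsto (fun N : ℕ => 3 * C * (N:ℝ) ^ (-(1/16) : ℝ)) atTop (nhds 0) := by
    have h2 : Tendsto (fun N : ℕ => (N:ℝ) ^ (-(1/16) : ℝ)) atTop (nhds 0) :=
      (tendsto_rpow_neg_atTop (show (0:ℝ) < 1/16 by norm_num)).comp tendsto_natCast_atTop_atTop
    have := h2.const_mul (3 * C)
    rwa [mul_zero] at this
  filter_upwards [h1.eventually_le_const hδ, eventually_ge_atTop 1] with N hN hN1 d hd1 hd2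
  have hN0 : (0:ℝ) < N := by exact_mod_cast hN1
  have e1 : Real.sqrt ((N:ℝ) ^ (1/4 : ℝ)) = (N:ℝ) ^ (1/8 : ℝ) := by
    rw [Real.sqrt_eq_rpow, ← Real.rpow_mul hN0.le]
    norm_num
  rw [e1]
  have h3 := hCb d (by omega)
  have h4 : (d:ℝ) ^ (1/16 : ℝ) ≤ 3 * (N:ℝ) ^ (1/16 : ℝ) := by
    have h5 : (d:ℝ) ≤ 3 * N := by exact_mod_cast hd2
    calc (d:ℝ) ^ (1/16 : ℝ) ≤ (3 * (N:ℝ)) ^ (1/16 : ℝ) :=
          Real.rpow_le_rpow (Nat.cast_nonneg d) h5 (by norm_num)
      _ = (3:ℝ) ^ (1/16 : ℝ) * (N:ℝ) ^ (1/16 : ℝ) := Real.mul_rpow (by norm_num) hN0.le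
      _ ≤ 3 * (N:ℝ) ^ (1/16 : ℝ) := by
          refine mul_le_mul_of_nonneg_right ?_ (by positivity)
          calc (3:ℝ) ^ (1/16 : ℝ) ≤ (3:ℝ) ^ (1 : ℝ) :=
                Real.rpow_le_rpow_of_exponent_le (by norm_num) (by norm_num)
            _ = 3 := Real.rpow_one 3
  rw [div_le_iff₀ (by positivity)]
  calc (2:ℝ) ^ d.primeFactors.card ≤ C * (d:ℝ) ^ (1/16 : ℝ) := h3
    _ ≤ C * (3 * (N:ℝ) ^ (1/16 : ℝ)) := by gcongr
    _ = 3 * C * (N:ℝ) ^ (-(1/16) : ℝ) * (N:ℝ) ^ (1/8 : ℝ) := by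
        rw [mul_assoc (3 * C), ← Real.rpow_add hN0]
        norm_num
        ring
    _ ≤ δ * (N:ℝ) ^ (1/8 : ℝ) := by gcongr

lemma nth_prime_gt (M t : ℕ) : M < Nat.nth Nat.Prime (M + t) := by
  have h1 := (Nat.nth_strictMono Nat.infinite_setOfPred_prime).le_apply (x := M + t)
  have h2 : Nat.nth Nat.Prime (M + t) ≠ M + t ∨ 0 < t ∨ M + t < Nat.nth Nat.Prime (M + t) := by
    by_cases h : 0 < t
    · exact Or.inr (Or.inl h)
    · have := Nat.add_two_le_nth_prime (M + t)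
      exact Or.inr (Or.inr (by omega))
  have := Nat.add_two_le_nth_prime (M + t)
  omega

theorem cluster_measure {Δ : ℕ} (hΔ : 1 ≤ Δ) {ε : ℝ} (hε : 0 < ε) :
    ∃ g : ℕ, 1 ≤ g ∧ 2 ∣ g ∧ (∀ l, l.Prime → l ∣ Δ → l ∣ g) ∧ ∃ M : ℝ, 1 ≤ M ∧
      ∀ n0 a0 r : ℕ, a0.Coprime g → ∀ᶠ N : ℕ in atTop, ∃ ν : ℕ → ℝ, (∀ n, 0 ≤ ν n) ∧
        (∀ n, ν n ≠ 0 → ((1 ≤ n ∧ n ≤ 3 * N) ∧ pr n ≤ 3 * N) ∧ n0 ≤ n ∧ n ≡ r [MOD g * Δ] ∧
          pr n ≡ a0 [MOD g]) ∧
        ∑ n ∈ Icc 1 (3 * N), ν n = 1 ∧ (∀ n, ν n ≤ M * (N:ℝ) ^ (-(1/4) : ℝ)) ∧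
        ∑ m ∈ Icc 1 (3 * N), ∑ n ∈ Icc 1 (3 * N), ν m * ν n * (if m = n then 0 else
          ∏ l ∈ (dd (pr m) (pr n)).primeFactors.filter (fun l => ¬ l ∣ g),
            ((l:ℝ) / ((l:ℝ) - 1))) ≤ 1 + ε := by
  classical
  set δ : ℝ := min (1/8) (ε/8) with hδ
  have hδ0 : 0 < δ := lt_min (by norm_num) (by positivity)
  have hδ1 : δ ≤ 1/8 := min_le_left _ _
  have hδ2 : δ ≤ ε/8 := min_le_right _ _
  set z3 := max Δ (⌈1/δ⌉₊ + 2) with hz3
  have hz3Δ : Δ ≤ z3 := le_max_left _ _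
  have hz3δ : ⌈1/δ⌉₊ + 2 ≤ z3 := le_max_right _ _
  have hz32 : 2 ≤ z3 := by omega
  set g := PP z3 with hg
  have hg0 : 1 ≤ g := PP_pos z3
  have hgd : ∀ l, l.Prime → (l ∣ g ↔ l ≤ z3) := fun l hl => dvd_PP hl
  have hg2 : 2 ∣ g := (hgd 2 Nat.prime_two).2 hz32
  obtain ⟨k, K0, hk1, hmay⟩ := maynard (θ := 1/4) (by norm_num) (by norm_num)
    (bvHyp (by norm_num)) (g * Δ)
  set K1 := max (max K0 z3) (max ((k+1)^2) ⌈2 * k * ((k:ℝ)+1)^3 / δ⌉₊) with hK1
  have hK1a : K0 ≤ K1 := (le_max_left _ _).trans (le_max_left _ _)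
  have hK1b : z3 ≤ K1 := (le_max_right _ _).trans (le_max_left _ _)
  have hK1c : (k+1)^2 ≤ K1 := (le_max_left _ _).trans (le_max_right _ _)
  have hK1d : ⌈2 * k * ((k:ℝ)+1)^3 / δ⌉₊ ≤ K1 := (le_max_right _ _).trans (le_max_right _ _)
  have hK1pos : 1 ≤ K1 := by omega
  have hK1r : (0:ℝ) < K1 := by exact_mod_cast hK1pos
  have hδK : 2 * k * ((k:ℝ) + 1) ^ 3 / K1 ≤ δ := by
    have h1 : 2 * k * ((k:ℝ)+1)^3 / δ ≤ K1 := (Nat.le_ceil _).trans (by exact_mod_cast hK1d)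
    rw [div_le_iff₀ hδ0] at h1
    rw [div_le_iff₀ hK1r]
    linarith
  set S := (Ioc z3 K1).filter Nat.Prime with hS
  have hSp : ∀ l ∈ S, l.Prime := fun l hl => (mem_filter.1 hl).2
  set D' := ∏ l ∈ S, l with hD'
  have hD'0 : 0 < D' := prod_pos fun l hl => (hSp l hl).pos
  have hD'd : ∀ l, l.Prime → (l ∣ D' ↔ l ∈ S) := by
    intro l hl
    constructor
    · intro h
      obtain ⟨l', hl', h3⟩ := (hl.prime.dvd_finsetProd_iff _).1 h
      rwa [(Nat.prime_dvd_prime_iff_eq hl (hSp l' hl')).1 h3]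
    · intro h
      exact dvd_prod_of_mem _ h
  have hgD' : D'.Coprime g := by
    refine Nat.Coprime.prod_left fun l hl => ?_
    rw [(hSp l hl).coprime_iff_not_dvd, hgd l (hSp l hl)]
    rw [hS, mem_filter, mem_Ioc] at hl
    omega
  set D := g * D' with hD
  have hD0 : 1 ≤ D := Nat.mul_pos hg0 hD'0
  have hDd : ∀ l, l.Prime → (l ∣ D ↔ l ≤ K1) := by
    intro l hl
    rw [hD, hl.dvd_mul, hgd l hl, hD'd l hl, hS, mem_filter, mem_Ioc]
    constructor
    · rintro (h | h)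
      · omega
      · omega
    · intro h
      by_cases h2 : l ≤ z3
      · exact Or.inl h2
      · exact Or.inr ⟨⟨by omega, h⟩, hl⟩
  set T := (range ((k-1)*D+1)).filter (fun t => ¬ D ∣ t) with hT
  set M0 := k*D + K1 + ⌈(T.card:ℝ)/δ⌉₊ + 1 with hM0
  set ℓ : ℕ → ℕ := fun t => Nat.nth Nat.Prime (M0 + t) with hℓ
  have hℓp : ∀ t, (ℓ t).Prime := fun t => Nat.prime_nth_prime _
  have hℓgt : ∀ t, M0 < ℓ t := fun t => nth_prime_gt M0 t
  have hℓinj : Set.InjOn ℓ T := by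
    intro a _ b _ hab
    have := (Nat.nth_strictMono Nat.infinite_setOfPred_prime).injective hab
    omega
  have hℓD : ∀ t ∈ T, ¬ ℓ t ∣ D := by
    intro t _ h
    rw [hDd _ (hℓp t)] at h
    have := hℓgt t
    omega
  set W := D * ∏ t ∈ T, ℓ t with hW
  have hW0 : 0 < W := Nat.mul_pos hD0 (prod_pos fun t _ => (hℓp t).pos)
  have hDW : D ∣ W := dvd_mul_right _ _
  have hgD : g ∣ D := dvd_mul_right _ _
  have hD'D : D' ∣ D := dvd_mul_left _ _
  have hWK1 : ∀ l, l.Prime → l ≤ K1 → l ∣ W := fun l hl h => ((hDd l hl).2 h).trans hDW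
  have hℓW : ∀ t ∈ T, ℓ t ∣ W := fun t ht => (dvd_prod_of_mem _ ht).mul_left _
  have hWprimes : ∀ l, l.Prime → l ∣ W → l ∣ D ∨ ∃ t ∈ T, l = ℓ t := by
    intro l hl h
    rw [hW, hl.dvd_mul] at h
    rcases h with h | h
    · exact Or.inl h
    · obtain ⟨t, ht, h3⟩ := (hl.prime.dvd_finsetProd_iff _).1 h
      exact Or.inr ⟨t, ht, (Nat.prime_dvd_prime_iff_eq hl (hℓp t)).1 h3⟩
  have hW2 : 2 ∣ W := hWK1 2 Nat.prime_two (by omega)
  have hTprod : ∏ l ∈ T.image ℓ, ((l:ℝ) / ((l:ℝ) - 1)) ≤ Real.exp δ := by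
    rw [prod_image hℓinj]
    have h1 : ∏ t ∈ T, (((ℓ t : ℕ):ℝ) / (((ℓ t : ℕ):ℝ) - 1)) ≤ Real.exp (∑ t ∈ T, 1 / (((ℓ t : ℕ):ℝ) - 1)) := by
      rw [Real.exp_sum]
      refine prod_le_prod (fun t _ => by have := ratio_ge_one (hℓp t); linarith) fun t _ => ?_
      rw [ratio_eq (hℓp t), add_comm]
      exact Real.add_one_le_exp _
    refine h1.trans (Real.exp_le_exp.2 ?_)
    have hM0r : (T.card:ℝ)/δ ≤ M0 := by
      refine (Nat.le_ceil _).trans ?_
      exact_mod_cast (by omega : ⌈(T.card:ℝ)/δ⌉₊ ≤ M0)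
    have hM0pos : (0:ℝ) < M0 := by exact_mod_cast (by omega : 0 < M0)
    calc ∑ t ∈ T, 1 / (((ℓ t : ℕ):ℝ) - 1) ≤ ∑ _t ∈ T, 1 / (M0:ℝ) := by
          refine sum_le_sum fun t _ => ?_
          have h2 : (M0:ℝ) + 1 ≤ (ℓ t : ℕ) := by exact_mod_cast hℓgt t
          exact one_div_le_one_div_of_le hM0pos (by linarith)
      _ = T.card / M0 := by rw [sum_const, nsmul_eq_mul]; ring
      _ ≤ δ := by
          rw [div_le_iff₀ hδ0] at hM0r
          rw [div_le_iff₀ hM0pos]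
          linarith
  have hSprod : ∏ l ∈ S, (1 + (1 / ((l:ℝ) - 1)) ^ 2) ≤ Real.exp δ := by
    refine (prod_sq_le_exp hz32 fun l hl => (mem_Ioc.1 (mem_filter.1 hl).1).1).trans
      (Real.exp_le_exp.2 ?_)
    have h1 : 1/δ + 2 ≤ (z3:ℝ) := by
      have h2 : ((⌈1/δ⌉₊ + 2 : ℕ) : ℝ) ≤ z3 := by exact_mod_cast hz3δ
      push_cast at h2
      linarith [Nat.le_ceil (1/δ)]
    have h3 : (0:ℝ) < 1/δ := by positivity
    have h4 : 1/δ ≤ (z3:ℝ) - 1 := by linarith
    calc 1 / ((z3:ℝ) - 1) ≤ 1 / (1/δ) := one_div_le_one_div_of_le h3 h4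
      _ = δ := by simp
  set U := (range D').filter (fun c' => c'.Coprime D') with hU
  have hUcard : U.card = D'.totient := by
    rw [Nat.totient_eq_card_coprime, hU]
    congr 1
    refine filter_congr fun x _ => ?_
    rw [Nat.coprime_comm]
  have hUpos : (0:ℝ) < U.card := by
    rw [hUcard]
    exact_mod_cast Nat.totient_pos.2 hD'0
  have hUi : 0 ≤ 1 / (U.card : ℝ) := one_div_nonneg.2 hUpos.le
  have hUi2 : 0 ≤ (1 / (U.card : ℝ)) ^ 2 := pow_nonneg hUi 2
  refine ⟨g, hg0, hg2, fun l hl h => (hgd l hl).2 ((Nat.le_of_dvd hΔ h).trans hz3Δ), (k:ℝ),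
    by exact_mod_cast hk1, fun n0 a0 r ha0 => ?_⟩
  -- residues
  have hv : ∀ c : ℕ, ∃ v, v ≡ c [MOD D'] ∧ v ≡ a0 [MOD g] ∧ ∀ t ∈ T, ℓ t ∣ v + t := by
    intro c
    obtain ⟨c1, h1, h2⟩ := Nat.chineseRemainder hgD' c a0
    obtain ⟨v, hv1, hv2⟩ := exists_v (D := D) (c1 := c1) T ℓ (fun t _ => hℓp t) hℓinj hℓD
    exact ⟨v, (hv1.of_dvd hD'D).trans h1, (hv1.of_dvd hgD).trans h2, hv2⟩
  choose v hvc hva hvT using hv
  set h : Fin k → ℕ := fun i => (i:ℕ) * D with hh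
  have hcop : ∀ c ∈ U, ∀ i : Fin k, (v c + h i).Coprime W := by
    intro c hc i
    rw [hU, mem_filter] at hc
    rw [hW]
    refine Nat.Coprime.mul_right ?_ ?_
    · have h1 : (v c).Coprime D := by
        rw [hD]
        refine Nat.Coprime.mul_right ?_ ?_
        · exact (Nat.ModEq.gcd_eq (hva c)).trans ha0
        · exact (Nat.ModEq.gcd_eq (hvc c)).trans hc.2
      simp only [hh]
      exact (Nat.coprime_add_mul_right_left _ _ _).2 h1
    · refine Nat.Coprime.prod_right fun t ht => ?_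
      rw [Nat.coprime_comm, (hℓp t).coprime_iff_not_dvd]
      intro hdvd
      have h1 := hvT c t ht
      have h2 : v c + t ≡ v c + h i [MOD ℓ t] :=
        (Nat.modEq_zero_iff_dvd.2 h1).trans (Nat.modEq_zero_iff_dvd.2 hdvd).symm
      have h3 : t ≡ h i [MOD ℓ t] := Nat.ModEq.add_left_cancel' _ h2
      rw [hT, mem_filter, mem_range] at ht
      have h4 : (k - 1) * D ≤ k * D := Nat.mul_le_mul_right D (by omega)
      have h5 : h i ≤ k * D := Nat.mul_le_mul_right D i.2.le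
      have h6 := hℓgt t
      have h7 : t = h i := Nat.ModEq.eq_of_lt_of_lt h3 (by omega) (by omega)
      exact ht.2 (h7 ▸ dvd_mul_left _ _)
  have hmay' := hmay W hW0 (fun p hp hlt => hWK1 p hp (by omega)) h (by
    intro p hp hpW i j hij hmod
    have hpD : ¬ p ∣ D := fun h => hpW (h.trans hDW)
    have hpK : K1 < p := by
      by_contra hle
      push Not at hle
      exact hpD ((hDd p hp).2 hle)
    simp only [hh] at hmod
    have h1 : (i:ℕ) ≡ j [MOD p] := by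
      refine Nat.ModEq.cancel_right_of_coprime ?_ hmod
      exact hp.coprime_iff_not_dvd.2 hpD
    have h2 : (k:ℕ) ≤ K1 := (Nat.le_succ k).trans ((Nat.le_self_pow two_ne_zero (k + 1)).trans hK1c)
    have h3 := Nat.ModEq.eq_of_lt_of_lt h1 (by have := i.2; omega) (by have := j.2; omega)
    exact hij (Fin.ext h3))
  filter_upwards [hmay', eventually_ge_atTop (W + pr n0 + k * D + 1), tail_eventually hδ0]
    with N hN hNW htail
  have hN1 : 1 ≤ N := by omega
  have hN0 : (0:ℝ) < N := by exact_mod_cast hN1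
  have hN1r : (1:ℝ) ≤ N := by exact_mod_cast hN1
  set η := (N:ℝ) ^ (-(1/4) : ℝ) with hη
  have hη0 : 0 ≤ η := by positivity
  have hu : ∀ c : ℕ, ∃ u : ℕ → ℝ, c ∈ U → (∀ n, 0 ≤ u n) ∧
          (∀ n, u n ≠ 0 → N < n ∧ n ≤ 2 * N ∧ n ≡ v c [MOD W] ∧ g * Δ ≤ npr h n) ∧
          ∑ n ∈ Finset.Ioc N (2 * N), u n = 1 ∧
          (∀ n, u n ≤ (N:ℝ) ^ (-(1/4) : ℝ)) ∧
          ∀ q : ℕ, 0 < q → (q:ℝ) ≤ (N:ℝ) ^ (1/4 : ℝ) → W.Coprime q → ∀ c : ℕ,
            ∑ n ∈ (Finset.Ioc N (2 * N)).filter (fun n => n ≡ c [MOD q]), u n ≤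
              ((k:ℝ) + 1) ^ (2 * q.primeFactors.card + 1) / q := by
    intro c
    by_cases hc : c ∈ U
    · obtain ⟨u, hu⟩ := hN (v c) (hcop c hc)
      exact ⟨u, fun _ => hu⟩
    · exact ⟨fun _ => 0, fun h => absurd h hc⟩
  choose u hu using hu
  set X := Ioc N (2 * N) with hX
  -- the index
  have hex : ∀ x, (∃ c ∈ U, u c x ≠ 0) → ∃ n, (1 ≤ n ∧ n ≡ r [MOD g * Δ]) ∧ ∃ i, i < k ∧
      pr n = x + i * D := by
    rintro x ⟨c, hc, hx⟩
    obtain ⟨h1, h2, h3, h4⟩ := (hu c hc).2.1 x hx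
    obtain ⟨n, h5, h6, h7⟩ := exists_index (r := r) (x := x) (Nat.mul_pos hg0 hΔ) hD0 (by
      intro s hs hDs hprime
      have hsT : s ∈ T := by
        rw [hT, mem_filter, mem_range]
        exact ⟨by omega, hDs⟩
      have h8 : ℓ s ∣ x + s := by
        have h9 : x + s ≡ v c + s [MOD ℓ s] := (h3.of_dvd (hℓW s hsT)).add_right _
        exact (Nat.ModEq.dvd_iff h9 dvd_rfl).2 (hvT c s hsT)
      have h10 : ℓ s ≤ W := Nat.le_of_dvd hW0 (hℓW s hsT)
      have h11 := (Nat.prime_dvd_prime_iff_eq (hℓp s) hprime).1 h8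
      omega) h4
    exact ⟨n, ⟨h5, h6⟩, h7⟩
  choose! idx hidx using hex
  have hXidx : ∀ c ∈ U, ∀ x ∈ X, u c x ≠ 0 → (1 ≤ idx x ∧ pr (idx x) ≤ 3 * N) ∧
      ∃ i, i < k ∧ pr (idx x) = x + i * D := by
    intro c hc x hx h0
    obtain ⟨⟨h1, -⟩, i, hi, h3⟩ := hidx x ⟨c, hc, h0⟩
    refine ⟨⟨h1, ?_⟩, i, hi, h3⟩
    rw [hX, mem_Ioc] at hx
    have : i * D ≤ k * D := Nat.mul_le_mul_right D hi.le
    omega
  -- the measure
  set μ : ℕ → ℝ := fun x => (1 / (U.card : ℝ)) * ∑ c ∈ U, u c x with hμ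
  have hμ0 : ∀ x, 0 ≤ μ x := fun x => mul_nonneg hUi
    (sum_nonneg fun c hc => (hu c hc).1 x)
  have hμle : ∀ x, μ x ≤ η := by
    intro x
    have h1 : ∑ c ∈ U, u c x ≤ ∑ _c ∈ U, η := sum_le_sum fun c hc => (hu c hc).2.2.2.1 x
    rw [sum_const, nsmul_eq_mul] at h1
    calc μ x ≤ (1 / (U.card : ℝ)) * (U.card * η) := mul_le_mul_of_nonneg_left h1 hUi
      _ = η := by rw [one_div, inv_mul_cancel_left₀ hUpos.ne']
  have hμ1 : ∑ x ∈ X, μ x = 1 := by
    simp only [hμ]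
    rw [← mul_sum, sum_comm, sum_congr rfl fun c hc => (hu c hc).2.2.1, sum_const, nsmul_eq_mul,
      mul_one, one_div, inv_mul_cancel₀ hUpos.ne']
  have hμsupp : ∀ x, μ x ≠ 0 → ∃ c ∈ U, u c x ≠ 0 := by
    intro x hx
    by_contra hcon
    push Not at hcon
    apply hx
    simp only [hμ]
    rw [sum_eq_zero hcon, mul_zero]
  have hgood : ∀ x ∈ X, μ x ≠ 0 → ((1 ≤ idx x ∧ idx x ≤ 3 * N) ∧ pr (idx x) ≤ 3 * N) ∧ n0 ≤ idx x ∧
      idx x ≡ r [MOD g * Δ] ∧ pr (idx x) ≡ a0 [MOD g] := by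
    intro x hx h0
    obtain ⟨c, hc, hcx⟩ := hμsupp x h0
    obtain ⟨⟨h1, h2⟩, i, hi, h3⟩ := hXidx c hc x hx hcx
    obtain ⟨⟨-, h4⟩, -⟩ := hidx x ⟨c, hc, hcx⟩
    obtain ⟨h5, h6, h7, h8⟩ := (hu c hc).2.1 x hcx
    have h9 : idx x ≤ pr (idx x) := by
      unfold pr
      have := Nat.add_two_le_nth_prime (idx x - 1)
      omega
    refine ⟨⟨⟨h1, h9.trans h2⟩, h2⟩, ?_, h4, ?_⟩
    · by_contra hlt
      push Not at hlt
      have := pr_mono hlt.le
      omega
    · rw [h3]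
      have h10 : x + i * D ≡ x [MOD g] := by
        have : i * D ≡ 0 [MOD g] := Nat.modEq_zero_iff_dvd.2 (hgD.mul_left i)
        simpa using this.add_left x
      exact h10.trans ((h7.of_dvd (hgD.trans hDW)).trans (hva c))
  set ν : ℕ → ℝ := fun n => ∑ x ∈ X, if idx x = n then μ x else 0 with hν
  refine ⟨ν, fun n => sum_nonneg fun x _ => ?_, ?_, ?_, ?_, ?_⟩
  · split_ifs
    · exact hμ0 x
    · exact le_rfl
  · intro n hn
    have : ∃ x ∈ X, idx x = n ∧ μ x ≠ 0 := by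
      by_contra hcon
      push Not at hcon
      apply hn
      simp only [hν]
      refine sum_eq_zero fun x hx => ?_
      split_ifs with h1
      · exact hcon x hx h1
      · rfl
    obtain ⟨x, hx, rfl, h0⟩ := this
    exact hgood x hx h0
  · simp only [hν]
    rw [sum_comm, ← hμ1]
    refine sum_congr rfl fun x hx => ?_
    rw [sum_ite_eq]
    split_ifs with h1
    · rfl
    · by_contra h2
      obtain ⟨h3, -⟩ := hgood x hx (Ne.symm h2)
      exact h1 (mem_Icc.2 h3.1)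
  · intro n
    simp only [hν]
    rw [← sum_filter]
    have h1 : ∑ x ∈ X.filter (fun x => idx x = n), μ x ≤
        ∑ x ∈ (range k).image (fun i => pr n - i * D), μ x := by
      have h2 : ∑ x ∈ X.filter (fun x => idx x = n), μ x =
          ∑ x ∈ (X.filter (fun x => idx x = n)).filter (fun x => μ x ≠ 0), μ x := by
        rw [sum_filter_ne_zero]
      rw [h2]
      refine sum_le_sum_of_subset_of_nonneg ?_ fun x _ _ => hμ0 x
      intro x hx
      rw [mem_filter, mem_filter] at hx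
      obtain ⟨c, hc, hcx⟩ := hμsupp x hx.2
      obtain ⟨-, i, hi, h3⟩ := hXidx c hc x hx.1.1 hcx
      rw [mem_image]
      refine ⟨i, mem_range.2 hi, ?_⟩
      rw [← hx.1.2, h3]
      omega
    refine h1.trans ?_
    calc ∑ x ∈ (range k).image (fun i => pr n - i * D), μ x ≤
          ∑ _x ∈ (range k).image (fun i => pr n - i * D), η := sum_le_sum fun x _ => hμle x
      _ = ((range k).image (fun i => pr n - i * D)).card * η := by rw [sum_const, nsmul_eq_mul]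
      _ ≤ k * η := by
          refine mul_le_mul_of_nonneg_right ?_ hη0
          exact_mod_cast card_image_le.trans (card_range k).le
  · -- correlations
    have hFnn : ∀ m n : ℕ, 0 ≤ (if m = n then 0 else
          ∏ l ∈ (dd (pr m) (pr n)).primeFactors.filter (fun l => ¬ l ∣ g),
            ((l:ℝ) / ((l:ℝ) - 1))) := by
      intro m n
      split_ifs
      · exact le_rfl
      · exact zero_le_one.trans (one_le_prod_ratio fun l hl =>
          Nat.prime_of_mem_primeFactors (mem_filter.1 hl).1)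
    refine (push_double (I := Icc 1 (3 * N)) (X := X) hμ0 idx hFnn).trans ?_
    -- expand over the residues
    have hexpand : ∑ x ∈ X, ∑ x' ∈ X, μ x * μ x' * (if idx x = idx x' then 0 else
          ∏ l ∈ (dd (pr (idx x)) (pr (idx x'))).primeFactors.filter (fun l => ¬ l ∣ g),
            ((l:ℝ) / ((l:ℝ) - 1))) =
        (1 / (U.card : ℝ)) ^ 2 * ∑ c ∈ U, ∑ c' ∈ U, ∑ x ∈ X, ∑ x' ∈ X, u c x * u c' x' *
          (if idx x = idx x' then 0 else
          ∏ l ∈ (dd (pr (idx x)) (pr (idx x'))).primeFactors.filter (fun l => ¬ l ∣ g),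
            ((l:ℝ) / ((l:ℝ) - 1))) := by
      set F : ℕ → ℕ → ℝ := fun x x' => (if idx x = idx x' then 0 else
          ∏ l ∈ (dd (pr (idx x)) (pr (idx x'))).primeFactors.filter (fun l => ¬ l ∣ g),
            ((l:ℝ) / ((l:ℝ) - 1))) with hF
      change ∑ x ∈ X, ∑ x' ∈ X, μ x * μ x' * F x x' = (1 / (U.card : ℝ)) ^ 2 *
        ∑ c ∈ U, ∑ c' ∈ U, ∑ x ∈ X, ∑ x' ∈ X, u c x * u c' x' * F x x'
      have h1 : ∀ x ∈ X, ∀ x' ∈ X, μ x * μ x' * F x x' = (1 / (U.card : ℝ)) ^ 2 *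
          ∑ c ∈ U, ∑ c' ∈ U, u c x * u c' x' * F x x' := by
        intro x _ x' _
        simp only [hμ]
        have : ∑ c ∈ U, ∑ c' ∈ U, u c x * u c' x' * F x x' =
            (∑ c ∈ U, u c x) * (∑ c' ∈ U, u c' x') * F x x' := by
          rw [sum_mul_sum, sum_mul]
          exact sum_congr rfl fun c _ => by rw [sum_mul]
        rw [this]; ring
      rw [sum_congr rfl fun x hx => sum_congr rfl fun x' hx' => h1 x hx x' hx']
      simp_rw [← mul_sum]
      refine congrArg (fun y => (1 / (U.card : ℝ)) ^ 2 * y) ?_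
      calc ∑ x ∈ X, ∑ x' ∈ X, ∑ c ∈ U, ∑ c' ∈ U, u c x * u c' x' * F x x' =
            ∑ x ∈ X, ∑ c ∈ U, ∑ x' ∈ X, ∑ c' ∈ U, u c x * u c' x' * F x x' :=
            sum_congr rfl fun x _ => sum_comm
        _ = ∑ c ∈ U, ∑ x ∈ X, ∑ x' ∈ X, ∑ c' ∈ U, u c x * u c' x' * F x x' := sum_comm
        _ = ∑ c ∈ U, ∑ x ∈ X, ∑ c' ∈ U, ∑ x' ∈ X, u c x * u c' x' * F x x' :=
            sum_congr rfl fun c _ => sum_congr rfl fun x _ => sum_comm
        _ = _ := sum_congr rfl fun c _ => sum_comm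
    rw [hexpand]
    -- each pair of residues
    have hpair : ∀ c ∈ U, ∀ c' ∈ U, ∑ x ∈ X, ∑ x' ∈ X, u c x * u c' x' *
          (if idx x = idx x' then 0 else
          ∏ l ∈ (dd (pr (idx x)) (pr (idx x'))).primeFactors.filter (fun l => ¬ l ∣ g),
            ((l:ℝ) / ((l:ℝ) - 1))) ≤
        (∏ l ∈ S.filter (fun l => c ≡ c' [MOD l]), ((l:ℝ) / ((l:ℝ) - 1))) *
          (Real.exp δ * (1 + 2 * δ)) := by
      intro c hc c' hc'
      set F2 := ∏ l ∈ S.filter (fun l => c ≡ c' [MOD l]), ((l:ℝ) / ((l:ℝ) - 1)) with hF2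
      have hF2pos : 1 ≤ F2 := one_le_prod_ratio fun l hl => hSp l (mem_filter.1 hl).1
      have hb := pair_bound (X := X) (u := u c) (u' := u c') (hu c hc).1 (hu c' hc').1
        (hu c hc).2.2.1 (hu c' hc').2.2.1 (idx := idx) (W := W) (K1 := K1) (k := k) (N := N) (D := D)
        hW2 (hXidx c hc) (fun x hx h0 => (hXidx c' hc' x hx h0).1)
        (Y := (N:ℝ) ^ (1/4 : ℝ)) (δ := δ) (Real.one_le_rpow hN1r (by norm_num))
        (hu c hc).2.2.2.2 hWK1 hK1c hδK htail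
      have hpt : ∀ x ∈ X, ∀ x' ∈ X, u c x * u c' x' *
          (if idx x = idx x' then 0 else
          ∏ l ∈ (dd (pr (idx x)) (pr (idx x'))).primeFactors.filter (fun l => ¬ l ∣ g),
            ((l:ℝ) / ((l:ℝ) - 1))) ≤ (F2 * Real.exp δ) * (u c x * u c' x' *
          (if idx x = idx x' then 0 else
          ∏ l ∈ (dd (pr (idx x)) (pr (idx x'))).primeFactors.filter (fun l => ¬ l ∣ W),
            ((l:ℝ) / ((l:ℝ) - 1)))) := by
        intro x hx x' hx'
        by_cases h0 : u c x = 0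
        · rw [h0]; simp
        by_cases h0' : u c' x' = 0
        · rw [h0']; simp
        split_ifs with heq
        · simp
        · obtain ⟨-, i, hi, h3⟩ := hXidx c hc x hx h0
          obtain ⟨-, i', hi', h3'⟩ := hXidx c' hc' x' hx' h0'
          have hxv := ((hu c hc).2.1 x h0).2.2.1
          have hxv' := ((hu c' hc').2.1 x' h0').2.2.1
          set d := dd (pr (idx x)) (pr (idx x')) with hd
          have hsub : d.primeFactors.filter (fun l => ¬ l ∣ g) ⊆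
              (S.filter (fun l => c ≡ c' [MOD l]) ∪ T.image ℓ) ∪
                d.primeFactors.filter (fun l => ¬ l ∣ W) := by
            intro l hl
            rw [mem_filter] at hl
            have hlp := Nat.prime_of_mem_primeFactors hl.1
            have hld := Nat.dvd_of_mem_primeFactors hl.1
            rw [mem_union, mem_union]
            by_cases hlW : l ∣ W
            · left
              rcases hWprimes l hlp hlW with h4 | ⟨t, ht, rfl⟩
              · left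
                have hlS : l ∈ S := by
                  rw [hD, hlp.dvd_mul] at h4
                  rcases h4 with h4 | h4
                  · exact absurd h4 hl.2
                  · exact (hD'd l hlp).1 h4
                rw [mem_filter]
                refine ⟨hlS, ?_⟩
                have hlD' : l ∣ D' := (hD'd l hlp).2 hlS
                have hlD : l ∣ D := hlD'.trans hD'D
                have h5 : pr (idx x) ≡ pr (idx x') [MOD l] := dvd_dd.1 hld
                have h6 : ∀ y j : ℕ, y + j * D ≡ y [MOD l] := by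
                  intro y j
                  have : j * D ≡ 0 [MOD l] := Nat.modEq_zero_iff_dvd.2 (hlD.mul_left j)
                  simpa using this.add_left y
                rw [h3, h3'] at h5
                have h7 : x ≡ x' [MOD l] := (h6 x i).symm.trans (h5.trans (h6 x' i'))
                have h8 : x ≡ c [MOD l] := (hxv.of_dvd hlW).trans ((hvc c).of_dvd hlD')
                have h9 : x' ≡ c' [MOD l] := (hxv'.of_dvd hlW).trans ((hvc c').of_dvd hlD')
                exact h8.symm.trans (h7.trans h9)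
              · right
                exact mem_image_of_mem _ ht
            · right
              rw [mem_filter]
              exact ⟨hl.1, hlW⟩
          have hr1 : ∀ l ∈ S.filter (fun l => c ≡ c' [MOD l]), (1:ℝ) ≤ (l:ℝ) / ((l:ℝ) - 1) :=
            fun l hl => ratio_ge_one (hSp l (mem_filter.1 hl).1)
          have hr2 : ∀ l ∈ T.image ℓ, (1:ℝ) ≤ (l:ℝ) / ((l:ℝ) - 1) := by
            intro l hl
            rw [mem_image] at hl
            obtain ⟨t, -, rfl⟩ := hl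
            exact ratio_ge_one (hℓp t)
          have hr3 : ∀ l ∈ d.primeFactors.filter (fun l => ¬ l ∣ W), (1:ℝ) ≤ (l:ℝ) / ((l:ℝ) - 1) :=
            fun l hl => ratio_ge_one (Nat.prime_of_mem_primeFactors (mem_filter.1 hl).1)
          have hr12 : ∀ l ∈ S.filter (fun l => c ≡ c' [MOD l]) ∪ T.image ℓ,
              (1:ℝ) ≤ (l:ℝ) / ((l:ℝ) - 1) := by
            intro l hl
            rcases mem_union.1 hl with h | h
            · exact hr1 l h
            · exact hr2 l h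
          have h10 := prod_mono_set hsub (f := fun l => (l:ℝ) / ((l:ℝ) - 1)) (by
            intro l hl
            rcases mem_union.1 hl with h | h
            · exact hr12 l h
            · exact hr3 l h)
          have h11 := prod_union_le hr12 hr3
          have h12 := prod_union_le hr1 hr2
          have hP3 : 0 ≤ ∏ l ∈ d.primeFactors.filter (fun l => ¬ l ∣ W), ((l:ℝ) / ((l:ℝ) - 1)) :=
            prod_nonneg fun l hl => by linarith [hr3 l hl]
          have h13 : ∏ l ∈ S.filter (fun l => c ≡ c' [MOD l]) ∪ T.image ℓ, ((l:ℝ) / ((l:ℝ) - 1)) ≤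
              F2 * Real.exp δ := h12.trans (mul_le_mul_of_nonneg_left hTprod (by linarith))
          have h14 : ∏ l ∈ d.primeFactors.filter (fun l => ¬ l ∣ g), ((l:ℝ) / ((l:ℝ) - 1)) ≤
              (F2 * Real.exp δ) *
              ∏ l ∈ d.primeFactors.filter (fun l => ¬ l ∣ W), ((l:ℝ) / ((l:ℝ) - 1)) :=
            h10.trans (h11.trans (mul_le_mul_of_nonneg_right h13 hP3))
          have huu := mul_nonneg ((hu c hc).1 x) ((hu c' hc').1 x')
          calc _ ≤ u c x * u c' x' * ((F2 * Real.exp δ) *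
              ∏ l ∈ d.primeFactors.filter (fun l => ¬ l ∣ W), ((l:ℝ) / ((l:ℝ) - 1))) :=
                mul_le_mul_of_nonneg_left h14 huu
            _ = _ := by ring
      calc _ ≤ ∑ x ∈ X, ∑ x' ∈ X, (F2 * Real.exp δ) * (u c x * u c' x' *
          (if idx x = idx x' then 0 else
          ∏ l ∈ (dd (pr (idx x)) (pr (idx x'))).primeFactors.filter (fun l => ¬ l ∣ W),
            ((l:ℝ) / ((l:ℝ) - 1)))) := sum_le_sum fun x hx => sum_le_sum fun x' hx' => hpt x hx x' hx'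
        _ = (F2 * Real.exp δ) * ∑ x ∈ X, ∑ x' ∈ X, (u c x * u c' x' *
          (if idx x = idx x' then 0 else
          ∏ l ∈ (dd (pr (idx x)) (pr (idx x'))).primeFactors.filter (fun l => ¬ l ∣ W),
            ((l:ℝ) / ((l:ℝ) - 1)))) := by
            rw [mul_sum]
            exact sum_congr rfl fun x _ => by rw [mul_sum]
        _ ≤ (F2 * Real.exp δ) * (1 + 2 * δ) :=
            mul_le_mul_of_nonneg_left hb (by have := Real.exp_pos δ; positivity)
        _ = _ := by ring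
    have hcorr := unit_correlation hSp
    rw [← hD', ← hU, ← hUcard] at hcorr
    have hE : 0 ≤ Real.exp δ * (1 + 2 * δ) := by positivity
    calc (1 / (U.card : ℝ)) ^ 2 * ∑ c ∈ U, ∑ c' ∈ U, ∑ x ∈ X, ∑ x' ∈ X, u c x * u c' x' *
          (if idx x = idx x' then 0 else
          ∏ l ∈ (dd (pr (idx x)) (pr (idx x'))).primeFactors.filter (fun l => ¬ l ∣ g),
            ((l:ℝ) / ((l:ℝ) - 1))) ≤
        (1 / (U.card : ℝ)) ^ 2 * ∑ c ∈ U, ∑ c' ∈ U,
        (∏ l ∈ S.filter (fun l => c ≡ c' [MOD l]), ((l:ℝ) / ((l:ℝ) - 1))) *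
          (Real.exp δ * (1 + 2 * δ)) := by
          refine mul_le_mul_of_nonneg_left ?_ hUi2
          exact sum_le_sum fun c hc => sum_le_sum fun c' hc' => hpair c hc c' hc'
      _ = (1 / (U.card : ℝ)) ^ 2 * ((∑ c ∈ U, ∑ c' ∈ U,
        (∏ l ∈ S.filter (fun l => c ≡ c' [MOD l]), ((l:ℝ) / ((l:ℝ) - 1)))) *
          (Real.exp δ * (1 + 2 * δ))) := by
          refine congrArg (fun y => (1 / (U.card : ℝ)) ^ 2 * y) ?_
          rw [sum_mul]
          exact sum_congr rfl fun c _ => by rw [sum_mul]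
      _ ≤ (1 / (U.card : ℝ)) ^ 2 * (((U.card : ℝ) ^ 2 * Real.exp δ) *
          (Real.exp δ * (1 + 2 * δ))) := by
          refine mul_le_mul_of_nonneg_left ?_ hUi2
          refine mul_le_mul_of_nonneg_right ?_ hE
          exact hcorr.trans (mul_le_mul_of_nonneg_left hSprod (pow_nonneg hUpos.le 2))
      _ = ((1 / (U.card : ℝ)) * U.card) ^ 2 * (Real.exp δ ^ 2 * (1 + 2 * δ)) := by ring
      _ = Real.exp δ ^ 2 * (1 + 2 * δ) := by
          rw [one_div, inv_mul_cancel₀ hUpos.ne', one_pow, one_mul]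
      _ ≤ 1 + ε := by
          have h1 : Real.exp δ ≤ 1 + 2 * δ := by
            have h2 := Real.abs_exp_sub_one_le (x := δ) (by rw [abs_of_pos hδ0]; linarith)
            rw [abs_of_pos hδ0] at h2
            have := (le_abs_self _).trans h2
            linarith
          have h3 : 0 < Real.exp δ := Real.exp_pos δ
          have h4 : Real.exp δ ^ 2 ≤ (1 + 2 * δ) ^ 2 := pow_le_pow_left₀ h3.le h1 2
          have h5 : Real.exp δ ^ 2 * (1 + 2 * δ) ≤ (1 + 2 * δ) ^ 2 * (1 + 2 * δ) :=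
            mul_le_mul_of_nonneg_right h4 (by linarith)
          have h6 : (1 + 2 * δ) ^ 2 * (1 + 2 * δ) = 1 + δ * (6 + 12 * δ + 8 * δ ^ 2) := by ring
          have h7 : δ * (6 + 12 * δ + 8 * δ ^ 2) ≤ δ * 8 := by
            refine mul_le_mul_of_nonneg_left ?_ hδ0.le
            have h8 : δ ^ 2 ≤ (1 / 8) ^ 2 := pow_le_pow_left₀ hδ0.le hδ1 2
            norm_num at h8
            linarith only [h8, hδ1]
          linarith

end Pool.Agent.PnMaynard
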