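import Pool.Agent.PnPoly.Poly
import Pool.Agent.Lib.Maynard.Count

/-!
# Moments in a residue class

Values `B n + G (t0 + t1 n)` for `t0, t1 ≤ K`, where `B n` is coprime to the fixed modulus `G`.
-/

open Finset

namespace Pool.Agent.PnMaynard

open Pool.Agent.PnPoly

/-- the value -/
def vv (B : ℕ → ℕ) (G t0 t1 n : ℕ) : ℕ := B n + G * (t0 + t1 * n)

/-- The Siegel–Walfisz hypothesis. -/
def SWH (X Y : ℕ) (E : ℝ) : Prop :=
  ∀ x : ℕ, x ≤ X → ∀ M : ℕ, 1 ≤ M → M ≤ Y → ∀ a : ZMod M, IsUnit a → |th x M a - x / M.totient| ≤ E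

section Env

variable {K N X G : ℕ} {E : ℝ} {B : ℕ → ℕ}

lemma vv_le {t0 t1 n : ℕ} (hX : B n + G * (K + K * n) ≤ X)
    (h0 : t0 ≤ K) (h1 : t1 ≤ K) : vv B G t0 t1 n ≤ X := by
  unfold vv
  have : G * (t0 + t1 * n) ≤ G * (K + K * n) :=
    Nat.mul_le_mul_left G (add_le_add h0 (Nat.mul_le_mul_right n h1))
  omega

/-- First moment for fixed `n`, `t1`. -/
lemma first_sum (hSW : SWH X (G * N) E) (hG : 1 ≤ G) (hN : 1 ≤ N) {n t1 : ℕ}
    (hX : B n + G * (K + K * n) ≤ X)
    (hB : (B n).Coprime G) (ht1 : t1 ≤ K) :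
    |∑ t0 ∈ Ioc 0 K, w (vv B G t0 t1 n) - (G:ℝ) / G.totient * K| ≤ 2 * E := by
  set y := B n + G * (t1 * n) with hy
  have h1 : ∑ t0 ∈ Ioc 0 K, w (vv B G t0 t1 n) = ∑ j ∈ Ioc 0 K, w (y + G * j) := by
    refine sum_congr rfl fun t0 _ => ?_
    congr 1
    unfold vv
    rw [hy]; ring
  rw [h1, sum_w_ap G y K hG]
  have hunit : IsUnit (y : ZMod G) := by
    rw [ZMod.isUnit_iff_coprime, hy]
    exact (Nat.coprime_add_mul_left_left _ _ _).mpr hB
  have hG1 : G ≤ G * N := Nat.le_mul_of_pos_right G hN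
  have hle1 : y + G * K ≤ X := by
    have : G * (t1 * n) ≤ G * (K * n) := Nat.mul_le_mul_left G (Nat.mul_le_mul_right n ht1)
    have h2 : G * (K + K * n) = G * K + G * (K * n) := by ring
    omega
  have e1 := hSW (y + G * K) hle1 G hG hG1 (y : ZMod G) hunit
  have e2 := hSW y (by omega) G hG hG1 (y : ZMod G) hunit
  have e3 : ((y + G * K : ℕ) : ℝ) / G.totient - (y : ℝ) / G.totient =
      (G:ℝ) / G.totient * K := by push_cast; ring
  rw [abs_le] at e1 e2 ⊢
  constructor <;> linarith [e1.1, e1.2, e2.1, e2.2]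

/-- The inner sum of the pair correlation. -/
lemma inner_le (hE : 0 ≤ E) (hSW : SWH X (G * N) E) (hG : 1 ≤ G)
    {m n s : ℕ} (hX : B n + G * (K + K * n) ≤ X)
    (hm : 1 ≤ m) (hmn : m < n) (hn : n ≤ N) (hs : 1 ≤ s) :
    ∑ t1 ∈ (Ioc 0 K).filter (fun t1 => t1 * m < s ∧ s ≤ t1 * m + K),
      w (B n + G * s + G * (n - m) * t1) ≤
      if Nat.Coprime (B n + G * s) (G * (n - m)) then
        ((G * (n - m) : ℕ) : ℝ) / ((G * (n - m)).totient : ℝ) *
          ((Ioc 0 K).filter (fun t1 => t1 * m < s ∧ s ≤ t1 * m + K)).card + 2 * E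
      else 0 := by
  set M := G * (n - m) with hM
  have hnm : 1 ≤ n - m := by omega
  have hM1 : 1 ≤ M := by
    have := Nat.mul_le_mul hG hnm
    omega
  have hMN : M ≤ G * N := Nat.mul_le_mul_left G (by omega)
  split_ifs with hcop
  · rw [filter_eq_Ioc hm hs]
    set l := (s - K - 1) / m
    set h := min K ((s - 1) / m) with hh
    rcases Nat.lt_or_ge l h with hlh | hlh
    · rw [sum_w_ap_Ioc M _ l h hM1 hlh.le]
      have hunit : IsUnit ((B n + G * s : ℕ) : ZMod M) :=
        (ZMod.isUnit_iff_coprime _ _).mpr hcop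
      have hmem : h ∈ (Ioc 0 K).filter (fun t1 => t1 * m < s ∧ s ≤ t1 * m + K) := by
        rw [filter_eq_Ioc hm hs]; exact mem_Ioc.mpr ⟨hlh, le_rfl⟩
      simp only [mem_filter, mem_Ioc] at hmem
      have hle : B n + G * s + M * h ≤ X := by
        have h1 : M * h + G * (h * m) = G * (h * n) := by
          rw [hM]
          have : n = (n - m) + m := by omega
          conv_rhs => rw [this]
          ring
        have h2 : G * (h * n) ≤ G * (K * n) :=
          Nat.mul_le_mul_left G (Nat.mul_le_mul_right n hmem.1.2)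
        have h3 : G * s ≤ G * (h * m + K) := Nat.mul_le_mul_left G hmem.2.2
        have h4 : G * (h * m + K) = G * (h * m) + G * K := by ring
        have h5 : G * (K + K * n) = G * K + G * (K * n) := by ring
        omega
      have hle2 : B n + G * s + M * l ≤ X := by
        have : M * l ≤ M * h := Nat.mul_le_mul_left M hlh.le
        omega
      have e1 := hSW _ hle M hM1 hMN _ hunit
      have e2 := hSW _ hle2 M hM1 hMN _ hunit
      rw [abs_le] at e1 e2
      have hcard : (((Ioc l h).card : ℕ) : ℝ) = (h:ℝ) - l := by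
        rw [Nat.card_Ioc, Nat.cast_sub hlh.le]
      rw [hcard]
      have e3 : ((B n + G * s + M * h : ℕ) : ℝ) / M.totient -
          ((B n + G * s + M * l : ℕ) : ℝ) / M.totient =
          (M : ℝ) / M.totient * ((h:ℝ) - l) := by
        push_cast; ring
      linarith [e1.2, e2.1]
    · rw [Ioc_eq_empty_of_le hlh]
      simp only [sum_empty, card_empty, Nat.cast_zero, mul_zero, zero_add]
      positivity
  · refine le_of_eq (sum_eq_zero fun t1 ht1 => ?_)
    simp only [mem_filter, mem_Ioc] at ht1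
    refine w_eq_zero_of_not_coprime hM1 ?_ ?_
    · have h1 : M ≤ M * t1 := Nat.le_mul_of_pos_right M ht1.1.1
      have h2 : 1 ≤ G * s := Nat.mul_le_mul hG hs
      omega
    · intro h
      apply hcop
      have : B n + G * s + M * t1 = (B n + G * s) + t1 * M := by ring
      rw [this] at h
      exact (Nat.coprime_add_mul_right_left _ _ _).mp h

/-- Pair correlation. -/
lemma pair_le (hE : 0 ≤ E) (hSW : SWH X (G * N) E) (hG : 1 ≤ G)
    {m n : ℕ} (hXm : B m + G * (K + K * m) ≤ X) (hX : B n + G * (K + K * n) ≤ X)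
    (hm : 1 ≤ m) (hmn : m < n) (hn : n ≤ N) :
    ∑ t1 ∈ Ioc 0 K, ∑ t0 ∈ Ioc 0 K, w (vv B G t0 t1 m) * w (vv B G t0 t1 n) ≤
      ((G * (n - m) : ℕ) : ℝ) / ((G * (n - m)).totient : ℝ) *
        (∑ t1 ∈ Ioc 0 K, ∑ t0 ∈ Ioc 0 K,
          (if Nat.Coprime (B n + G * (t0 + t1 * m)) (G * (n - m)) then
            w (B m + G * (t0 + t1 * m)) else 0)) +
      2 * E * ((K + K * m : ℕ) : ℝ) * Real.log X := by
  set M := G * (n - m) with hM
  have hnm : 1 ≤ n - m := by omega
  have hM1 : 1 ≤ M := by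
    have := Nat.mul_le_mul hG hnm
    omega
  have h1 : ∑ t1 ∈ Ioc 0 K, ∑ t0 ∈ Ioc 0 K, w (vv B G t0 t1 m) * w (vv B G t0 t1 n) =
      ∑ t1 ∈ Ioc 0 K, ∑ t0 ∈ Ioc 0 K,
        (fun s t1 => w (B m + G * s) * w (B n + G * s + M * t1)) (t0 + t1 * m) t1 := by
    refine sum_congr rfl fun t1 _ => sum_congr rfl fun t0 _ => ?_
    simp only
    congr 2
    unfold vv
    have : n = (n - m) + m := by omega
    have h2 : M * t1 + G * (t1 * m) = G * (t1 * n) := by
      rw [hM]
      conv_rhs => rw [this]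
      ring
    have h3 : G * (t0 + t1 * n) = G * t0 + G * (t1 * n) := by ring
    have h4 : G * (t0 + t1 * m) = G * t0 + G * (t1 * m) := by ring
    omega
  have h1' := swap_sum K m (fun s t1 => w (B m + G * s) * w (B n + G * s + M * t1))
  rw [h1, h1']
  have h2 : ∑ t1 ∈ Ioc 0 K, ∑ t0 ∈ Ioc 0 K,
          (if Nat.Coprime (B n + G * (t0 + t1 * m)) M then
            w (B m + G * (t0 + t1 * m)) else 0) =
      ∑ s ∈ Ioc 0 (K + K * m), ∑ t1 ∈ (Ioc 0 K).filter (fun t1 => t1 * m < s ∧ s ≤ t1 * m + K),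
        (if Nat.Coprime (B n + G * s) M then w (B m + G * s) else 0) :=
    swap_sum K m (fun s _ => if Nat.Coprime (B n + G * s) M then w (B m + G * s) else 0)
  rw [h2, mul_sum]
  have h3 : 2 * E * ((K + K * m : ℕ) : ℝ) * Real.log X =
      ∑ _s ∈ Ioc 0 (K + K * m), 2 * E * Real.log X := by
    rw [sum_const, Nat.card_Ioc, nsmul_eq_mul]
    simp only [Nat.sub_zero]
    ring
  rw [h3, ← sum_add_distrib]
  refine sum_le_sum fun s hs => ?_
  rw [mem_Ioc] at hs
  rw [← mul_sum]
  have hinner := inner_le (s := s) hE hSW hG hX hm hmn hn hs.1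
  have hw0 := w_nonneg (B m + G * s)
  have hwX : w (B m + G * s) ≤ Real.log X := by
    refine w_le_log ?_
    have : G * s ≤ G * (K + K * m) := Nat.mul_le_mul_left G hs.2
    omega
  refine (mul_le_mul_of_nonneg_left hinner hw0).trans ?_
  rw [sum_const, nsmul_eq_mul]
  have hlogX : 0 ≤ Real.log X := Real.log_natCast_nonneg X
  split_ifs with hcop
  · have : w (B m + G * s) * (2 * E) ≤ 2 * E * Real.log X := by nlinarith
    nlinarith
  · have : 0 ≤ 2 * E * Real.log X := by positivity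
    simpa using this

/-- One term of inclusion–exclusion. -/
lemma term_bounds (hE : 0 ≤ E) {Y : ℕ} (hSW : SWH X Y E) (hG : 1 ≤ G) {y b : ℕ}
    (hy : y.Coprime G) (hX : y + G * K ≤ X) (D : Finset ℕ) (hD : ∀ l ∈ D, l.Prime)
    (hDG : ∀ l ∈ D, ¬ l ∣ G) (hDY : G * ∏ l ∈ D, l ≤ Y) :
    |(∑ t ∈ Ioc 0 K, if ∀ l ∈ D, l ∣ b + G * t then w (y + G * t) else 0) -
      (if ∀ l ∈ D, ¬ b ≡ y [MOD l] then (G:ℝ) / G.totient * K * ∏ l ∈ D, (1 / ((l:ℝ) - 1)) else 0)| ≤
      2 * E + Real.log X := by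
  classical
  have hlogX : 0 ≤ Real.log X := Real.log_natCast_nonneg X
  -- the residue class
  obtain ⟨n0, hn0⟩ := Pool.Agent.Maynard.crt_iff D hD hDG y (fun l => y + b * (l - 1))
  set Q := G * ∏ l ∈ D, l with hQ
  have hDpos : 0 < ∏ l ∈ D, l := prod_pos fun l hl => (hD l hl).pos
  have hQ1 : 1 ≤ Q := Nat.mul_le_mul hG hDpos
  have hcond : ∀ t : ℕ, (∀ l ∈ D, l ∣ b + G * t) ↔ ∀ l ∈ D, y + G * t ≡ y + b * (l - 1) [MOD l] := by
    intro t
    refine forall₂_congr fun l hl => ?_
    have hl1 := (hD l hl).one_lt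
    have h1 : b * (l - 1) + b ≡ 0 [MOD l] := by
      have : b * (l - 1) + b = b * l := by
        obtain ⟨l', rfl⟩ : ∃ l', l = l' + 1 := ⟨l - 1, by omega⟩
        simp; ring
      rw [this]
      exact Nat.modEq_zero_iff_dvd.2 (dvd_mul_left _ _)
    rw [← Nat.modEq_zero_iff_dvd]
    constructor
    · intro h
      have h2 : b + G * t ≡ b * (l - 1) + b [MOD l] := h.trans h1.symm
      have h3 : b + G * t ≡ b + b * (l - 1) [MOD l] := by rwa [add_comm (b * (l - 1)) b] at h2
      exact (Nat.ModEq.add_left_cancel' b h3).add_left y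
    · intro h
      have h2 := Nat.ModEq.add_left_cancel' y h
      have h3 : G * t + b ≡ b * (l - 1) + b [MOD l] := h2.add_right b
      have h4 := h3.trans h1
      rwa [add_comm (G * t) b] at h4
  have hsum : (∑ t ∈ Ioc 0 K, if ∀ l ∈ D, l ∣ b + G * t then w (y + G * t) else 0) =
      th (y + G * K) Q (n0 : ZMod Q) - th y Q (n0 : ZMod Q) := by
    rw [th_sub_eq (by omega : y ≤ y + G * K)]
    have h1 : ∀ t ∈ Ioc 0 K, (if ∀ l ∈ D, l ∣ b + G * t then w (y + G * t) else 0) =
        (fun p : ℕ => if p ≡ n0 [MOD Q] then w p else 0) (y + G * t) := by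
      intro t _
      have h2 : (y + G * t ≡ n0 [MOD Q]) ↔ ∀ l ∈ D, l ∣ b + G * t := by
        rw [← hn0, hcond]
        constructor
        · exact fun h => h.2
        · exact fun h => ⟨by simp [Nat.ModEq], h⟩
      simp only [h2]
    rw [sum_congr rfl h1, ← sum_image (g := fun t => y + G * t)
      (f := fun p : ℕ => if p ≡ n0 [MOD Q] then w p else 0)]
    · have e4 : ∑ p ∈ (Ioc 0 K).image (fun t => y + G * t), (if p ≡ n0 [MOD Q] then w p else 0) =
          ∑ p ∈ Ioc y (y + G * K), (if p ≡ n0 [MOD Q] then w p else 0) := by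
        refine sum_subset ?_ ?_
        · intro p hp
          simp only [mem_image, mem_Ioc] at hp ⊢
          obtain ⟨t, ⟨h3, h4⟩, rfl⟩ := hp
          have h5 : 1 * 1 ≤ G * t := Nat.mul_le_mul hG h3
          have h6 : G * t ≤ G * K := Nat.mul_le_mul_left G h4
          omega
        · intro p hp1 hp2
          rw [if_neg]
          intro hcon
          apply hp2
          have h3 : p ≡ y [MOD G] := ((hn0 p).2 hcon).1
          rw [mem_Ioc] at hp1
          obtain ⟨t, ht⟩ := (Nat.modEq_iff_dvd' hp1.1.le).mp h3.symm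
          have hp : p = y + G * t := by omega
          rw [mem_image]
          refine ⟨t, ?_, hp.symm⟩
          rw [mem_Ioc]
          constructor
          · rcases Nat.eq_zero_or_pos t with rfl | h
            · simp at hp; omega
            · exact h
          · by_contra h
            push Not at h
            have : G * K < G * t := Nat.mul_lt_mul_of_pos_left h (by omega)
            omega
      rw [e4]
      refine sum_congr rfl fun p _ => ?_
      simp only [← ZMod.natCast_eq_natCast_iff]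
    · intro t _ t' _ htt
      have : G * t = G * t' := by simpa using htt
      exact Nat.eq_of_mul_eq_mul_left (by omega) this
  rw [hsum]
  have hself := (hn0 n0).2 (Nat.ModEq.refl _)
  by_cases hgood : ∀ l ∈ D, ¬ b ≡ y [MOD l]
  · rw [if_pos hgood]
    have hcop : n0.Coprime Q := by
      rw [hQ]
      refine Nat.Coprime.mul_right ?_ ?_
      · rw [Nat.coprime_iff_gcd_eq_one, Nat.ModEq.gcd_eq hself.1]
        exact hy
      · refine Nat.Coprime.prod_right fun l hl => ?_
        have hlp := hD l hl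
        rw [Nat.coprime_comm, hlp.coprime_iff_not_dvd]
        intro hdvd
        apply hgood l hl
        have h1 := hself.2 l hl
        have h2 : y + b * (l - 1) ≡ 0 [MOD l] :=
          h1.symm.trans (Nat.modEq_zero_iff_dvd.2 hdvd)
        have h3 : b * (l - 1) + b ≡ 0 [MOD l] := by
          have : b * (l - 1) + b = b * l := by
            obtain ⟨l', rfl⟩ : ∃ l', l = l' + 1 := ⟨l - 1, by have := hlp.one_lt; omega⟩
            simp; ring
          rw [this]
          exact Nat.modEq_zero_iff_dvd.2 (dvd_mul_left _ _)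
        have h4 : b * (l - 1) + b ≡ b * (l - 1) + y [MOD l] := by
          refine h3.trans ?_
          rw [add_comm (b * (l - 1)) y]
          exact h2.symm
        exact Nat.ModEq.add_left_cancel' _ h4
    have hunit : IsUnit ((n0 : ℕ) : ZMod Q) := (ZMod.isUnit_iff_coprime _ _).mpr hcop
    have e1 := hSW (y + G * K) hX Q hQ1 hDY _ hunit
    have e2 := hSW y (by omega) Q hQ1 hDY _ hunit
    have htot : (Q.totient : ℝ) = G.totient * ∏ l ∈ D, ((l:ℝ) - 1) := by
      rw [hQ, Nat.totient_mul (Nat.Coprime.prod_right fun l hl =>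
        ((hD l hl).coprime_iff_not_dvd.2 (hDG l hl)).symm)]
      push_cast
      congr 1
      have key : ∀ S ⊆ D, ((Nat.totient (∏ l ∈ S, l) : ℕ) : ℝ) = ∏ l ∈ S, ((l:ℝ) - 1) := by
        intro S
        induction S using Finset.induction_on with
        | empty => intro _; simp
        | insert l S hl ih =>
          intro hS
          have hlD : l ∈ D := hS (mem_insert_self _ _)
          have hSD : S ⊆ D := fun x hx => hS (mem_insert_of_mem hx)
          rw [prod_insert hl, prod_insert hl, Nat.totient_mul, Nat.cast_mul, ih hSD,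
            Nat.totient_prime (hD l hlD), Nat.cast_sub (hD l hlD).one_lt.le]
          · simp
          · refine Nat.Coprime.prod_right fun l' hl' => ?_
            rw [Nat.coprime_primes (hD l hlD) (hD l' (hSD hl'))]
            rintro rfl
            exact hl hl'
      exact key D (Finset.Subset.refl _)
    have e3 : ((y + G * K : ℕ) : ℝ) / Q.totient - (y : ℝ) / Q.totient =
        (G:ℝ) / G.totient * K * ∏ l ∈ D, (1 / ((l:ℝ) - 1)) := by
      rw [htot, prod_div_distrib, prod_const_one]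
      push_cast
      rw [← sub_div, add_sub_cancel_left, div_mul_eq_div_div, mul_one_div, mul_comm ((G:ℝ) / _) _,
        mul_div_assoc', mul_comm (K:ℝ) (G:ℝ)]
    rw [abs_le] at e1 e2 ⊢
    constructor <;> linarith [e1.1, e1.2, e2.1, e2.2]
  · rw [if_neg hgood, sub_zero]
    push Not at hgood
    obtain ⟨l, hl, hbl⟩ := hgood
    have hlp := hD l hl
    rw [← hsum]
    have h0 : 0 ≤ ∑ t ∈ Ioc 0 K, (if ∀ l ∈ D, l ∣ b + G * t then w (y + G * t) else 0) :=
      sum_nonneg fun t _ => by split_ifs; exacts [w_nonneg _, le_rfl]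
    rw [abs_of_nonneg h0]
    have h1 : ∑ t ∈ Ioc 0 K, (if ∀ l ∈ D, l ∣ b + G * t then w (y + G * t) else 0) ≤
        ∑ t ∈ Ioc 0 K, (if y + G * t = l then Real.log X else 0) := by
      refine sum_le_sum fun t ht => ?_
      rw [mem_Ioc] at ht
      split_ifs with h2 h3 h3
      · refine w_le_log ?_
        have : G * t ≤ G * K := Nat.mul_le_mul_left G ht.2
        omega
      · have h4 : l ∣ y + G * t := by
          have h5 := h2 l hl
          rw [← Nat.modEq_zero_iff_dvd] at h5 ⊢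
          exact ((hbl.add_right (G * t)).symm).trans h5
        unfold w
        rw [if_neg]
        intro hpr
        exact h3 ((Nat.prime_dvd_prime_iff_eq hlp hpr).1 h4).symm
      · exact hlogX
      · exact le_rfl
    refine h1.trans ?_
    rw [← sum_filter, sum_const, nsmul_eq_mul]
    have h2 : ((Ioc 0 K).filter (fun t => y + G * t = l)).card ≤ 1 := by
      rw [card_le_one]
      intro t ht t' ht'
      rw [mem_filter] at ht ht'
      have : G * t = G * t' := by omega
      exact Nat.eq_of_mul_eq_mul_left (by omega) this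
    have h3 : (((Ioc 0 K).filter (fun t => y + G * t = l)).card : ℝ) ≤ 1 := by exact_mod_cast h2
    nlinarith

/-- Sieving by the primes dividing `n - m`. -/
lemma sieve_le (hE : 0 ≤ E) {Y : ℕ} (hSW : SWH X Y E) (hG : 1 ≤ G) {y b : ℕ}
    (hy : y.Coprime G) (hX : y + G * K ≤ X) (S : Finset ℕ) (hS : ∀ l ∈ S, l.Prime)
    (hSG : ∀ l ∈ S, ¬ l ∣ G) (hSY : G * ∏ l ∈ S, l ≤ Y) :
    (∑ t ∈ Ioc 0 K, if ∀ l ∈ S, ¬ l ∣ b + G * t then w (y + G * t) else 0) ≤
      (G:ℝ) / G.totient * K * ∏ l ∈ S.filter (fun l => ¬ b ≡ y [MOD l]), (1 - 1 / ((l:ℝ) - 1)) +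
      2 ^ S.card * (2 * E + Real.log X) := by
  classical
  -- inclusion-exclusion
  have h1 : ∀ t : ℕ, (if ∀ l ∈ S, ¬ l ∣ b + G * t then w (y + G * t) else 0) =
      ∑ D ∈ S.powerset, (-1) ^ D.card * (if ∀ l ∈ D, l ∣ b + G * t then w (y + G * t) else 0) := by
    intro t
    have h2 : ∏ l ∈ S, ((-(if l ∣ b + G * t then (1:ℝ) else 0)) + 1) =
        if ∀ l ∈ S, ¬ l ∣ b + G * t then 1 else 0 := by
      split_ifs with h
      · refine prod_eq_one fun l hl => ?_
        rw [if_neg (h l hl)]; ring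
      · push Not at h
        obtain ⟨l, hl, hlt⟩ := h
        refine prod_eq_zero hl ?_
        rw [if_pos hlt]; ring
    rw [prod_add] at h2
    have h3 : (if ∀ l ∈ S, ¬ l ∣ b + G * t then w (y + G * t) else 0) =
        (if ∀ l ∈ S, ¬ l ∣ b + G * t then 1 else 0) * w (y + G * t) := by
      split_ifs <;> ring
    rw [h3, ← h2, sum_mul]
    refine sum_congr rfl fun D _ => ?_
    rw [prod_const_one, mul_one]
    have h4 : ∏ l ∈ D, (-(if l ∣ b + G * t then (1:ℝ) else 0)) =
        (-1) ^ D.card * (if ∀ l ∈ D, l ∣ b + G * t then 1 else 0) := by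
      have : ∀ l ∈ D, (-(if l ∣ b + G * t then (1:ℝ) else 0)) =
          (-1) * (if l ∣ b + G * t then (1:ℝ) else 0) := fun l _ => by ring
      rw [prod_congr rfl this, prod_mul_distrib, prod_const]
      congr 1
      split_ifs with h
      · exact prod_eq_one fun l hl => by rw [if_pos (h l hl)]
      · push Not at h
        obtain ⟨l, hl, hlt⟩ := h
        exact prod_eq_zero hl (by rw [if_neg hlt])
    rw [h4]
    split_ifs <;> ring
  simp_rw [h1]
  rw [sum_comm]
  simp_rw [← mul_sum]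
  have h2 : ∀ D ∈ S.powerset, (-1:ℝ) ^ D.card *
      (∑ t ∈ Ioc 0 K, if ∀ l ∈ D, l ∣ b + G * t then w (y + G * t) else 0) ≤
      (-1) ^ D.card * (if ∀ l ∈ D, ¬ b ≡ y [MOD l] then
        (G:ℝ) / G.totient * K * ∏ l ∈ D, (1 / ((l:ℝ) - 1)) else 0) + (2 * E + Real.log X) := by
    intro D hD
    rw [mem_powerset] at hD
    have hle : ∏ l ∈ D, l ≤ ∏ l ∈ S, l :=
      prod_le_prod_of_subset_of_one_le' hD fun l hl _ => (hS l hl).one_lt.le
    have h3 := term_bounds (b := b) hE hSW hG hy hX D (fun l hl => hS l (hD hl))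
      (fun l hl => hSG l (hD hl)) ((Nat.mul_le_mul_left G hle).trans hSY)
    have h4 := (abs_le.1 h3).1
    have h5 := (abs_le.1 h3).2
    rcases neg_one_pow_eq_or ℝ D.card with h6 | h6
    · rw [h6]; linarith
    · rw [h6]; linarith
  refine (sum_le_sum h2).trans ?_
  rw [sum_add_distrib, sum_const, card_powerset, nsmul_eq_mul]
  push_cast
  refine add_le_add (le_of_eq ?_) le_rfl
  -- evaluate the main term
  set S' := S.filter (fun l => ¬ b ≡ y [MOD l]) with hS'
  have h3 : ∑ D ∈ S.powerset, (-1:ℝ) ^ D.card * (if ∀ l ∈ D, ¬ b ≡ y [MOD l] then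
        (G:ℝ) / G.totient * K * ∏ l ∈ D, (1 / ((l:ℝ) - 1)) else 0) =
      ∑ D ∈ S'.powerset, (G:ℝ) / G.totient * K * ∏ l ∈ D, (-(1 / ((l:ℝ) - 1))) := by
    have h4 : S'.powerset = S.powerset.filter (fun D => ∀ l ∈ D, ¬ b ≡ y [MOD l]) := by
      ext D
      simp only [hS', mem_powerset, mem_filter]
      constructor
      · intro h
        exact ⟨fun l hl => (mem_filter.1 (h hl)).1, fun l hl => (mem_filter.1 (h hl)).2⟩
      · rintro ⟨h5, h6⟩ l hl
        exact mem_filter.2 ⟨h5 hl, h6 l hl⟩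
    rw [h4, sum_filter]
    refine sum_congr rfl fun D _ => ?_
    split_ifs with h5
    · have : ∀ l ∈ D, (-(1 / ((l:ℝ) - 1))) = (-1) * (1 / ((l:ℝ) - 1)) := fun l _ => by ring
      rw [prod_congr rfl this, prod_mul_distrib, prod_const]
      ring
    · ring
  rw [h3, ← mul_sum]
  congr 1
  have h4 : ∏ l ∈ S', (1 - 1 / ((l:ℝ) - 1)) = ∏ l ∈ S', ((-(1 / ((l:ℝ) - 1))) + 1) :=
    prod_congr rfl fun l _ => by ring
  rw [h4, prod_add]
  refine sum_congr rfl fun D _ => ?_
  rw [prod_const_one, mul_one]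

end Env

end Pool.Agent.PnMaynard
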