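import Pool.Agent.PnMaynard.Pair

/-!
# Second moment with weights
-/

open Finset

namespace Pool.Agent.PnMaynard

open Pool.Agent.PnPoly

/-- the singular factor of a pair -/
noncomputable def gs (G : ℕ) (B : ℕ → ℕ) (m n : ℕ) : ℝ :=
  ∏ l ∈ ((n - m) + (m - n)).primeFactors.filter (fun l => ¬ l ∣ G ∧ B n ≡ B m [MOD l]),
    ((l:ℝ) / ((l:ℝ) - 1))

lemma gs_comm (G : ℕ) (B : ℕ → ℕ) (m n : ℕ) : gs G B m n = gs G B n m := by
  unfold gs
  rw [add_comm (n - m) (m - n)]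
  refine prod_congr (filter_congr fun l _ => ?_) fun _ _ => rfl
  constructor
  · rintro ⟨h1, h2⟩; exact ⟨h1, h2.symm⟩
  · rintro ⟨h1, h2⟩; exact ⟨h1, h2.symm⟩

lemma ratio_ge_one {l : ℕ} (hl : l.Prime) : (1:ℝ) ≤ (l:ℝ) / ((l:ℝ) - 1) := by
  have h2 : (2:ℝ) ≤ l := by exact_mod_cast hl.two_le
  rw [le_div_iff₀ (by linarith)]
  linarith

lemma gs_ge_one (G : ℕ) (B : ℕ → ℕ) (m n : ℕ) : 1 ≤ gs G B m n := by
  unfold gs
  have : ∀ l ∈ ((n - m) + (m - n)).primeFactors.filter (fun l => ¬ l ∣ G ∧ B n ≡ B m [MOD l]),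
      (1:ℝ) ≤ (l:ℝ) / ((l:ℝ) - 1) := fun l hl =>
    ratio_ge_one (Nat.prime_of_mem_primeFactors (mem_filter.1 hl).1)
  calc (1:ℝ) = ∏ _l ∈ ((n - m) + (m - n)).primeFactors.filter
        (fun l => ¬ l ∣ G ∧ B n ≡ B m [MOD l]), (1:ℝ) := by simp
    _ ≤ _ := prod_le_prod (fun _ _ => zero_le_one) this

lemma div_totient_eq {M : ℕ} (hM : 0 < M) :
    (M:ℝ) / M.totient = ∏ l ∈ M.primeFactors, ((l:ℝ) / ((l:ℝ) - 1)) := by
  have h1 := Nat.totient_eq_mul_prod_factors M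
  have h2 : ((M.totient : ℚ) : ℝ) = ((M * ∏ p ∈ M.primeFactors, (1 - (p : ℚ)⁻¹) : ℚ) : ℝ) := by
    rw [h1]
  push_cast at h2
  have hM' : (M:ℝ) ≠ 0 := by exact_mod_cast hM.ne'
  rw [h2, div_mul_eq_div_div, div_self hM', one_div, ← prod_inv_distrib]
  refine prod_congr rfl fun l hl => ?_
  have h3 : (2:ℝ) ≤ l := by exact_mod_cast (Nat.prime_of_mem_primeFactors hl).two_le
  have h4 : (l:ℝ) - 1 ≠ 0 := by linarith
  have h5 : (l:ℝ) ≠ 0 := by linarith
  field_simp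

lemma two_pow_card_primeFactors_le {r : ℕ} (hr : 0 < r) : 2 ^ r.primeFactors.card ≤ r := by
  calc 2 ^ r.primeFactors.card = ∏ _p ∈ r.primeFactors, 2 := by rw [prod_const]
    _ ≤ ∏ p ∈ r.primeFactors, p := prod_le_prod' fun p hp => (Nat.prime_of_mem_primeFactors hp).two_le
    _ ≤ r := Nat.le_of_dvd hr (Nat.prod_primeFactors_dvd r)

section Env

variable {K N X G : ℕ} {E : ℝ} {B : ℕ → ℕ}

/-- Pair correlation, final form. -/
lemma pair_total (hE : 0 ≤ E) (hSW : SWH X (G * N) E) (hG : 1 ≤ G)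
    {m n : ℕ} (hXm : B m + G * (K + K * m) ≤ X) (hX : B n + G * (K + K * n) ≤ X)
    (hBm : (B m).Coprime G) (hm : 1 ≤ m) (hmn : m < n) (hn : n ≤ N) :
    ∑ t1 ∈ Ioc 0 K, ∑ t0 ∈ Ioc 0 K, w (vv B G t0 t1 m) * w (vv B G t0 t1 n) ≤
      ((G:ℝ) / G.totient) ^ 2 * (K:ℝ) ^ 2 * gs G B m n +
      (G * N ^ 2 * K * (2 * E + Real.log X) + 2 * E * (K * (1 + N)) * Real.log X) := by
  classical
  have hlogX : 0 ≤ Real.log X := Real.log_natCast_nonneg X
  set r := n - m with hr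
  have hr1 : 1 ≤ r := by omega
  set M := G * r with hM
  have hM1 : 1 ≤ M := Nat.mul_le_mul hG hr1
  have hrN : r ≤ N := by omega
  have hMN : M ≤ G * N := Nat.mul_le_mul_left G hrN
  set S := r.primeFactors.filter (fun l => ¬ l ∣ G) with hS
  have hSp : ∀ l ∈ S, l.Prime := fun l hl => Nat.prime_of_mem_primeFactors (mem_filter.1 hl).1
  have hSG : ∀ l ∈ S, ¬ l ∣ G := fun l hl => (mem_filter.1 hl).2
  have hSprod : ∏ l ∈ S, l ≤ r := by
    calc ∏ l ∈ S, l ≤ ∏ l ∈ r.primeFactors, l :=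
          prod_le_prod_of_subset_of_one_le' (filter_subset _ _) fun l hl _ =>
            (Nat.prime_of_mem_primeFactors hl).one_lt.le
      _ ≤ r := Nat.le_of_dvd hr1 (Nat.prod_primeFactors_dvd r)
  have hSY : G * ∏ l ∈ S, l ≤ G * N := Nat.mul_le_mul_left G (hSprod.trans hrN)
  have hScard : 2 ^ S.card ≤ N := by
    calc 2 ^ S.card ≤ 2 ^ r.primeFactors.card :=
          Nat.pow_le_pow_right (by norm_num) (card_filter_le _ _)
      _ ≤ r := two_pow_card_primeFactors_le hr1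
      _ ≤ N := hrN
  set κ := (G:ℝ) / G.totient with hκ
  have hκ0 : 0 ≤ κ := by positivity
  -- M/φ(M)
  have hMphi : (M:ℝ) / M.totient = κ * ∏ l ∈ S, ((l:ℝ) / ((l:ℝ) - 1)) := by
    rw [div_totient_eq hM1, hκ, div_totient_eq hG, ← prod_union]
    · refine prod_congr ?_ fun _ _ => rfl
      rw [hM, Nat.primeFactors_mul (by omega) (by omega)]
      ext l
      simp only [mem_union, hS, mem_filter]
      constructor
      · rintro (h | h)
        · exact Or.inl h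
        · by_cases h2 : l ∣ G
          · exact Or.inl (Nat.mem_primeFactors.2 ⟨Nat.prime_of_mem_primeFactors h, h2, by omega⟩)
          · exact Or.inr ⟨h, h2⟩
      · rintro (h | h)
        · exact Or.inl h
        · exact Or.inr h.1
    · rw [disjoint_left]
      intro l hl hl'
      exact hSG l hl' (Nat.dvd_of_mem_primeFactors hl)
  have hMphi_le : (M:ℝ) / M.totient ≤ G * N := by
    have h1 : (1:ℝ) ≤ M.totient := by exact_mod_cast Nat.totient_pos.2 hM1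
    calc (M:ℝ) / M.totient ≤ M / 1 := by gcongr
      _ = M := by ring
      _ ≤ G * N := by exact_mod_cast hMN
  have hMphi0 : 0 ≤ (M:ℝ) / M.totient := by positivity
  -- sieve for each t1
  have hin : ∀ t1 ∈ Ioc 0 K, ∑ t0 ∈ Ioc 0 K,
      (if Nat.Coprime (B n + G * (t0 + t1 * m)) M then w (B m + G * (t0 + t1 * m)) else 0) ≤
      κ * K * ∏ l ∈ S.filter (fun l => ¬ B n ≡ B m [MOD l]), (1 - 1 / ((l:ℝ) - 1)) +
        N * (2 * E + Real.log X) := by
    intro t1 ht1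
    rw [mem_Ioc] at ht1
    set y := B m + G * (t1 * m) with hy
    set b := B n + G * (t1 * m) with hb
    have hycop : y.Coprime G := (Nat.coprime_add_mul_left_left _ _ _).mpr hBm
    have hyX : y + G * K ≤ X := by
      have h1 : G * (t1 * m) ≤ G * (K * m) :=
        Nat.mul_le_mul_left G (Nat.mul_le_mul_right m ht1.2)
      have h2 : G * (K + K * m) = G * K + G * (K * m) := by ring
      omega
    have h1 := sieve_le (b := b) hE hSW hG hycop hyX S hSp hSG hSY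
    have h2 : ∑ t0 ∈ Ioc 0 K,
        (if Nat.Coprime (B n + G * (t0 + t1 * m)) M then w (B m + G * (t0 + t1 * m)) else 0) ≤
        ∑ t ∈ Ioc 0 K, if ∀ l ∈ S, ¬ l ∣ b + G * t then w (y + G * t) else 0 := by
      refine sum_le_sum fun t _ => ?_
      have e1 : B n + G * (t + t1 * m) = b + G * t := by rw [hb]; ring
      have e2 : B m + G * (t + t1 * m) = y + G * t := by rw [hy]; ring
      rw [e1, e2]
      have hw0 := w_nonneg (y + G * t)
      split_ifs with h3 h4 h4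
      · exact le_rfl
      · exfalso
        apply h4
        intro l hl hdvd
        have hlM : l ∣ M := by
          rw [hM]
          exact (Nat.dvd_of_mem_primeFactors (mem_filter.1 hl).1).mul_left G
        exact Nat.not_coprime_of_dvd_of_dvd (hSp l hl).one_lt hdvd hlM h3
      · exact hw0
      · exact le_rfl
    refine h2.trans (h1.trans ?_)
    have h3 : S.filter (fun l => ¬ b ≡ y [MOD l]) = S.filter (fun l => ¬ B n ≡ B m [MOD l]) := by
      refine filter_congr fun l _ => ?_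
      rw [hb, hy]
      refine not_congr ⟨fun h => Nat.ModEq.add_right_cancel' _ h, fun h => h.add_right _⟩
    rw [h3]
    have h4 : (2:ℝ) ^ S.card ≤ N := by exact_mod_cast hScard
    have h5 : 0 ≤ 2 * E + Real.log X := by positivity
    nlinarith [mul_le_mul_of_nonneg_right h4 h5]
  have h1 := pair_le hE hSW hG hXm hX hm hmn hn
  refine h1.trans ?_
  rw [← hr, ← hM]
  have h2 : ∑ t1 ∈ Ioc 0 K, ∑ t0 ∈ Ioc 0 K,
      (if Nat.Coprime (B n + G * (t0 + t1 * m)) M then w (B m + G * (t0 + t1 * m)) else 0) ≤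
      K * (κ * K * ∏ l ∈ S.filter (fun l => ¬ B n ≡ B m [MOD l]), (1 - 1 / ((l:ℝ) - 1)) +
        N * (2 * E + Real.log X)) := by
    refine (sum_le_sum hin).trans (le_of_eq ?_)
    rw [sum_const, Nat.card_Ioc, nsmul_eq_mul]
    simp
  have h3 := mul_le_mul_of_nonneg_left h2 hMphi0
  have h4 : 2 * E * ((K + K * m : ℕ) : ℝ) * Real.log X ≤ 2 * E * (K * (1 + N)) * Real.log X := by
    have : ((K + K * m : ℕ) : ℝ) ≤ K * (1 + N) := by
      push_cast
      have : (m:ℝ) ≤ N := by exact_mod_cast (by omega : m ≤ N)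
      nlinarith [Nat.cast_nonneg (α := ℝ) K]
    gcongr
  refine (add_le_add h3 h4).trans ?_
  rw [← add_assoc]
  refine add_le_add ?_ le_rfl
  -- the main comparison
  have hgs : gs G B m n = ∏ l ∈ S.filter (fun l => B n ≡ B m [MOD l]), ((l:ℝ) / ((l:ℝ) - 1)) := by
    unfold gs
    have : (n - m) + (m - n) = r := by omega
    rw [this, hS, filter_filter]
  have hfac : ∏ l ∈ S, ((l:ℝ) / ((l:ℝ) - 1)) =
      gs G B m n * ∏ l ∈ S.filter (fun l => ¬ B n ≡ B m [MOD l]), ((l:ℝ) / ((l:ℝ) - 1)) := by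
    rw [hgs]
    exact (prod_filter_mul_prod_filter_not S (fun l => B n ≡ B m [MOD l]) _).symm
  have hle1 : (∏ l ∈ S.filter (fun l => ¬ B n ≡ B m [MOD l]), ((l:ℝ) / ((l:ℝ) - 1))) *
      ∏ l ∈ S.filter (fun l => ¬ B n ≡ B m [MOD l]), (1 - 1 / ((l:ℝ) - 1)) ≤ 1 := by
    rw [← prod_mul_distrib]
    refine prod_le_one (fun l hl => ?_) fun l hl => ?_
    · have hlp := hSp l (mem_filter.1 hl).1
      have h5 : (2:ℝ) ≤ l := by exact_mod_cast hlp.two_le
      refine mul_nonneg (by have := ratio_ge_one hlp; linarith) ?_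
      rw [sub_nonneg, div_le_one (by linarith)]
      linarith
    · have hlp := hSp l (mem_filter.1 hl).1
      have h5 : (2:ℝ) ≤ l := by exact_mod_cast hlp.two_le
      have h6 : (0:ℝ) < (l:ℝ) - 1 := by linarith
      have h7 : (l:ℝ) / ((l:ℝ) - 1) * (1 - 1 / ((l:ℝ) - 1)) =
          ((l:ℝ) * ((l:ℝ) - 2)) / ((l:ℝ) - 1) ^ 2 := by
        field_simp
        ring
      rw [h7, div_le_one (by positivity)]
      nlinarith
  have hgs1 := gs_ge_one G B m n
  rw [mul_add, mul_add]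
  have hmain : (M:ℝ) / M.totient * (K * (κ * K *
      ∏ l ∈ S.filter (fun l => ¬ B n ≡ B m [MOD l]), (1 - 1 / ((l:ℝ) - 1)))) ≤
      κ ^ 2 * (K:ℝ) ^ 2 * gs G B m n := by
    rw [hMphi, hfac]
    calc κ * (gs G B m n * ∏ l ∈ S.filter (fun l => ¬ B n ≡ B m [MOD l]), ((l:ℝ) / ((l:ℝ) - 1))) *
          (K * (κ * K * ∏ l ∈ S.filter (fun l => ¬ B n ≡ B m [MOD l]), (1 - 1 / ((l:ℝ) - 1))))
        = κ ^ 2 * (K:ℝ) ^ 2 * gs G B m n *
          ((∏ l ∈ S.filter (fun l => ¬ B n ≡ B m [MOD l]), ((l:ℝ) / ((l:ℝ) - 1))) *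
            ∏ l ∈ S.filter (fun l => ¬ B n ≡ B m [MOD l]), (1 - 1 / ((l:ℝ) - 1))) := by ring
      _ ≤ κ ^ 2 * (K:ℝ) ^ 2 * gs G B m n * 1 := by
          refine mul_le_mul_of_nonneg_left hle1 (by positivity)
      _ = _ := by ring
  have herr : (M:ℝ) / M.totient * (K * (N * (2 * E + Real.log X))) ≤
      G * N ^ 2 * K * (2 * E + Real.log X) := by
    calc (M:ℝ) / M.totient * (K * (N * (2 * E + Real.log X))) ≤
          (G * N) * (K * (N * (2 * E + Real.log X))) :=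
          mul_le_mul_of_nonneg_right hMphi_le (by positivity)
      _ = _ := by ring
  linarith

/-- The weighted prime count. -/
noncomputable def FF (B : ℕ → ℕ) (G : ℕ) (I : Finset ℕ) (ν : ℕ → ℝ) (t : ℕ × ℕ) : ℝ :=
  ∑ n ∈ I, ν n * w (vv B G t.1 t.2 n)

lemma FF_nonneg {I : Finset ℕ} {ν : ℕ → ℝ} (hν : ∀ n ∈ I, 0 ≤ ν n) (t : ℕ × ℕ) :
    0 ≤ FF B G I ν t := sum_nonneg fun n hn => mul_nonneg (hν n hn) (w_nonneg _)

/-- Chebyshev's inequality for the weighted prime count. -/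
theorem bad_le (hE : 0 ≤ E) (hSW : SWH X (G * N) E) (hG : 1 ≤ G) (hN : 1 ≤ N)
    {I : Finset ℕ} (hI : ∀ n ∈ I, 1 ≤ n ∧ n ≤ N) {ν : ℕ → ℝ} (hν : ∀ n ∈ I, 0 ≤ ν n)
    (hν1 : ∑ n ∈ I, ν n = 1) {η : ℝ} (hη : ∀ n ∈ I, ν n ≤ η)
    (hX : ∀ n ∈ I, B n + G * (K + K * n) ≤ X) (hB : ∀ n ∈ I, (B n).Coprime G)
    {Γ : ℝ} (hΓ : ∑ m ∈ I, ∑ n ∈ I, (if m = n then 0 else ν m * ν n * gs G B m n) ≤ Γ) :
    ((G:ℝ) / G.totient) ^ 2 / 4 *
      (((Ioc 0 K ×ˢ Ioc 0 K).filter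
        (fun t => FF B G I ν t < ((G:ℝ) / G.totient) / 2)).card : ℝ) ≤
      ((G:ℝ) / G.totient) ^ 2 * (K:ℝ) ^ 2 * (Γ - 1) +
      (η * Real.log X * (K * ((G:ℝ) / G.totient * K + 2 * E)) +
      (G * N ^ 2 * K * (2 * E + Real.log X) + 2 * E * (K * (1 + N)) * Real.log X) +
      4 * ((G:ℝ) / G.totient) * E * K) := by
  classical
  have hlogX : 0 ≤ Real.log X := Real.log_natCast_nonneg X
  set κ := (G:ℝ) / G.totient with hκ
  have hκ0 : 0 ≤ κ := by positivity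
  set Tt := Ioc 0 K ×ˢ Ioc 0 K with hTt
  have hTcard : (Tt.card : ℝ) = (K:ℝ) ^ 2 := by
    rw [hTt, card_product, Nat.card_Ioc]; simp only [Nat.sub_zero]; push_cast; ring
  set Err := (G * N ^ 2 * K * (2 * E + Real.log X) + 2 * E * (K * (1 + N)) * Real.log X) with hErr
  have hErr0 : 0 ≤ Err := by positivity
  -- sums over t
  have hsumT : ∀ f : ℕ × ℕ → ℝ, ∑ t ∈ Tt, f t = ∑ t1 ∈ Ioc 0 K, ∑ t0 ∈ Ioc 0 K, f (t0, t1) := by
    intro f
    rw [hTt, sum_product_right]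
  have hfirst : ∀ n ∈ I, |∑ t ∈ Tt, w (vv B G t.1 t.2 n) - κ * (K:ℝ) ^ 2| ≤ 2 * E * K := by
    intro n hn
    rw [hsumT]
    have h1 : ∑ t1 ∈ Ioc 0 K, ∑ t0 ∈ Ioc 0 K, w (vv B G t0 t1 n) - κ * (K:ℝ) ^ 2 =
        ∑ t1 ∈ Ioc 0 K, (∑ t0 ∈ Ioc 0 K, w (vv B G t0 t1 n) - κ * K) := by
      rw [sum_sub_distrib, sum_const, Nat.card_Ioc, nsmul_eq_mul]
      simp only [Nat.sub_zero]
      ring
    simp only at h1 ⊢
    rw [h1]
    refine (abs_sum_le_sum_abs _ _).trans ?_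
    calc ∑ t1 ∈ Ioc 0 K, |∑ t0 ∈ Ioc 0 K, w (vv B G t0 t1 n) - κ * K| ≤
          ∑ _t1 ∈ Ioc 0 K, 2 * E := by
          refine sum_le_sum fun t1 ht1 => ?_
          rw [mem_Ioc] at ht1
          exact first_sum hSW hG hN (hX n hn) (hB n hn) ht1.2
      _ = 2 * E * K := by
          rw [sum_const, Nat.card_Ioc, nsmul_eq_mul]; simp only [Nat.sub_zero]; ring
  have hM1 : κ * (K:ℝ) ^ 2 - 2 * E * K ≤ ∑ t ∈ Tt, FF B G I ν t := by
    unfold FF
    rw [sum_comm]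
    have h1 : ∀ n ∈ I, ν n * (κ * (K:ℝ) ^ 2 - 2 * E * K) ≤
        ∑ t ∈ Tt, ν n * w (vv B G t.1 t.2 n) := by
      intro n hn
      rw [← mul_sum]
      refine mul_le_mul_of_nonneg_left ?_ (hν n hn)
      have := (abs_le.1 (hfirst n hn)).1
      linarith
    calc κ * (K:ℝ) ^ 2 - 2 * E * K = ∑ n ∈ I, ν n * (κ * (K:ℝ) ^ 2 - 2 * E * K) := by
          rw [← sum_mul, hν1, one_mul]
      _ ≤ _ := sum_le_sum h1
  -- second moment
  have hM2 : ∑ t ∈ Tt, FF B G I ν t ^ 2 ≤ κ ^ 2 * (K:ℝ) ^ 2 * Γ +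
      (η * Real.log X * (K * (κ * K + 2 * E)) + Err) := by
    have h1 : ∀ t : ℕ × ℕ, FF B G I ν t ^ 2 = ∑ m ∈ I, ∑ n ∈ I,
        ν m * ν n * (w (vv B G t.1 t.2 m) * w (vv B G t.1 t.2 n)) := by
      intro t
      unfold FF
      rw [sq, sum_mul_sum]
      refine sum_congr rfl fun m _ => sum_congr rfl fun n _ => ?_
      ring
    simp_rw [h1]
    rw [sum_comm]
    have h2 : ∀ m ∈ I, ∑ t ∈ Tt, ∑ n ∈ I,
        ν m * ν n * (w (vv B G t.1 t.2 m) * w (vv B G t.1 t.2 n)) =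
        ∑ n ∈ I, ν m * ν n * ∑ t ∈ Tt, (w (vv B G t.1 t.2 m) * w (vv B G t.1 t.2 n)) := by
      intro m _
      rw [sum_comm]
      exact sum_congr rfl fun n _ => by rw [mul_sum]
    rw [sum_congr rfl h2]
    have h3 : ∀ m ∈ I, ∀ n ∈ I,
        ν m * ν n * ∑ t ∈ Tt, (w (vv B G t.1 t.2 m) * w (vv B G t.1 t.2 n)) ≤
        κ ^ 2 * (K:ℝ) ^ 2 * (if m = n then 0 else ν m * ν n * gs G B m n) +
          ((if m = n then ν m * (η * Real.log X * (K * (κ * K + 2 * E))) else 0) +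
            ν m * ν n * Err) := by
      intro m hm n hn
      have hνm := hν m hm
      have hνn := hν n hn
      have hEE : 0 ≤ ν m * ν n * Err := by positivity
      by_cases hmn : m = n
      · subst hmn
        rw [if_pos rfl, if_pos rfl, mul_zero, zero_add]
        have h4 : ∑ t ∈ Tt, (w (vv B G t.1 t.2 m) * w (vv B G t.1 t.2 m)) ≤
            Real.log X * (K * (κ * K + 2 * E)) := by
          have h5 : ∑ t ∈ Tt, (w (vv B G t.1 t.2 m) * w (vv B G t.1 t.2 m)) ≤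
              Real.log X * ∑ t ∈ Tt, w (vv B G t.1 t.2 m) := by
            rw [mul_sum]
            refine sum_le_sum fun t ht => ?_
            rw [hTt, mem_product, mem_Ioc, mem_Ioc] at ht
            exact mul_le_mul_of_nonneg_right (w_le_log (vv_le (hX m hm) ht.1.2 ht.2.2)) (w_nonneg _)
          have h6 := (abs_le.1 (hfirst m hm)).2
          have h7 : ∑ t ∈ Tt, w (vv B G t.1 t.2 m) ≤ K * (κ * K + 2 * E) := by nlinarith
          exact h5.trans (mul_le_mul_of_nonneg_left h7 hlogX)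
        have h5 : ν m * ν m * ∑ t ∈ Tt, (w (vv B G t.1 t.2 m) * w (vv B G t.1 t.2 m)) ≤
            ν m * η * (Real.log X * (K * (κ * K + 2 * E))) := by
          have h6 : 0 ≤ ∑ t ∈ Tt, (w (vv B G t.1 t.2 m) * w (vv B G t.1 t.2 m)) :=
            sum_nonneg fun t _ => mul_nonneg (w_nonneg _) (w_nonneg _)
          have h7 : ν m * ν m ≤ ν m * η := mul_le_mul_of_nonneg_left (hη m hm) hνm
          exact mul_le_mul h7 h4 h6 (mul_nonneg hνm (hνm.trans (hη m hm)))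
        have h6 : ν m * η * (Real.log X * (K * (κ * K + 2 * E))) =
            ν m * (η * Real.log X * (K * (κ * K + 2 * E))) := by ring
        linarith
      · rw [if_neg hmn, if_neg hmn, zero_add]
        have h4 : ∑ t ∈ Tt, (w (vv B G t.1 t.2 m) * w (vv B G t.1 t.2 n)) ≤
            κ ^ 2 * (K:ℝ) ^ 2 * gs G B m n + Err := by
          rw [hsumT]
          rcases lt_or_gt_of_ne hmn with h | h
          · exact pair_total hE hSW hG (hX m hm) (hX n hn) (hB m hm) (hI m hm).1 h (hI n hn).2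
          · have h5 := pair_total hE hSW hG (hX n hn) (hX m hm) (hB n hn) (hI n hn).1 h (hI m hm).2
            rw [gs_comm] at h5
            refine le_trans (le_of_eq ?_) h5
            refine sum_congr rfl fun t1 _ => sum_congr rfl fun t0 _ => ?_
            ring
        have h5 := mul_le_mul_of_nonneg_left h4 (mul_nonneg hνm hνn)
        refine h5.trans (le_of_eq ?_)
        ring
    refine (sum_le_sum fun m hm => sum_le_sum fun n hn => h3 m hm n hn).trans ?_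
    simp_rw [sum_add_distrib]
    have e1 : ∑ m ∈ I, ∑ n ∈ I, κ ^ 2 * (K:ℝ) ^ 2 *
        (if m = n then 0 else ν m * ν n * gs G B m n) ≤ κ ^ 2 * (K:ℝ) ^ 2 * Γ := by
      simp_rw [← mul_sum]
      exact mul_le_mul_of_nonneg_left hΓ (by positivity)
    have e2 : ∑ m ∈ I, ∑ n ∈ I,
        (if m = n then ν m * (η * Real.log X * (K * (κ * K + 2 * E))) else 0) =
        η * Real.log X * (K * (κ * K + 2 * E)) := by
      have : ∀ m ∈ I, ∑ n ∈ I,
          (if m = n then ν m * (η * Real.log X * (K * (κ * K + 2 * E))) else 0) =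
          ν m * (η * Real.log X * (K * (κ * K + 2 * E))) := by
        intro m hm
        rw [sum_ite_eq I m, if_pos hm]
      rw [sum_congr rfl this, ← sum_mul, hν1, one_mul]
    have e3 : ∑ m ∈ I, ∑ n ∈ I, ν m * ν n * Err = Err := by
      have : ∑ m ∈ I, ∑ n ∈ I, ν m * ν n * Err = (∑ m ∈ I, ν m) * (∑ n ∈ I, ν n) * Err := by
        rw [sum_mul_sum, sum_mul]
        exact sum_congr rfl fun m _ => by rw [sum_mul]
      rw [this, hν1]; ring
    rw [e2, e3]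
    linarith
  -- variance
  have hvar : ∑ t ∈ Tt, (FF B G I ν t - κ) ^ 2 ≤ κ ^ 2 * (K:ℝ) ^ 2 * (Γ - 1) +
      (η * Real.log X * (K * (κ * K + 2 * E)) + Err + 4 * κ * E * K) := by
    have h1 : ∑ t ∈ Tt, (FF B G I ν t - κ) ^ 2 =
        ∑ t ∈ Tt, FF B G I ν t ^ 2 - 2 * κ * ∑ t ∈ Tt, FF B G I ν t + κ ^ 2 * (K:ℝ) ^ 2 := by
      rw [← hTcard, mul_sum, ← sum_sub_distrib]
      have : κ ^ 2 * (Tt.card : ℝ) = ∑ _t ∈ Tt, κ ^ 2 := by rw [sum_const, nsmul_eq_mul]; ring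
      rw [this, ← sum_add_distrib]
      exact sum_congr rfl fun t _ => by ring
    rw [h1]
    have h2 := mul_le_mul_of_nonneg_left hM1 (show 0 ≤ 2 * κ by positivity)
    nlinarith
  refine le_trans ?_ hvar
  have h1 : κ ^ 2 / 4 * ((Tt.filter (fun t => FF B G I ν t < κ / 2)).card : ℝ) =
      ∑ _t ∈ Tt.filter (fun t => FF B G I ν t < κ / 2), κ ^ 2 / 4 := by
    rw [sum_const, nsmul_eq_mul]; ring
  rw [h1]
  refine (sum_le_sum fun t ht => ?_).trans
    (sum_le_sum_of_subset_of_nonneg (filter_subset _ _) fun t _ _ => sq_nonneg _)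
  have h2 := (mem_filter.1 ht).2
  nlinarith

/-- Many primes from a lower bound of the weighted count. -/
lemma card_of_FF {I : Finset ℕ} {ν : ℕ → ℝ} (hν : ∀ n ∈ I, 0 ≤ ν n) {η : ℝ}
    (hη : ∀ n ∈ I, ν n ≤ η) (hX : ∀ n ∈ I, B n + G * (K + K * n) ≤ X) {t : ℕ × ℕ}
    (ht : t.1 ≤ K ∧ t.2 ≤ K) :
    FF B G I ν t ≤ ((I.filter (fun n => (vv B G t.1 t.2 n).Prime)).card : ℝ) *
      (η * Real.log X) := by
  have hlogX : 0 ≤ Real.log X := Real.log_natCast_nonneg X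
  unfold FF
  have h1 : ∑ n ∈ I, ν n * w (vv B G t.1 t.2 n) ≤
      ∑ n ∈ I.filter (fun n => (vv B G t.1 t.2 n).Prime), η * Real.log X := by
    rw [sum_filter]
    refine sum_le_sum fun n hn => ?_
    split_ifs with hp
    · exact mul_le_mul (hη n hn) (w_le_log (vv_le (hX n hn) ht.1 ht.2)) (w_nonneg _)
        ((hν n hn).trans (hη n hn))
    · unfold w
      rw [if_neg hp, mul_zero]
  refine h1.trans (le_of_eq ?_)
  rw [sum_const, nsmul_eq_mul]

end Env

end Pool.Agent.PnMaynard
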